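import Pool.Agent.W2helper21.ROT.Trdeg

/-!
# Formulas with products and overlap gates
-/

namespace Pool.Agent.W2helper21.ROT

open MvPolynomial
open Pool.Agent.W2helper21.ROG (RFormula Good good_mono NZ)

universe u

/-- Formulas built from read-once formulas (`base`) by gates applied to subformulas in disjoint
variables (`gate`), by arbitrary products (`prod`) and by overlap gates (`mix`): the polynomial
`Ψ(f_1, …, f_s)` of `s` read-once formulas `f_t` in the same arguments `A_1, …, A_m`. -/
inductive OFormula (F : Type u) [Field F] (n : ℕ) : Type u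
  | base (g : RFormula F n) : OFormula F n
  | gate {m : ℕ} (Φ : MvPolynomial (Fin m) F) (A : Fin m → OFormula F n) : OFormula F n
  | prod {m : ℕ} (A : Fin m → OFormula F n) : OFormula F n
  | mix {m s : ℕ} (Ψ : MvPolynomial (Fin s) F) (f : Fin s → RFormula F m)
      (A : Fin m → OFormula F n) : OFormula F n

/-- Every gate depends on at most `k + 1` of its arguments, and the leaves are variables and
constants. -/
def SmallArity {F : Type u} [Field F] {m : ℕ} (k : ℕ) : RFormula F m → Prop
  | .leaf p => (∃ i, p = X i) ∨ ∃ c, p = C c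
  | .gate Φ A => Φ.vars.card ≤ k + 1 ∧ ∀ j, SmallArity k (A j)

/-- At most `T` of the polynomials `p_t` are algebraically independent over `F`. -/
def TrdegLE {F : Type u} [Field F] {m s : ℕ} (T : ℕ) (p : Fin s → MvPolynomial (Fin m) F) : Prop :=
  ∀ I : Finset (Fin s), AlgebraicIndependent F (fun t : I => p t) → I.card ≤ T

namespace OFormula

variable {F : Type u} [Field F] {n : ℕ}

/-- The polynomial computed by a formula. -/
noncomputable def toPoly : OFormula F n → MvPolynomial (Fin n) F
  | base g => g.toPoly
  | gate Φ A => bind₁ (fun j => (A j).toPoly) Φ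
  | prod A => ∏ j, (A j).toPoly
  | mix Ψ f A => bind₁ (fun j => (A j).toPoly) (bind₁ (fun t => (f t).toPoly) Ψ)

/-- The variables which occur in a formula. -/
noncomputable def vars : OFormula F n → Finset (Fin n)
  | base g => g.vars
  | gate _ A => Finset.univ.biUnion fun j => (A j).vars
  | prod A => Finset.univ.biUnion fun j => (A j).vars
  | mix _ _ A => Finset.univ.biUnion fun j => (A j).vars

/-- The admissible formulas: the arguments of a gate and of an overlap gate have disjoint
variables (those of a product need not); gates are affine or depend on at most `k + 1` arguments;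
in overlap gates the `f_t` are read-once with gates of at most `k + 1` arguments, and at most `T`
of them are algebraically independent. -/
def Valid (k c T : ℕ) : OFormula F n → Prop
  | base g => g.ReadOnce ∧ g.Admissible k c
  | gate Φ A => (Φ.totalDegree ≤ 1 ∨ Φ.vars.card ≤ k + 1) ∧ (∀ j, (A j).Valid k c T) ∧
      Pairwise fun j j' => Disjoint (A j).vars (A j').vars
  | prod A => ∀ j, (A j).Valid k c T
  | mix _ f A => (∀ t, (f t).ReadOnce ∧ SmallArity k (f t)) ∧ TrdegLE T (fun t => (f t).toPoly) ∧
      (∀ j, (A j).Valid k c T) ∧ Pairwise fun j j' => Disjoint (A j).vars (A j').vars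

/-- The maximal number of overlap gates on a path. -/
def overlapDepth : OFormula F n → ℕ
  | base _ => 0
  | gate _ A => Finset.univ.sup fun j => (A j).overlapDepth
  | prod A => Finset.univ.sup fun j => (A j).overlapDepth
  | mix _ _ A => (Finset.univ.sup fun j => (A j).overlapDepth) + 1

/-- The maximal number of gates on a path of a base formula which are not `k`-small. -/
noncomputable def bigDepth (k : ℕ) : OFormula F n → ℕ
  | base g => g.bigDepth k
  | gate _ A => Finset.univ.sup fun j => (A j).bigDepth k
  | prod A => Finset.univ.sup fun j => (A j).bigDepth k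
  | mix _ _ A => Finset.univ.sup fun j => (A j).bigDepth k

theorem vars_toPoly : ∀ f : OFormula F n, f.toPoly.vars ⊆ f.vars
  | base g => by
    rw [toPoly, vars]
    exact g.vars_toPoly
  | gate Φ A => by
    classical
    rw [toPoly, vars]
    refine (vars_bind₁ _ _).trans ?_
    intro i hi
    rw [Finset.mem_biUnion] at hi ⊢
    obtain ⟨j, _, hj⟩ := hi
    exact ⟨j, Finset.mem_univ _, vars_toPoly (A j) hj⟩
  | prod A => by
    classical
    rw [toPoly, vars]
    refine (vars_prod _).trans ?_
    intro i hi
    rw [Finset.mem_biUnion] at hi ⊢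
    obtain ⟨j, _, hj⟩ := hi
    exact ⟨j, Finset.mem_univ _, vars_toPoly (A j) hj⟩
  | mix Ψ f A => by
    classical
    rw [toPoly, vars]
    refine (vars_bind₁ _ _).trans ?_
    intro i hi
    rw [Finset.mem_biUnion] at hi ⊢
    obtain ⟨j, _, hj⟩ := hi
    exact ⟨j, Finset.mem_univ _, vars_toPoly (A j) hj⟩

theorem disjoint_toPoly {m : ℕ} {A : Fin m → OFormula F n}
    (h : Pairwise fun j j' => Disjoint (A j).vars (A j').vars) :
    Pairwise fun j j' => Disjoint (A j).toPoly.vars (A j').toPoly.vars := by
  intro j j' hjj
  exact Finset.disjoint_of_subset_left (vars_toPoly _)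
    (Finset.disjoint_of_subset_right (vars_toPoly _) (h hjj))

theorem arity_of_small {m k : ℕ} : ∀ f : RFormula F m, SmallArity k f → Arity k f
  | .leaf _ => fun h => h
  | .gate _ A => fun h => ⟨h.1, fun j => arity_of_small (A j) (h.2 j)⟩

/-- **the main theorem on formulas** -/
theorem nc [CharZero F] {k c T b : ℕ} (hk : 1 ≤ k) : ∀ f : OFormula F n, f.Valid k c T →
    f.bigDepth k ≤ b → f.toPoly.vars.Nonempty →
    NC (k + c * min (Nat.log 2 n) b + big k T ((T + 1) * (T + 1)) * f.overlapDepth) f.toPoly
  | base g => by
    intro hval hb hne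
    rw [overlapDepth, Nat.mul_zero, Nat.add_zero]
    rw [bigDepth] at hb
    rw [toPoly] at hne ⊢
    have hk0 : k ≠ 0 := by omega
    have h1 := RFormula.good_depth hk0 g hval.1 hval.2 hne
    have h2 := RFormula.good_log hk0 g hval.1 hval.2 hne
    have h3 : g.vars.card ≤ n := by
      have := Finset.card_le_univ g.vars
      simpa using this
    have h4 : k + c * Nat.log 2 g.vars.card ≤ k + c * Nat.log 2 n :=
      Nat.add_le_add_left (Nat.mul_le_mul_left c (Nat.log_mono_right h3)) k
    have h5 : k + c * g.bigDepth k ≤ k + c * b :=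
      Nat.add_le_add_left (Nat.mul_le_mul_left c hb) k
    rcases min_choice (Nat.log 2 n) b with h | h
    · rw [h]
      exact NC.of_good (good_mono h4 h2)
    · rw [h]
      exact NC.of_good (good_mono h5 h1)
  | gate Φ A => by
    intro hval hb hne
    rw [bigDepth] at hb
    rw [overlapDepth]
    rw [toPoly] at hne ⊢
    have ih : ∀ j, (A j).toPoly.vars.Nonempty → NC (k + c * min (Nat.log 2 n) b +
        big k T ((T + 1) * (T + 1)) * (Finset.univ.sup fun j => (A j).overlapDepth))
        (A j).toPoly := by
      intro j hj
      have h1 := nc hk (A j) (hval.2.1 j)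
        ((Finset.le_sup (f := fun j => (A j).bigDepth k) (Finset.mem_univ j)).trans hb) hj
      exact h1.mono (Nat.add_le_add_left (Nat.mul_le_mul_left _
        (Finset.le_sup (f := fun j => (A j).overlapDepth) (Finset.mem_univ j))) _)
    apply NC.gate' (by omega) Φ _ (disjoint_toPoly hval.2.2) ih _ hne
    rcases hval.1 with h | h
    · exact Or.inl h
    · exact Or.inr (by omega)
  | prod A => by
    intro hval hb hne
    rw [bigDepth] at hb
    rw [overlapDepth]
    rw [toPoly] at hne ⊢
    apply NC.prod Finset.univ _ _ hne
    intro j _ hj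
    have h1 := nc hk (A j) (hval j)
      ((Finset.le_sup (f := fun j => (A j).bigDepth k) (Finset.mem_univ j)).trans hb) hj
    exact h1.mono (Nat.add_le_add_left (Nat.mul_le_mul_left _
      (Finset.le_sup (f := fun j => (A j).overlapDepth) (Finset.mem_univ j))) _)
  | mix (s := s) Ψ f A => by
    intro hval hb hne
    rw [bigDepth] at hb
    rw [overlapDepth]
    rw [toPoly] at hne ⊢
    have ih : ∀ j, (A j).toPoly.vars.Nonempty → NC (k + c * min (Nat.log 2 n) b +
        big k T ((T + 1) * (T + 1)) * (Finset.univ.sup fun j => (A j).overlapDepth))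
        (A j).toPoly := by
      intro j hj
      have h1 := nc hk (A j) (hval.2.2.1 j)
        ((Finset.le_sup (f := fun j => (A j).bigDepth k) (Finset.mem_univ j)).trans hb) hj
      exact h1.mono (Nat.add_le_add_left (Nat.mul_le_mul_left _
        (Finset.le_sup (f := fun j => (A j).overlapDepth) (Finset.mem_univ j))) _)
    have h1 := NC.mix hk (K := k + c * min (Nat.log 2 n) b +
        big k T ((T + 1) * (T + 1)) * (Finset.univ.sup fun j => (A j).overlapDepth))
      (by omega) (fun j => (A j).toPoly) (disjoint_toPoly hval.2.2.2) ih s T f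
      (fun t => (hval.1 t).1) (fun t => arity_of_small _ (hval.1 t).2) hval.2.1 Ψ hne
    apply h1.mono
    rw [Nat.mul_add_one (big k T ((T + 1) * (T + 1)))]
    omega

end OFormula

end Pool.Agent.W2helper21.ROT
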