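import Pool.Agent.W2helper21.ROT.Field

/-!
# Stable coordinates of increasing chains
-/

namespace Pool.Agent.W2helper21.ROT

open MvPolynomial

/-- the indices `l + k - 1, …, l` -/
def U (l k : ℕ) : List ℕ := (List.range' l k).reverse

/-- the indices `l, …, l + k - 1` -/
def D (l k : ℕ) : List ℕ := List.range' l k

theorem U_zero (l : ℕ) : U l 0 = [] := rfl

theorem U_succ (l k : ℕ) : U l (k + 1) = (l + k) :: U l k := by
  unfold U
  rw [List.range'_concat]
  simp

theorem U_add (l m k : ℕ) : U l (m + k) = U (l + m) k ++ U l m := by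
  unfold U
  rw [← List.reverse_append, ← List.range'_append_1]

theorem D_add (l m k : ℕ) : D l (m + k) = D l m ++ D (l + m) k := by
  unfold D
  rw [← List.range'_append_1]

theorem mem_U {l k r : ℕ} : r ∈ U l k ↔ l ≤ r ∧ r < l + k := by
  unfold U
  rw [List.mem_reverse, List.mem_range'_1]

theorem mem_D {l k r : ℕ} : r ∈ D l k ↔ l ≤ r ∧ r < l + k := by
  unfold D
  rw [List.mem_range'_1]

section

variable {F : Type*} [Field F] {σ : Type*}

theorem dvd_aeval_sub {A : Type*} [CommRing A] [Algebra F A] (d : A) (f g : σ → A)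
    (h : ∀ j, d ∣ f j - g j) (Q : MvPolynomial σ F) : d ∣ aeval f Q - aeval g Q := by
  induction Q using MvPolynomial.induction_on with
  | C a => simp
  | add p q hp hq =>
    simp only [map_add]
    have := dvd_add hp hq
    convert this using 1
    ring
  | mul_X p i hp =>
    simp only [map_mul, aeval_X]
    have h1 : (aeval f) p * f i - (aeval g) p * g i =
        ((aeval f) p - (aeval g) p) * f i + (aeval g) p * (f i - g i) := by ring
    rw [h1]
    exact dvd_add (hp.mul_right _) ((h i).mul_left _)

theorem X_dvd_of_eval [Infinite F] (i : σ) (Q : MvPolynomial σ F)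
    (h : ∀ x : σ → F, x i = 0 → eval x Q = 0) : X i ∣ Q := by
  classical
  let g : σ → MvPolynomial σ F := fun j => if j = i then 0 else X j
  have h1 : aeval g Q = 0 := by
    apply MvPolynomial.funext
    intro x
    rw [map_zero]
    have h2 : eval x (aeval g Q) = eval (fun j => if j = i then 0 else x j) Q := by
      have h3 : (aeval x : MvPolynomial σ F →ₐ[F] F) (aeval g Q) =
          aeval (fun j => if j = i then (0 : F) else x j) Q := by
        rw [← AlgHom.comp_apply, comp_aeval]
        congr 2
        funext j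
        simp only [g]
        split_ifs <;> simp
      simpa [aeval_eq_eval] using h3
    rw [h2]
    apply h
    simp
  have h2 := dvd_aeval_sub (X i : MvPolynomial σ F) (X : σ → MvPolynomial σ F) g (by
    intro j
    simp only [g]
    split_ifs with hj
    · rw [hj, sub_zero]
    · rw [sub_self]
      exact dvd_zero _) Q
  rw [h1, sub_zero, aeval_X_left_apply] at h2
  exact h2

theorem not_X_dvd (i : σ) (Q : MvPolynomial σ F) (x : σ → F) (hx : x i = 0)
    (h : eval x Q ≠ 0) : ¬ X i ∣ Q := by
  rintro ⟨R, rfl⟩
  apply h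
  rw [map_mul, eval_X, hx, zero_mul]

theorem eval_bind {T : Type*} (f : T → MvPolynomial σ F) (Ψ : MvPolynomial T F) (x : σ → F) :
    eval x (bind₁ f Ψ) = eval (fun t => eval x (f t)) Ψ := by
  rw [← aeval_eq_eval, ← aeval_eq_eval]
  change (aeval x) (bind₁ f Ψ) = aeval (fun i => aeval x (f i)) Ψ
  rw [aeval_bind₁]

theorem eval_ch (γ : ℕ → MvPolynomial (Fin 2) F) (y : MvPolynomial ℕ F) (w : List ℕ)
    (x : ℕ → F) : eval x (ch γ X y w) = ch γ x (eval x y) w := by
  have := ch_hom γ (aeval x : MvPolynomial ℕ F →ₐ[F] F) X y w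
  simpa [aeval_eq_eval] using this

theorem eval_dy (γ : ℕ → MvPolynomial (Fin 2) F) (y : MvPolynomial ℕ F) (w : List ℕ)
    (x : ℕ → F) : eval x (dy γ X y w) = dy γ x (eval x y) w := by
  have := dy_hom γ (aeval x : MvPolynomial ℕ F →ₐ[F] F) X y w
  simpa [aeval_eq_eval] using this

theorem eval_dch (γ : ℕ → MvPolynomial (Fin 2) F) (j : ℕ) (y : MvPolynomial ℕ F) (w : List ℕ)
    (x : ℕ → F) : eval x (dch γ j X y w) = dch γ j x (eval x y) w := by
  have := dch_hom γ (aeval x : MvPolynomial ℕ F →ₐ[F] F) j X y w
  simpa [aeval_eq_eval] using this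

theorem eval_ev (g : MvPolynomial (Fin 2) F) (a b : MvPolynomial σ F) (x : σ → F) :
    eval x (ev g a b) = ev g (eval x a) (eval x b) := by
  have := ev_hom (aeval x : MvPolynomial σ F →ₐ[F] F) g a b
  simpa [aeval_eq_eval] using this

theorem minor_rows {T : Type*} (f : T → MvPolynomial σ F) {r : ℕ} (row : Fin r → T)
    (col : Fin r → σ) (h : minor f row col ≠ 0) : Function.Injective row := by
  intro a b hab
  by_contra hne
  apply h
  unfold minor
  apply Matrix.det_zero_of_row_eq hne
  funext j
  simp only [Matrix.of_apply, hab]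

theorem minor_col_zero {T : Type*} (f : T → MvPolynomial σ F) {r : ℕ} (row : Fin r → T)
    (col : Fin r → σ) (b : Fin r) (h : ∀ t, pderiv (col b) (f t) = 0) :
    minor f row col = 0 := by
  unfold minor
  apply Matrix.det_eq_zero_of_column_eq_zero b
  intro a
  simp only [Matrix.of_apply, h]

variable {T : Type*} [Fintype T]

theorem gstab [CharZero F] (γ : T → ℕ → MvPolynomial (Fin 2) F) (c : T → F) (l : ℕ)
    (nd : ∀ t j, 0 < j → j < Fintype.card T + 1 →
      ev (pderiv 1 (γ t (l + j))) (0 : F) (ch (γ t) 0 (c t) (U l j)) ≠ 0) :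
    ∃ i, l ≤ i ∧ i < l + (Fintype.card T + 1) ∧ ∀ Ψ : MvPolynomial T F,
      (∀ x : ℕ → F, x i = 0 →
        eval (fun t => ch (γ t) x (c t) (U l (Fintype.card T + 1))) Ψ = 0) →
      ∀ x : ℕ → F, eval (fun t => ch (γ t) x (c t) (U l (Fintype.card T + 1))) Ψ = 0 := by
  classical
  set N := Fintype.card T with hN
  let st : ℕ → T → MvPolynomial ℕ F := fun j t => ch (γ t) X (C (c t)) (U l j)
  have hst : ∀ j t x, eval x (st j t) = ch (γ t) x (c t) (U l j) := by
    intro j t x
    simp only [st]
    rw [eval_ch, eval_C]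
  have hpd : ∀ j t b, pderiv b (st j t) = dch (γ t) b X (C (c t)) (U l j) := by
    intro j t b
    simp only [st]
    rw [pderiv_ch, pderiv_C, mul_zero, add_zero]
  let P : ℕ → ℕ → Prop := fun r j => ∃ (row : Fin r → T) (col : Fin r → ℕ),
    minor (st j) row col ≠ 0
  have hP0 : P 0 0 := by
    refine ⟨Fin.elim0, Fin.elim0, ?_⟩
    unfold minor
    rw [Matrix.det_fin_zero]
    exact one_ne_zero
  have hPN : ∀ r j, P r j → r ≤ N := by
    rintro r j ⟨row, col, h⟩
    have := Fintype.card_le_of_injective row (minor_rows _ _ _ h)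
    simpa using this
  obtain ⟨j, hjN, hPj, hPj1⟩ : ∃ j, j ≤ N ∧ P j j ∧ ¬ P (j + 1) (j + 1) := by
    by_contra hcon
    push Not at hcon
    have : ∀ j, j ≤ N + 1 → P j j := by
      intro j
      induction j with
      | zero => intro _; exact hP0
      | succ j ih => intro hj; exact hcon j (by omega) (ih (by omega))
    have := hPN _ _ (this (N + 1) le_rfl)
    omega
  obtain ⟨row, col, hmin⟩ := hPj
  have hall : ∀ (row' : Fin (j + 1) → T) (col' : Fin (j + 1) → ℕ),
      minor (st (j + 1)) row' col' = 0 := by
    intro row' col'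
    by_contra h
    exact hPj1 ⟨row', col', h⟩
  have hcol : ∀ b, col b ≠ l + j := by
    intro b hb
    apply hmin
    apply minor_col_zero _ _ _ b
    intro t
    rw [hpd, hb]
    apply dch_not_mem
    rw [mem_U]
    omega
  have hM : minor (st (j + 1)) row col =
      (∏ a, ev (pderiv 1 (γ (row a) (l + j))) (X (l + j)) (st j (row a))) *
        minor (st j) row col := by
    unfold minor
    rw [← Matrix.det_mul_column]
    congr 1
    ext a b : 2
    simp only [Matrix.of_apply]
    rw [hpd, hpd, U_succ, dch, if_neg (fun h => hcol b h.symm), add_zero]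
  have hnd : ¬ X (l + j) ∣ minor (st (j + 1)) row col := by
    rw [hM]
    intro h
    rcases (X_prime (i := l + j)).dvd_or_dvd h with h | h
    · rw [(X_prime (i := l + j)).dvd_finsetProd_iff] at h
      obtain ⟨a, _, ha⟩ := h
      refine not_X_dvd (l + j) _ 0 rfl ?_ ha
      rw [eval_ev, eval_X, hst]
      have hj0 : 0 < j := lt_of_le_of_lt (Nat.zero_le _) a.2
      exact nd (row a) j hj0 (by omega)
    · obtain ⟨x, hx⟩ : ∃ x, eval x (minor (st j) row col) ≠ 0 := by
        by_contra hcon
        push Not at hcon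
        exact hmin (MvPolynomial.funext fun x => by rw [hcon x, map_zero])
      refine not_X_dvd (l + j) _ (Function.update x (l + j) 0) (by simp) ?_ h
      have : eval (Function.update x (l + j) 0) (minor (st j) row col) =
          eval x (minor (st j) row col) := by
        unfold minor
        rw [RingHom.map_det, RingHom.map_det]
        congr 1
        ext a b : 2
        simp only [RingHom.mapMatrix_apply, Matrix.map_apply, Matrix.of_apply]
        rw [hpd, eval_dch, eval_dch, eval_C, eval_C]
        apply dch_congr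
        intro r hr
        rw [mem_U] at hr
        rw [Function.update_of_ne (by omega)]
      rw [this]
      exact hx
  refine ⟨l + j, by omega, by omega, ?_⟩
  intro Ψ hΨ x
  let w' := U (l + (j + 1)) (N - j)
  have hU : U l (N + 1) = w' ++ U l (j + 1) := by
    rw [← U_add]
    congr 1
    omega
  let Ψx : MvPolynomial T F := bind₁ (fun t => ch (γ t) (fun r => C (x r)) (X t) w') Ψ
  have hΨx : ∀ y : T → F, eval y Ψx = eval (fun t => ch (γ t) x (y t) w') Ψ := by
    intro y
    simp only [Ψx]
    rw [eval_bind]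
    congr 2
    funext t
    have := ch_hom (γ t) (aeval y : MvPolynomial T F →ₐ[F] F) (fun r => C (x r)) (X t) w'
    simpa [aeval_eq_eval] using this
  have hdvd : X (l + j) ∣ bind₁ (st (j + 1)) Ψx := by
    apply X_dvd_of_eval
    intro x' hx'
    rw [eval_bind, hΨx]
    have h1 := hΨ (fun r => if r ≤ l + j then x' r else x r) (by simp [hx'])
    rw [← h1]
    congr 2
    funext t
    rw [hst, hU, ch_append]
    have e1 : ch (γ t) (fun r => if r ≤ l + j then x' r else x r) (c t) (U l (j + 1)) =
        ch (γ t) x' (c t) (U l (j + 1)) := by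
      apply ch_congr
      intro r hr
      rw [mem_U] at hr
      simp only [if_pos (show r ≤ l + j by omega)]
    rw [e1]
    apply ch_congr
    intro r hr
    rw [mem_U] at hr
    simp only [if_neg (show ¬ r ≤ l + j by omega)]
  have hzero := field_lemma (st (j + 1)) (l + j) row col hcol hall hnd Ψx hdvd
  have h2 : eval x (bind₁ (st (j + 1)) Ψx) = 0 := by rw [hzero, map_zero]
  rw [eval_bind, hΨx] at h2
  rw [← h2]
  congr 2
  funext t
  rw [hst, hU, ch_append]

end

end Pool.Agent.W2helper21.ROT
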