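import Pool.Agent.W2helper21.ROT.Mix

/-!
# Overlap gates with many arguments of bounded transcendence degree
-/

namespace Pool.Agent.W2helper21.ROT

open MvPolynomial
open Pool.Agent.W2helper21.ROG (RFormula eval_congr_vars Im Im_irred Im_single Im_mono zero_mem_Im
  NZ NZ_mono spec vars_spec aeval_spec)

section

variable {F : Type*} [Field F] {σ : Type*}

theorem trdeg_reduce {s T : ℕ} (p : Fin s → MvPolynomial σ F)
    (hT : ∀ I : Finset (Fin s), AlgebraicIndepOn F p (I : Set (Fin s)) → I.card ≤ T)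
    (Ψ : MvPolynomial (Fin s) F) (hne : bind₁ p Ψ ≠ 0) :
    ∃ (I : Finset (Fin s)) (Q : MvPolynomial (Fin s) F), I.card ≤ T ∧ Q.vars ⊆ I ∧
      bind₁ p Q ≠ 0 ∧ bind₁ p Ψ ∣ bind₁ p Q := by
  classical
  let S : Finset (Finset (Fin s)) := Finset.univ.filter fun I =>
    AlgebraicIndepOn F p (I : Set (Fin s))
  have hS : S.Nonempty := by
    refine ⟨∅, ?_⟩
    rw [Finset.mem_filter]
    refine ⟨Finset.mem_univ _, ?_⟩
    rw [Finset.coe_empty]
    have : IsEmpty ((∅ : Set (Fin s)) : Type) := Set.isEmpty_coe_sort.mpr rfl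
    change AlgebraicIndependent F _
    rw [algebraicIndependent_empty_type_iff]
    exact C_injective σ F
  obtain ⟨I, hI, hmax⟩ := Finset.exists_max_image S Finset.card hS
  rw [Finset.mem_filter] at hI
  have halg : ∀ t, IsAlgebraic (Algebra.adjoin F (p '' (I : Set (Fin s)))) (p t) := by
    intro t
    by_contra hcon
    by_cases ht : t ∈ I
    · apply hcon
      exact isAlgebraic_algebraMap (R := Algebra.adjoin F (p '' (I : Set (Fin s))))
        ⟨p t, Algebra.subset_adjoin ⟨t, ht, rfl⟩⟩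
    · have h1 : AlgebraicIndepOn F p (insert t (I : Set (Fin s))) := hI.2.insert hcon
      have h2 : insert t I ∈ S := by
        rw [Finset.mem_filter, Finset.coe_insert]
        exact ⟨Finset.mem_univ _, h1⟩
      have h3 := hmax _ h2
      rw [Finset.card_insert_of_notMem ht] at h3
      omega
  have hΨalg : IsAlgebraic (Algebra.adjoin F (p '' (I : Set (Fin s)))) (bind₁ p Ψ) := by
    apply IsAlgebraic.adjoin_of_forall_isAlgebraic (s := Set.range p)
    · rintro _ ⟨⟨t, rfl⟩, _⟩
      exact halg t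
    · have hmem : bind₁ p Ψ ∈ Algebra.adjoin F (Set.range p) := by
        rw [Algebra.adjoin_range_eq_range_aeval]
        exact ⟨Ψ, rfl⟩
      exact isAlgebraic_algebraMap (R := Algebra.adjoin F (Set.range p)) ⟨_, hmem⟩
  obtain ⟨r, hr0, hdvd⟩ := hΨalg.exists_nonzero_dvd (mem_nonZeroDivisors_of_ne_zero hne)
  obtain ⟨r, hr⟩ := r
  have hr' : r ∈ Algebra.adjoin F (Set.range fun i : (I : Set (Fin s)) => p i) := by
    rw [← Set.image_eq_range]
    exact hr
  rw [Algebra.adjoin_range_eq_range_aeval] at hr'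
  obtain ⟨Q0, hQ0⟩ := hr'
  have hQ : bind₁ p (rename Subtype.val Q0) = r := by
    rw [bind₁_rename]
    exact hQ0
  refine ⟨I, rename Subtype.val Q0, hT I hI.2, ?_, ?_, ?_⟩
  · intro i hi
    have := vars_rename _ _ hi
    rw [Finset.mem_image] at this
    obtain ⟨j, _, rfl⟩ := this
    exact j.2
  · rw [hQ]
    intro h0
    apply hr0
    exact Subtype.ext h0
  · rw [hQ]
    exact hdvd

theorem trdeg_reduce' {s T : ℕ} (hs : 0 < s) (p : Fin s → MvPolynomial σ F)
    (hT : ∀ I : Finset (Fin s), AlgebraicIndepOn F p (I : Set (Fin s)) → I.card ≤ T)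
    (Ψ : MvPolynomial (Fin s) F) (hne : bind₁ p Ψ ≠ 0) :
    ∃ (e : Fin T → Fin s) (Q : MvPolynomial (Fin T) F),
      bind₁ (fun t => p (e t)) Q ≠ 0 ∧ bind₁ p Ψ ∣ bind₁ (fun t => p (e t)) Q := by
  classical
  obtain ⟨I, Q, hI, hQv, hQne, hdvd⟩ := trdeg_reduce p hT Ψ hne
  obtain ⟨g⟩ : Nonempty (I ↪ Fin T) := by
    apply Function.Embedding.nonempty_of_card_le
    rw [Fintype.card_coe, Fintype.card_fin]
    exact hI
  let e : Fin T → Fin s := fun t => if h : ∃ i : I, g i = t then (Classical.choose h).1 else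
    ⟨0, hs⟩
  have he : ∀ i : I, e (g i) = i := by
    intro i
    have h : ∃ i' : I, g i' = g i := ⟨i, rfl⟩
    simp only [e]
    rw [dif_pos h]
    have := Classical.choose_spec h
    rw [g.injective this]
  have hTpos : ∀ i : Fin s, i ∈ Q.vars → 0 < T := by
    intro i hi
    have := g ⟨i, hQv hi⟩
    exact lt_of_le_of_lt (Nat.zero_le _) this.2
  let B : Fin s → MvPolynomial (Fin T) F := fun i => if h : i ∈ I then X (g ⟨i, h⟩) else 0
  have key : bind₁ (fun t => p (e t)) (bind₁ B Q) = bind₁ p Q := by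
    rw [bind₁_bind₁]
    apply MvPolynomial.hom_congr_vars
    · ext; simp
    · intro i hi _
      have hiI := hQv hi
      change bind₁ (fun i => bind₁ (fun t => p (e t)) (B i)) (X i) = bind₁ p (X i)
      rw [bind₁_X_right, bind₁_X_right]
      simp only [B]
      rw [dif_pos hiI, bind₁_X_right, he]
    · rfl
  exact ⟨e, bind₁ B Q, by rw [key]; exact hQne, by rw [key]; exact hdvd⟩

end

section

variable {F : Type*} [Field F] [CharZero F] {n m : ℕ}

omit [CharZero F] in
theorem NZ.of_dvd {K : ℕ} {P Q : MvPolynomial (Fin n) F} (h : P ∣ Q) (hQ : NZ K Q) : NZ K P := by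
  obtain ⟨u, hu, hne⟩ := hQ
  refine ⟨u, hu, fun h0 => hne ?_⟩
  obtain ⟨R, rfl⟩ := h
  rw [map_mul, h0, zero_mul]

theorem nz_mix' {k K : ℕ} (hk : 1 ≤ k) (hkK : k ≤ K) (A : Fin m → MvPolynomial (Fin n) F)
    (hdisj : Pairwise fun j j' => Disjoint (A j).vars (A j').vars) (s T : ℕ)
    (f : Fin s → RFormula F m) (hro : ∀ t, (f t).ReadOnce) (har : ∀ t, Arity k (f t))
    (hA : ∀ t, ∀ j ∈ (f t).vars, NC K (A j))
    (hT : ∀ I : Finset (Fin s), AlgebraicIndepOn F (fun t => (f t).toPoly) (I : Set (Fin s)) →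
      I.card ≤ T) (Ψ : MvPolynomial (Fin s) F)
    (hP : bind₁ (fun t => (f t).toPoly) Ψ ≠ 0) :
    NZ (K + big k T ((T + 1) * (T + 1))) (bind₁ A (bind₁ (fun t => (f t).toPoly) Ψ)) := by
  rcases Nat.eq_zero_or_pos s with rfl | hs
  · obtain ⟨c, rfl⟩ := C_surjective (Fin 0) Ψ
    refine ⟨0, zero_mem_Im n _, ?_⟩
    rw [bind₁_C_right, bind₁_C_right, eval_C]
    intro h
    rw [h, map_zero, map_zero] at hP
    exact hP rfl
  · obtain ⟨e, Q, hQ, hdvd⟩ := trdeg_reduce' hs _ hT Ψ hP
    have h1 := nz_mix hk hkK A hdisj T (fun t => f (e t)) (fun t => hro _) (fun t => har _)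
      (fun t => hA _) Q hQ
    exact NZ.of_dvd (map_dvd (bind₁ A) hdvd) h1

/-! ### Substitution of constants -/

/-- keep the variables in `S` and put `z j` for the others -/
noncomputable def sub (S : Finset (Fin m)) (z : Fin m → F) : RFormula F m → RFormula F m
  | .leaf p => .leaf (spec S z p)
  | .gate Φ A => .gate Φ fun j => sub S z (A j)

omit [CharZero F] in
theorem toPoly_sub (S : Finset (Fin m)) (z : Fin m → F) : ∀ f : RFormula F m,
    (sub S z f).toPoly = spec S z f.toPoly
  | .leaf p => by rw [sub, RFormula.toPoly, RFormula.toPoly]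
  | .gate Φ A => by
    rw [sub, RFormula.toPoly, RFormula.toPoly]
    rw [spec, bind₁_bind₁]
    congr 2
    funext j
    rw [toPoly_sub S z (A j)]
    rfl

omit [CharZero F] in
theorem vars_sub (S : Finset (Fin m)) (z : Fin m → F) : ∀ f : RFormula F m,
    ∀ i ∈ (sub S z f).vars, i ∈ f.vars ∧ i ∈ S
  | .leaf p => by
    intro i hi
    rw [sub, RFormula.vars] at hi
    rw [RFormula.vars]
    exact vars_spec S z p hi
  | .gate Φ A => by
    intro i hi
    rw [sub, RFormula.vars, Finset.mem_biUnion] at hi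
    obtain ⟨j, _, hj⟩ := hi
    obtain ⟨h1, h2⟩ := vars_sub S z (A j) i hj
    rw [RFormula.vars, Finset.mem_biUnion]
    exact ⟨⟨j, Finset.mem_univ _, h1⟩, h2⟩

omit [CharZero F] in
theorem readOnce_sub (S : Finset (Fin m)) (z : Fin m → F) : ∀ f : RFormula F m, f.ReadOnce →
    (sub S z f).ReadOnce
  | .leaf p => fun _ => by rw [sub]; trivial
  | .gate Φ A => fun h => by
    rw [sub]
    refine ⟨fun j => readOnce_sub S z (A j) (h.1 j), fun j j' hjj => ?_⟩
    exact Finset.disjoint_of_subset_left (fun i hi => (vars_sub S z (A j) i hi).1)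
      (Finset.disjoint_of_subset_right (fun i hi => (vars_sub S z (A j') i hi).1) (h.2 hjj))

omit [CharZero F] in
theorem arity_sub {k : ℕ} (S : Finset (Fin m)) (z : Fin m → F) : ∀ f : RFormula F m, Arity k f →
    Arity k (sub S z f)
  | .leaf p => fun h => by
    classical
    rw [sub]
    rcases h with ⟨i, rfl⟩ | ⟨c, rfl⟩
    · by_cases hi : i ∈ S
      · left
        refine ⟨i, ?_⟩
        rw [spec, bind₁_X_right, if_pos hi]
      · right
        refine ⟨z i, ?_⟩
        rw [spec, bind₁_X_right, if_neg hi]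
    · right
      exact ⟨c, by rw [spec, bind₁_C_right]⟩
  | .gate Φ A => fun h => by
    rw [sub]
    exact ⟨h.1, fun j => arity_sub S z (A j) (h.2 j)⟩

/-- **overlap gates** -/
theorem NC.mix {k K : ℕ} (hk : 1 ≤ k) (hkK : k ≤ K) (A : Fin m → MvPolynomial (Fin n) F)
    (hdisj : Pairwise fun j j' => Disjoint (A j).vars (A j').vars)
    (hA : ∀ j, (A j).vars.Nonempty → NC K (A j)) (s T : ℕ)
    (f : Fin s → RFormula F m) (hro : ∀ t, (f t).ReadOnce) (har : ∀ t, Arity k (f t))
    (hT : ∀ I : Finset (Fin s), AlgebraicIndepOn F (fun t => (f t).toPoly) (I : Set (Fin s)) →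
      I.card ≤ T) (Ψ : MvPolynomial (Fin s) F)
    (hne : (bind₁ A (bind₁ (fun t => (f t).toPoly) Ψ)).vars.Nonempty) :
    NC (K + big k T ((T + 1) * (T + 1))) (bind₁ A (bind₁ (fun t => (f t).toPoly) Ψ)) := by
  classical
  let S : Finset (Fin m) := Finset.univ.filter fun j => (A j).vars.Nonempty
  let z : Fin m → F := fun j => coeff 0 (A j)
  have hz : ∀ j ∉ S, A j = C (z j) := by
    intro j hj
    have : (A j).vars = ∅ := by
      rw [← Finset.not_nonempty_iff_eq_empty]
      intro h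
      exact hj (Finset.mem_filter.mpr ⟨Finset.mem_univ _, h⟩)
    rw [vars_eq_empty_iff_eq_C] at this
    exact this
  have hspec : ∀ Φ, bind₁ A (spec S z Φ) = bind₁ A Φ := fun Φ => aeval_spec S z Φ A hz
  have heq : ∀ Φ : MvPolynomial (Fin s) F,
      bind₁ A (bind₁ (fun t => (sub S z (f t)).toPoly) Φ) =
        bind₁ A (bind₁ (fun t => (f t).toPoly) Φ) := by
    intro Φ
    rw [bind₁_bind₁, bind₁_bind₁]
    congr 2
    funext t
    rw [toPoly_sub, hspec]
  set P := bind₁ A (bind₁ (fun t => (f t).toPoly) Ψ) with hP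
  apply NC.of_nz
  have h1 : P - C (eval 0 P) = bind₁ A (bind₁ (fun t => (sub S z (f t)).toPoly)
      (Ψ - C (eval 0 P))) := by
    rw [heq, map_sub, map_sub, bind₁_C_right, bind₁_C_right]
  rw [h1]
  apply nz_mix' hk hkK A hdisj s T (fun t => sub S z (f t)) (fun t => readOnce_sub S z _ (hro t))
    (fun t => arity_sub S z _ (har t))
  · intro t j hj
    exact hA j (Finset.mem_filter.mp (vars_sub S z _ j hj).2).2
  · intro I hI
    apply hT I
    have h2 : (fun t : (I : Set (Fin s)) => (sub S z (f t)).toPoly) =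
        (bind₁ (fun j => if j ∈ S then X j else C (z j)) : MvPolynomial (Fin m) F →ₐ[F] _) ∘
          fun t : (I : Set (Fin s)) => (f t).toPoly := by
      funext t
      rw [Function.comp_apply, toPoly_sub]
      rfl
    change AlgebraicIndependent F (fun t : (I : Set (Fin s)) => (sub S z (f t)).toPoly) at hI
    rw [h2] at hI
    exact hI.of_comp
  · intro h0
    rw [h0, map_zero] at h1
    have h2 : P = C (eval 0 P) := sub_eq_zero.mp h1
    rw [h2, vars_C] at hne
    exact Finset.not_nonempty_empty hne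

end

end Pool.Agent.W2helper21.ROT
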