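import Pool.Agent.W2helper21.ROT.MainD
import Pool.Agent.W2helper21.ROG.RO

/-!
# Caterpillars in read-once formulas
-/

namespace Pool.Agent.W2helper21.ROT

open MvPolynomial
open Pool.Agent.W2helper21.ROG (RFormula eval_congr_vars)

section

variable {F : Type*} [Field F] {ι : Type*}

/-- the value of a chain with labelled steps -/
noncomputable def lch (x : ι → F) (c : F) : List (ι × MvPolynomial (Fin 2) F) → F
  | [] => c
  | p :: L => ev p.2 (x p.1) (lch x c L)

theorem lch_congr {x x' : ι → F} (c : F) : ∀ L : List (ι × MvPolynomial (Fin 2) F),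
    (∀ i ∈ L.map Prod.fst, x i = x' i) → lch x c L = lch x' c L
  | [], _ => rfl
  | p :: L, h => by
    rw [lch, lch, lch_congr c L (fun i hi => h i (by simp only [List.map_cons, List.mem_cons]; exact Or.inr hi)),
      h p.1 (by simp only [List.map_cons, List.mem_cons, true_or])]

theorem ev_post (g : MvPolynomial (Fin 2) F) (φ : Polynomial F) (x y : F) :
    ev (Polynomial.aeval g φ) x y = φ.eval (ev g x y) := by
  unfold ev
  rw [← Polynomial.aeval_algHom_apply, Polynomial.aeval_def, Polynomial.eval₂_eq_eval_map,
    Algebra.algebraMap_self, Polynomial.map_id]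

theorem lch_post (φ : Polynomial F) (c : F) : ∀ L : List (ι × MvPolynomial (Fin 2) F),
    ∃ (L' : List (ι × MvPolynomial (Fin 2) F)) (c' : F), L'.map Prod.fst = L.map Prod.fst ∧
      ∀ x : ι → F, φ.eval (lch x c L) = lch x c' L'
  | [] => ⟨[], φ.eval c, rfl, fun _ => rfl⟩
  | p :: L => ⟨(p.1, Polynomial.aeval p.2 φ) :: L, c, rfl, fun x => by
      rw [lch, lch, ev_post]⟩

/-- `p` is a chain in the variables `l` (outermost first), for every choice of the values of the
other variables. -/
def Cat (p : MvPolynomial ι F) (l : List ι) : Prop :=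
  ∀ b : ι → F, ∃ (L : List (ι × MvPolynomial (Fin 2) F)) (c : F), L.map Prod.fst = l ∧
    ∀ x : ι → F, (∀ i, i ∉ l → x i = b i) → eval x p = lch x c L

/-- the univariate polynomial `g(b_0, ·)` -/
noncomputable def line1 (g : MvPolynomial (Fin 2) F) (b : F) : Polynomial F :=
  aeval ![Polynomial.C b, Polynomial.X] g

theorem eval_line1 (g : MvPolynomial (Fin 2) F) (b y : F) : (line1 g b).eval y = ev g b y := by
  unfold line1 ev
  have : (Polynomial.aeval y : Polynomial F →ₐ[F] F) (aeval ![Polynomial.C b, Polynomial.X] g) =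
      aeval ![b, y] g := by
    rw [← AlgHom.comp_apply, comp_aeval]
    congr 2
    funext i
    fin_cases i
    · simp
    · simp
  rw [← this, Polynomial.aeval_def, Polynomial.eval₂_eq_eval_map, Algebra.algebraMap_self,
    Polynomial.map_id]

theorem lch_sublist [DecidableEq ι] (b : ι → F) (c : F) :
    ∀ (L : List (ι × MvPolynomial (Fin 2) F)) (l' : List ι), (L.map Prod.fst).Nodup →
    l'.Sublist (L.map Prod.fst) →
    ∃ (L' : List (ι × MvPolynomial (Fin 2) F)) (c' : F), L'.map Prod.fst = l' ∧
      ∀ x : ι → F, (∀ i ∈ L.map Prod.fst, i ∉ l' → x i = b i) → lch x c L = lch x c' L'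
  | [], l', _, hs => by
    rw [List.map_nil, List.sublist_nil] at hs
    exact ⟨[], c, by rw [hs, List.map_nil], fun _ _ => rfl⟩
  | p :: L, l', hn, hs => by
    rw [List.map_cons] at hn hs
    rw [List.nodup_cons] at hn
    rw [List.sublist_cons_iff] at hs
    rcases hs with hs | ⟨l'', rfl, hs⟩
    · obtain ⟨L1, c1, h1, h2⟩ := lch_sublist b c L l' hn.2 hs
      obtain ⟨L2, c2, h3, h4⟩ := lch_post (line1 p.2 (b p.1)) c1 L1
      refine ⟨L2, c2, h3.trans h1, fun x hx => ?_⟩
      rw [lch, ← h4, eval_line1, h2 x (fun i hi hi' => hx i (by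
        simp only [List.map_cons, List.mem_cons]; exact Or.inr hi) hi'),
        hx p.1 (by simp only [List.map_cons, List.mem_cons, true_or])
          (fun hmem => hn.1 (hs.subset hmem))]
    · obtain ⟨L1, c1, h1, h2⟩ := lch_sublist b c L l'' hn.2 hs
      refine ⟨p :: L1, c1, by rw [List.map_cons, h1], fun x hx => ?_⟩
      rw [lch, lch, h2 x]
      intro i hi hi'
      refine hx i (by simp only [List.map_cons, List.mem_cons]; exact Or.inr hi) ?_
      rw [List.mem_cons, not_or]
      exact ⟨fun h => hn.1 (h ▸ hi), hi'⟩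

theorem Cat.sublist {p : MvPolynomial ι F} {l l' : List ι} (h : Cat p l) (hn : l.Nodup)
    (hs : l'.Sublist l) : Cat p l' := by
  classical
  intro b
  obtain ⟨L, c, rfl, h2⟩ := h b
  obtain ⟨L', c', h3, h4⟩ := lch_sublist b c L l' hn hs
  refine ⟨L', c', h3, fun x hx => ?_⟩
  rw [h2 x (fun i hi => hx i (fun hi' => hi (hs.subset hi')))]
  exact h4 x (fun i _ hi => hx i hi)

/-- weaker condition -/
theorem Cat.weak {p : MvPolynomial ι F} {l : List ι} (h : Cat p l) (b : ι → F) :
    ∃ (L : List (ι × MvPolynomial (Fin 2) F)) (c : F), L.map Prod.fst = l ∧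
    ∀ x : ι → F, (∀ i ∈ p.vars, i ∉ l → x i = b i) → eval x p = lch x c L := by
  classical
  obtain ⟨L, c, h1, h2⟩ := h b
  refine ⟨L, c, h1, fun x hx => ?_⟩
  have h3 := h2 (fun i => if i ∈ l then x i else b i) (fun i hi => by simp only [if_neg hi])
  have h4 : eval x p = eval (fun i => if i ∈ l then x i else b i) p := by
    apply eval_congr_vars
    intro i hi
    by_cases hl : i ∈ l
    · simp only [if_pos hl]
    · simp only [if_neg hl]
      exact hx i hi hl
  rw [h4, h3]
  apply lch_congr
  intro i hi
  rw [h1] at hi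
  simp only [if_pos hi]

theorem cat_single [DecidableEq ι] (p : MvPolynomial ι F) (i : ι) : Cat p [i] := by
  intro b
  refine ⟨[(i, aeval (fun s => if s = i then (X 0 : MvPolynomial (Fin 2) F) else C (b s)) p)], 0,
    rfl, fun x hx => ?_⟩
  rw [lch, lch]
  unfold ev
  rw [← AlgHom.comp_apply, comp_aeval, ← aeval_eq_eval]
  congr 2
  funext s
  by_cases hs : s = i
  · subst hs
    simp
  · simp only [if_neg hs]
    rw [hx s (by simpa using hs)]
    simp

/-- chains inside one argument of a gate -/
theorem cat_gate_self {M : ℕ} (Φ : MvPolynomial (Fin M) F) (A : Fin M → MvPolynomial ι F)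
    (hdisj : Pairwise fun j j' => Disjoint (A j).vars (A j').vars) (j : Fin M) (l : List ι)
    (hl : ∀ i ∈ l, i ∈ (A j).vars) (h : Cat (A j) l) : Cat (bind₁ A Φ) l := by
  classical
  intro b
  obtain ⟨L, c, h1, h2⟩ := h.weak b
  let φ : Polynomial F := aeval (fun m => if m = j then Polynomial.X else
    Polynomial.C (eval b (A m))) Φ
  obtain ⟨L', c', h3, h4⟩ := lch_post φ c L
  refine ⟨L', c', h3.trans h1, fun x hx => ?_⟩
  rw [← h4, ← h2 x (fun i _ hi => hx i hi), eval_bind]
  have h5 : φ.eval (eval x (A j)) = aeval (fun m => if m = j then eval x (A j) else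
      eval b (A m)) Φ := by
    have : (Polynomial.aeval (eval x (A j)) : Polynomial F →ₐ[F] F) φ =
        aeval (fun m => if m = j then eval x (A j) else eval b (A m)) Φ := by
      simp only [φ]
      rw [← AlgHom.comp_apply, comp_aeval]
      congr 2
      funext m
      split_ifs <;> simp
    rw [← this, Polynomial.aeval_def, Polynomial.eval₂_eq_eval_map, Algebra.algebraMap_self,
      Polynomial.map_id]
  rw [h5, aeval_eq_eval]
  congr 2
  funext m
  by_cases hm : m = j
  · rw [if_pos hm, hm]
  · rw [if_neg hm]
    apply eval_congr_vars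
    intro i hi
    apply hx
    intro hil
    exact Finset.disjoint_left.mp (hdisj hm) hi (hl i hil)

/-- a new outermost variable from another argument of a gate -/
theorem cat_gate_cons {M : ℕ} (Φ : MvPolynomial (Fin M) F) (A : Fin M → MvPolynomial ι F)
    (hdisj : Pairwise fun j j' => Disjoint (A j).vars (A j').vars) (j : Fin M) (l : List ι)
    (hl : ∀ i ∈ l, i ∈ (A j).vars) (h : Cat (A j) l) (i0 : ι) (hi0 : i0 ∉ (A j).vars) :
    Cat (bind₁ A Φ) (i0 :: l) := by
  classical
  intro b
  obtain ⟨L, c, h1, h2⟩ := h.weak b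
  let g : MvPolynomial (Fin 2) F := aeval (fun m => if m = j then (X 1 : MvPolynomial (Fin 2) F)
    else aeval (fun s => if s = i0 then (X 0 : MvPolynomial (Fin 2) F) else C (b s)) (A m)) Φ
  refine ⟨(i0, g) :: L, c, by rw [List.map_cons, h1], fun x hx => ?_⟩
  have hj : eval x (A j) = lch x c L := by
    apply h2 x
    intro i hi hil
    apply hx
    rw [List.mem_cons, not_or]
    exact ⟨fun h => hi0 (h ▸ hi), hil⟩
  rw [lch, ← hj, eval_bind]
  simp only [g, ev]
  rw [← AlgHom.comp_apply, comp_aeval, ← aeval_eq_eval]
  congr 2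
  funext m
  by_cases hm : m = j
  · simp only [if_pos hm, aeval_X]
    rw [hm]
    rfl
  · simp only [if_neg hm]
    rw [← AlgHom.comp_apply, comp_aeval, aeval_eq_eval]
    apply eval_congr_vars
    intro i hi
    by_cases hii : i = i0
    · subst hii
      simp
    · simp only [if_neg hii]
      rw [hx i]
      · simp
      · rw [List.mem_cons, not_or]
        exact ⟨hii, fun hil => Finset.disjoint_left.mp (hdisj hm) hi (hl i hil)⟩

end

section

variable {F : Type*} [Field F] {n : ℕ}

/-- Leaves are variables and constants, and every gate depends on at most `k + 1` of its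
arguments. -/
def Arity (k : ℕ) : RFormula F n → Prop
  | .leaf p => (∃ i, p = X i) ∨ ∃ c, p = C c
  | .gate Φ A => Φ.vars.card ≤ k + 1 ∧ ∀ j, Arity k (A j)

theorem tree {k : ℕ} (hk : 1 ≤ k) : ∀ (f : RFormula F n), f.ReadOnce → Arity k f → ∀ (m : ℕ)
    (J : Finset (Fin n)), J ⊆ f.toPoly.vars → (k + 1) ^ m ≤ J.card →
    ∃ l : List (Fin n), l.Nodup ∧ l.length = m + 1 ∧ (∀ i ∈ l, i ∈ J) ∧ Cat f.toPoly l
  | .leaf p => by
    intro _ har m J hJ hm
    have hpos : 0 < (k + 1) ^ m := by positivity
    rcases har with ⟨i, hi⟩ | ⟨c, hc⟩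
    · have hv : (RFormula.leaf p : RFormula F n).toPoly.vars = {i} := by
        rw [RFormula.toPoly, hi, vars_X]
      rw [hv] at hJ
      have h1 : J.card ≤ 1 := by simpa using Finset.card_le_card hJ
      have h2 : J.Nonempty := by
        rw [← Finset.card_pos]; omega
      obtain ⟨s, hs⟩ := h2
      refine ⟨[s], List.nodup_singleton s, ?_, ?_, cat_single _ _⟩
      · have : (k + 1) ^ m ≤ 1 := hm.trans h1
        have : m = 0 := by
          by_contra hm0
          have h3 : 2 ^ m ≤ (k + 1) ^ m := Nat.pow_le_pow_left (by omega) m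
          have h4 : 2 ≤ 2 ^ m := by
            calc 2 = 2 ^ 1 := rfl
              _ ≤ 2 ^ m := Nat.pow_le_pow_right (by omega) (by omega)
          omega
        rw [this]; rfl
      · intro i' hi'
        rw [List.mem_singleton] at hi'
        rw [hi']
        exact hs
    · exfalso
      have hv : (RFormula.leaf p : RFormula F n).toPoly.vars = ∅ := by
        rw [RFormula.toPoly, hc, vars_C]
      rw [hv, Finset.subset_empty] at hJ
      rw [hJ, Finset.card_empty] at hm
      omega
  | .gate Φ A => by
    classical
    intro hro har m J hJ hm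
    have hpos : 0 < (k + 1) ^ m := by positivity
    have hdisj := RFormula.disjoint_toPoly hro.2
    have hsub : J ⊆ Φ.vars.biUnion fun j => J ∩ (A j).toPoly.vars := by
      intro i hi
      have h1 := hJ hi
      rw [RFormula.toPoly] at h1
      have h2 := vars_bind₁ _ _ h1
      rw [Finset.mem_biUnion] at h2 ⊢
      obtain ⟨j, hj, hij⟩ := h2
      exact ⟨j, hj, Finset.mem_inter.mpr ⟨hi, hij⟩⟩
    cases m with
    | zero =>
      have h2 : J.Nonempty := by
        rw [← Finset.card_pos]; omega
      obtain ⟨s, hs⟩ := h2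
      refine ⟨[s], List.nodup_singleton s, rfl, ?_, cat_single _ _⟩
      intro i' hi'
      rw [List.mem_singleton] at hi'
      rw [hi']
      exact hs
    | succ m =>
      have hpos' : 0 < (k + 1) ^ m := by positivity
      obtain ⟨j, hj, hjc⟩ : ∃ j ∈ Φ.vars, (k + 1) ^ m ≤ (J ∩ (A j).toPoly.vars).card := by
        by_contra hcon
        push Not at hcon
        have h1 := Finset.card_biUnion_le_card_mul Φ.vars (fun j => J ∩ (A j).toPoly.vars)
          ((k + 1) ^ m - 1) (fun j hj => by have := hcon j hj; omega)
        have h2 := (Finset.card_le_card hsub).trans h1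
        have h3 : Φ.vars.card * ((k + 1) ^ m - 1) ≤ (k + 1) * ((k + 1) ^ m - 1) :=
          Nat.mul_le_mul_right _ har.1
        have h4 : (k + 1) * ((k + 1) ^ m - 1) < (k + 1) * (k + 1) ^ m :=
          Nat.mul_lt_mul_of_pos_left (by omega) (by omega)
        rw [pow_succ, mul_comm] at hm
        omega
      by_cases hout : ∃ i0 ∈ J, i0 ∉ (A j).toPoly.vars
      · obtain ⟨i0, hi0, hi0'⟩ := hout
        obtain ⟨l, hl1, hl2, hl3, hl4⟩ := tree hk (A j) (hro.1 j) (har.2 j) m
          (J ∩ (A j).toPoly.vars) Finset.inter_subset_right hjc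
        have hlv : ∀ i ∈ l, i ∈ (A j).toPoly.vars := fun i hi =>
          (Finset.mem_inter.mp (hl3 i hi)).2
        refine ⟨i0 :: l, ?_, by rw [List.length_cons, hl2], ?_, ?_⟩
        · rw [List.nodup_cons]
          exact ⟨fun h => hi0' (hlv i0 h), hl1⟩
        · intro i hi
          rw [List.mem_cons] at hi
          rcases hi with rfl | hi
          · exact hi0
          · exact (Finset.mem_inter.mp (hl3 i hi)).1
        · rw [RFormula.toPoly]
          exact cat_gate_cons Φ (fun j => (A j).toPoly) hdisj j l hlv hl4 i0 hi0'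
      · push Not at hout
        obtain ⟨l, hl1, hl2, hl3, hl4⟩ := tree hk (A j) (hro.1 j) (har.2 j) (m + 1) J
          hout hm
        refine ⟨l, hl1, hl2, hl3, ?_⟩
        rw [RFormula.toPoly]
        exact cat_gate_self Φ (fun j => (A j).toPoly) hdisj j l (fun i hi => hout i (hl3 i hi)) hl4

end

/-! ### Monotone sublists -/

section

variable {α : Type*}

/-- a weak form of the theorem of Erdős and Szekeres -/
theorem es (pos : α → ℕ) : ∀ (a b : ℕ) (l : List α), (l.map pos).Nodup → 2 ^ (a + b) ≤ l.length →
    (∃ l' : List α, l'.Sublist l ∧ l'.length = a ∧ l'.Pairwise fun i j => pos i < pos j) ∨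
    (∃ l' : List α, l'.Sublist l ∧ l'.length = b ∧ l'.Pairwise fun i j => pos j < pos i) := by
  intro a
  induction a with
  | zero =>
    intro b l _ _
    exact Or.inl ⟨[], List.nil_sublist l, rfl, List.Pairwise.nil⟩
  | succ a iha =>
    intro b
    induction b with
    | zero =>
      intro l _ _
      exact Or.inr ⟨[], List.nil_sublist l, rfl, List.Pairwise.nil⟩
    | succ b ihb =>
      intro l hn hl
      cases l with
      | nil =>
        rw [List.length_nil] at hl
        have : 0 < 2 ^ (a + 1 + (b + 1)) := by positivity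
        omega
      | cons i l =>
        rw [List.map_cons, List.nodup_cons] at hn
        have hlen : l.length = (l.filter fun j => pos i < pos j).length +
            (l.filter fun j => ¬ pos i < pos j).length := by
          have := List.length_eq_length_filter_add (l := l) fun j => decide (pos i < pos j)
          simp only [decide_not]
          exact this
        rw [List.length_cons] at hl
        have hp : 2 ^ (a + 1 + (b + 1)) = 2 ^ (a + (b + 1)) + 2 ^ (a + 1 + b) := by
          rw [show a + 1 + (b + 1) = (a + (b + 1)) + 1 by ring, pow_succ,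
            show a + 1 + b = a + (b + 1) by ring]
          ring
        have hor : 2 ^ (a + (b + 1)) ≤ (l.filter fun j => pos i < pos j).length ∨
            2 ^ (a + 1 + b) ≤ (l.filter fun j => ¬ pos i < pos j).length := by
          have h1 : 0 < 2 ^ (a + (b + 1)) := by positivity
          have h2 : 0 < 2 ^ (a + 1 + b) := by positivity
          omega
        rcases hor with h | h
        · have hsub : (l.filter fun j => pos i < pos j).Sublist l := List.filter_sublist
          rcases iha (b + 1) _ (hn.2.sublist (hsub.map pos)) h with ⟨l', h1, h2, h3⟩ | ⟨l', h1, h2, h3⟩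
          · left
            refine ⟨i :: l', (h1.trans hsub).cons_cons i, by rw [List.length_cons, h2], ?_⟩
            rw [List.pairwise_cons]
            refine ⟨fun j hj => ?_, h3⟩
            have := h1.subset hj
            rw [List.mem_filter] at this
            simpa using this.2
          · right
            exact ⟨l', (h1.trans hsub).trans (List.sublist_cons_self i l), h2, h3⟩
        · have hsub : (l.filter fun j => ¬ pos i < pos j).Sublist l := List.filter_sublist
          rcases ihb _ (hn.2.sublist (hsub.map pos)) h with ⟨l', h1, h2, h3⟩ | ⟨l', h1, h2, h3⟩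
          · left
            exact ⟨l', (h1.trans hsub).trans (List.sublist_cons_self i l), h2, h3⟩
          · right
            refine ⟨i :: l', (h1.trans hsub).cons_cons i, by rw [List.length_cons, h2], ?_⟩
            rw [List.pairwise_cons]
            refine ⟨fun j hj => ?_, h3⟩
            have h4 := h1.subset hj
            have h5 := hsub.subset h4
            rw [List.mem_filter] at h4
            have h6 : ¬ pos i < pos j := by simpa using h4.2
            have h7 : pos i ≠ pos j := by
              intro heq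
              apply hn.1
              rw [heq]
              exact List.mem_map_of_mem h5
            omega

theorem sublist_of_pos [DecidableEq α] (J l : List α) (hJ : J.Nodup) (hsub : ∀ i ∈ l, i ∈ J)
    (h : l.Pairwise fun i j => J.idxOf i < J.idxOf j) : l.Sublist J := by
  have hl : l.Nodup := h.imp (fun {a b} hab heq => by
    rw [heq] at hab; exact lt_irrefl _ hab)
  have hJp : J.Pairwise fun i j => J.idxOf i < J.idxOf j := by
    rw [List.pairwise_iff_getElem]
    intro i j hi hj hij
    rw [hJ.idxOf_getElem, hJ.idxOf_getElem]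
    exact hij
  have : Std.Antisymm fun i j : α => J.idxOf i < J.idxOf j := ⟨fun a b h1 h2 => by omega⟩
  exact List.sublist_of_subperm_of_pairwise (hl.subperm hsub) h hJp

end

section

variable {F : Type*} [Field F] {n : ℕ}

/-- `f` is a chain in the variables of `J`, in this order or the reverse one, or does not depend
on them -/
def Fits (f : RFormula F n) (J : List (Fin n)) : Prop :=
  ((Cat f.toPoly J ∨ Cat f.toPoly J.reverse) ∧ ∀ i ∈ J, i ∈ f.toPoly.vars) ∨
    ∀ i ∈ J, i ∉ f.toPoly.vars

theorem Fits.sublist {f : RFormula F n} {J J' : List (Fin n)} (h : Fits f J) (hn : J.Nodup)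
    (hs : J'.Sublist J) : Fits f J' := by
  rcases h with ⟨h | h, hv⟩ | h
  · exact Or.inl ⟨Or.inl (h.sublist hn hs), fun i hi => hv i (hs.subset hi)⟩
  · exact Or.inl ⟨Or.inr (h.sublist (List.nodup_reverse.mpr hn) hs.reverse),
      fun i hi => hv i (hs.subset hi)⟩
  · exact Or.inr fun i hi => h i (hs.subset hi)

theorem one_step {k : ℕ} (hk : 1 ≤ k) (f : RFormula F n) (hro : f.ReadOnce) (har : Arity k f)
    (s : ℕ) (J : List (Fin n)) (hn : J.Nodup) (hJ : 2 * (k + 1) ^ 2 ^ (s + s) ≤ J.length) :
    ∃ J' : List (Fin n), J'.Sublist J ∧ J'.length = s ∧ Fits f J' := by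
  classical
  have hlen : J.length = (J.filter fun i => i ∈ f.toPoly.vars).length +
      (J.filter fun i => ¬ i ∈ f.toPoly.vars).length := by
    have := List.length_eq_length_filter_add (l := J) fun i => decide (i ∈ f.toPoly.vars)
    simp only [decide_not]
    exact this
  have hor : (k + 1) ^ 2 ^ (s + s) ≤ (J.filter fun i => i ∈ f.toPoly.vars).length ∨
      (k + 1) ^ 2 ^ (s + s) ≤ (J.filter fun i => ¬ i ∈ f.toPoly.vars).length := by
    omega
  rcases hor with h | h
  · have hn1 : (J.filter fun i => i ∈ f.toPoly.vars).Nodup := hn.filter _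
    obtain ⟨l, hl1, hl2, hl3, hl4⟩ := tree hk f hro har (2 ^ (s + s))
      (J.filter fun i => i ∈ f.toPoly.vars).toFinset (by
        intro i hi
        rw [List.mem_toFinset, List.mem_filter] at hi
        simpa using hi.2) (by rw [List.toFinset_card_of_nodup hn1]; exact h)
    have hlJ : ∀ i ∈ l, i ∈ J := by
      intro i hi
      have := hl3 i hi
      rw [List.mem_toFinset, List.mem_filter] at this
      exact this.1
    have hlv : ∀ i ∈ l, i ∈ f.toPoly.vars := by
      intro i hi
      have := hl3 i hi
      rw [List.mem_toFinset, List.mem_filter] at this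
      simpa using this.2
    have hpos : (l.map fun i => J.idxOf i).Nodup := by
      apply List.Nodup.map_on _ hl1
      intro i hi j hj hij
      exact (List.idxOf_inj (hlJ i hi)).mp hij
    rcases es (fun i => J.idxOf i) s s l hpos (by omega) with ⟨l', h1, h2, h3⟩ | ⟨l', h1, h2, h3⟩
    · exact ⟨l', sublist_of_pos J l' hn (fun i hi => hlJ i (h1.subset hi)) h3, h2,
        Or.inl ⟨Or.inl (hl4.sublist hl1 h1), fun i hi => hlv i (h1.subset hi)⟩⟩
    · refine ⟨l'.reverse, sublist_of_pos J l'.reverse hn (fun i hi =>
        hlJ i (h1.subset (List.mem_reverse.mp hi))) (List.pairwise_reverse.mpr h3),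
        by rw [List.length_reverse, h2], Or.inl ⟨Or.inr ?_, fun i hi =>
          hlv i (h1.subset (List.mem_reverse.mp hi))⟩⟩
      rw [List.reverse_reverse]
      exact hl4.sublist hl1 h1
  · have hs : s ≤ (J.filter fun i => ¬ i ∈ f.toPoly.vars).length := by
      refine le_trans ?_ h
      have h1 : s < 2 ^ (s + s) := lt_of_lt_of_le (Nat.lt_two_pow_self)
        (Nat.pow_le_pow_right (by norm_num) (Nat.le_add_right s s))
      have h2 : 2 ^ (s + s) < (k + 1) ^ 2 ^ (s + s) :=
        Nat.lt_pow_self (by omega)
      omega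
    refine ⟨(J.filter fun i => ¬ i ∈ f.toPoly.vars).take s,
      (List.take_sublist _ _).trans List.filter_sublist, ?_, Or.inr ?_⟩
    · rw [List.length_take, min_eq_left hs]
    · intro i hi
      have h1 := (List.take_sublist _ _).subset hi
      rw [List.mem_filter] at h1
      simpa using h1.2

/-- the number of variables needed, a recursive function -/
def big (k : ℕ) : ℕ → ℕ → ℕ
  | 0, s => s
  | T + 1, s => big k T (2 * (k + 1) ^ 2 ^ (s + s))

theorem all_steps {k : ℕ} (hk : 1 ≤ k) : ∀ (T : ℕ) (f : Fin T → RFormula F n),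
    (∀ t, (f t).ReadOnce) → (∀ t, Arity k (f t)) → ∀ (s : ℕ) (J : List (Fin n)), J.Nodup →
    big k T s ≤ J.length →
    ∃ J' : List (Fin n), J'.Sublist J ∧ J'.length = s ∧ ∀ t, Fits (f t) J' := by
  intro T
  induction T with
  | zero =>
    intro f _ _ s J _ hJ
    rw [big] at hJ
    exact ⟨J.take s, List.take_sublist _ _, by rw [List.length_take, min_eq_left hJ],
      fun t => t.elim0⟩
  | succ T ih =>
    intro f hro har s J hn hJ
    rw [big] at hJ
    obtain ⟨J1, h1, h2, h3⟩ := ih (fun t => f t.castSucc) (fun t => hro _) (fun t => har _) _ J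
      hn hJ
    obtain ⟨J2, h4, h5, h6⟩ := one_step hk (f (Fin.last T)) (hro _) (har _) s J1
      (hn.sublist h1) (by rw [h2])
    refine ⟨J2, h4.trans h1, h5, fun t => ?_⟩
    refine Fin.lastCases ?_ (fun t => ?_) t
    · exact h6
    · exact (h3 t).sublist (hn.sublist h1) h4

end

end Pool.Agent.W2helper21.ROT
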