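import Mathlib

/-!
# Chains of bivariate polynomials

`ch γ x y w`: the value of the chain of the steps `γ r (x r, ·)`, `r ∈ w` (outermost step first),
applied to `y`. Its derivatives with respect to a variable and to the bottom value.
-/

namespace Pool.Agent.W2helper21.ROT

open MvPolynomial

universe u v

section

variable {F : Type u} [Field F]

/-- the value of a bivariate polynomial in an algebra -/
noncomputable def ev {A : Type v} [CommRing A] [Algebra F A] (g : MvPolynomial (Fin 2) F)
    (x y : A) : A := aeval ![x, y] g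

theorem ev_hom {A B : Type*} [CommRing A] [Algebra F A] [CommRing B] [Algebra F B]
    (φ : A →ₐ[F] B) (g : MvPolynomial (Fin 2) F) (x y : A) : φ (ev g x y) = ev g (φ x) (φ y) := by
  unfold ev
  rw [← AlgHom.comp_apply, comp_aeval]
  congr 2
  funext i
  fin_cases i <;> rfl

/-- the chain over the list `w` (outermost step first) -/
noncomputable def ch {A : Type v} [CommRing A] [Algebra F A] (γ : ℕ → MvPolynomial (Fin 2) F)
    (x : ℕ → A) (y : A) : List ℕ → A
  | [] => y
  | r :: w => ev (γ r) (x r) (ch γ x y w)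

/-- the derivative of the chain with respect to the bottom value -/
noncomputable def dy {A : Type v} [CommRing A] [Algebra F A] (γ : ℕ → MvPolynomial (Fin 2) F)
    (x : ℕ → A) (y : A) : List ℕ → A
  | [] => 1
  | r :: w => ev (pderiv 1 (γ r)) (x r) (ch γ x y w) * dy γ x y w

/-- the derivative of the chain with respect to the variable `j` -/
noncomputable def dch {A : Type v} [CommRing A] [Algebra F A] (γ : ℕ → MvPolynomial (Fin 2) F)
    (j : ℕ) (x : ℕ → A) (y : A) : List ℕ → A
  | [] => 0
  | r :: w => ev (pderiv 1 (γ r)) (x r) (ch γ x y w) * dch γ j x y w +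
      (if r = j then ev (pderiv 0 (γ r)) (x r) (ch γ x y w) else 0)

variable {A : Type*} [CommRing A] [Algebra F A] {B : Type*} [CommRing B] [Algebra F B]
  (γ : ℕ → MvPolynomial (Fin 2) F)

theorem ch_hom (φ : A →ₐ[F] B) (x : ℕ → A) (y : A) : ∀ w : List ℕ,
    φ (ch γ x y w) = ch γ (fun r => φ (x r)) (φ y) w
  | [] => rfl
  | r :: w => by rw [ch, ch, ev_hom, ch_hom φ x y w]

theorem dy_hom (φ : A →ₐ[F] B) (x : ℕ → A) (y : A) : ∀ w : List ℕ,
    φ (dy γ x y w) = dy γ (fun r => φ (x r)) (φ y) w
  | [] => by rw [dy, dy, map_one]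
  | r :: w => by rw [dy, dy, map_mul, ev_hom, ch_hom, dy_hom φ x y w]

theorem dch_hom (φ : A →ₐ[F] B) (j : ℕ) (x : ℕ → A) (y : A) : ∀ w : List ℕ,
    φ (dch γ j x y w) = dch γ j (fun r => φ (x r)) (φ y) w
  | [] => by rw [dch, dch, map_zero]
  | r :: w => by
    rw [dch, dch, map_add, map_mul, ev_hom, ch_hom, dch_hom φ j x y w]
    congr 1
    split_ifs
    · rw [ev_hom, ch_hom]
    · rw [map_zero]

theorem ch_append (x : ℕ → A) (y : A) : ∀ w w' : List ℕ,
    ch γ x y (w ++ w') = ch γ x (ch γ x y w') w
  | [], w' => rfl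
  | r :: w, w' => by rw [List.cons_append, ch, ch, ch_append x y w w']

theorem dy_append (x : ℕ → A) (y : A) : ∀ w w' : List ℕ,
    dy γ x y (w ++ w') = dy γ x (ch γ x y w') w * dy γ x y w'
  | [], w' => by rw [List.nil_append, dy, one_mul]
  | r :: w, w' => by
    rw [List.cons_append, dy, dy, dy_append x y w w', ch_append, mul_assoc]

theorem dch_append (j : ℕ) (x : ℕ → A) (y : A) : ∀ w w' : List ℕ,
    dch γ j x y (w ++ w') = dch γ j x (ch γ x y w') w + dy γ x (ch γ x y w') w * dch γ j x y w'
  | [], w' => by rw [List.nil_append, dch, dy, zero_add, one_mul]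
  | r :: w, w' => by
    rw [List.cons_append, dch, dch, dy, dch_append j x y w w', ch_append]
    ring

theorem dch_not_mem (j : ℕ) (x : ℕ → A) (y : A) : ∀ w : List ℕ, j ∉ w → dch γ j x y w = 0
  | [], _ => rfl
  | r :: w, h => by
    rw [List.mem_cons, not_or] at h
    rw [dch, dch_not_mem j x y w h.2, mul_zero, zero_add, if_neg (fun h' => h.1 h'.symm)]

theorem ch_congr {x x' : ℕ → A} (y : A) : ∀ w : List ℕ, (∀ r ∈ w, x r = x' r) →
    ch γ x y w = ch γ x' y w
  | [], _ => rfl
  | r :: w, h => by
    rw [ch, ch, ch_congr y w (fun s hs => h s (List.mem_cons_of_mem _ hs)),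
      h r List.mem_cons_self]

theorem dy_congr {x x' : ℕ → A} (y : A) : ∀ w : List ℕ, (∀ r ∈ w, x r = x' r) →
    dy γ x y w = dy γ x' y w
  | [], _ => rfl
  | r :: w, h => by
    rw [dy, dy, dy_congr y w (fun s hs => h s (List.mem_cons_of_mem _ hs)),
      ch_congr γ y w (fun s hs => h s (List.mem_cons_of_mem _ hs)),
      h r List.mem_cons_self]

theorem dch_congr (j : ℕ) {x x' : ℕ → A} (y : A) : ∀ w : List ℕ, (∀ r ∈ w, x r = x' r) →
    dch γ j x y w = dch γ j x' y w
  | [], _ => rfl
  | r :: w, h => by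
    rw [dch, dch, dch_congr j y w (fun s hs => h s (List.mem_cons_of_mem _ hs)),
      ch_congr γ y w (fun s hs => h s (List.mem_cons_of_mem _ hs)),
      h r List.mem_cons_self]

/-- the chain rule for a derivation and the value of a bivariate polynomial -/
theorem deriv_ev (D : Derivation F A A) (g : MvPolynomial (Fin 2) F) (x y : A) :
    D (ev g x y) = ev (pderiv 0 g) x y * D x + ev (pderiv 1 g) x y * D y := by
  unfold ev
  induction g using MvPolynomial.induction_on with
  | C a => simp
  | add p q hp hq =>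
    simp only [map_add, hp, hq]
    ring
  | mul_X p i hp =>
    simp only [map_mul, aeval_X, Derivation.leibniz, smul_eq_mul, hp, map_add, pderiv_X]
    fin_cases i
    · simp
      ring
    · simp
      ring

theorem deriv_ch_aux (D : Derivation F A A) (x : ℕ → A) (y : A) (j : ℕ)
    (h : ∀ r, D (x r) = if r = j then 1 else 0) : ∀ w : List ℕ,
    D (ch γ x y w) = dch γ j x y w + dy γ x y w * D y
  | [] => by rw [ch, dch, dy, zero_add, one_mul]
  | r :: w => by
    rw [ch, dch, dy, deriv_ev, deriv_ch_aux D x y j h w, h]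
    split_ifs <;> ring

theorem pderiv_ch (j : ℕ) (y : MvPolynomial ℕ F) (w : List ℕ) :
    pderiv j (ch γ X y w) = dch γ j X y w + dy γ X y w * pderiv j y := by
  apply deriv_ch_aux
  intro r
  rw [pderiv_X, Pi.single_apply]

end

end Pool.Agent.W2helper21.ROT
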