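import Pool.Agent.W2helper21.ROT.Hit

/-!
# The core statement with univariate substitutions
-/

namespace Pool.Agent.W2helper21.ROT

open MvPolynomial
open Pool.Agent.W2helper21.ROG (RFormula eval_congr_vars)

section

variable {F : Type*} [Field F]

/-- substitution in the first argument -/
noncomputable def sub2 (φ : Polynomial F) (g : MvPolynomial (Fin 2) F) : MvPolynomial (Fin 2) F :=
  aeval ![Polynomial.aeval (X 0 : MvPolynomial (Fin 2) F) φ, X 1] g

theorem eval_aeval_X {σ : Type*} (x : σ → F) (i : σ) (φ : Polynomial F) :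
    eval x (Polynomial.aeval (X i : MvPolynomial σ F) φ) = φ.eval (x i) := by
  rw [← aeval_eq_eval]
  change (aeval x : MvPolynomial σ F →ₐ[F] F) (Polynomial.aeval (X i) φ) = _
  rw [← Polynomial.aeval_algHom_apply, aeval_X, Polynomial.coe_aeval_eq_eval]

theorem ev_sub2 (φ : Polynomial F) (g : MvPolynomial (Fin 2) F) (x y : F) :
    ev (sub2 φ g) x y = ev g (φ.eval x) y := by
  unfold sub2 ev
  rw [← AlgHom.comp_apply, comp_aeval]
  congr 2
  funext i
  fin_cases i
  · simp only [Fin.zero_eta, Matrix.cons_val_zero]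
    rw [aeval_eq_eval]
    change eval ![x, y] (Polynomial.aeval (X 0) φ) = _
    rw [eval_aeval_X]
    simp
  · simp

theorem ch_sub2 (γ : ℕ → MvPolynomial (Fin 2) F) (α : ℕ → Polynomial F) (ξ : ℕ → F) (c : F) :
    ∀ w : List ℕ,
    ch (fun r => sub2 (α r) (γ r)) ξ c w = ch γ (fun r => (α r).eval (ξ r)) c w
  | [] => rfl
  | r :: w => by rw [ch, ch, ev_sub2, ch_sub2 γ α ξ c w]

theorem pderiv_aeval_X {σ : Type*} [DecidableEq σ] (i : σ) (φ : Polynomial F) :
    pderiv i (Polynomial.aeval (X i : MvPolynomial σ F) φ) =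
      Polynomial.aeval (X i : MvPolynomial σ F) (Polynomial.derivative φ) := by
  have h := Derivation.map_aeval (pderiv i : Derivation F (MvPolynomial σ F) (MvPolynomial σ F))
    φ (X i : MvPolynomial σ F)
  rw [h, pderiv_X_self, smul_eq_mul, mul_one]

end

section

variable {F : Type*} [Field F] {n : ℕ}

/-- the point with the coordinates `ξ` in the list `J` and `b` elsewhere, after the substitutions
`α` -/
noncomputable def ptA (α : Fin n → Polynomial F) (b : Fin n → F) (J : List (Fin n)) (ξ : ℕ → F)
    (i : Fin n) : F :=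
  (α i).eval (if i ∈ J then ξ (J.idxOf i) else b i)

theorem chain_data2 [Infinite F] (f : RFormula F n) (J : List (Fin n)) (hn : J.Nodup)
    (hJ : 0 < J.length)
    (hf : Fits f J) (α : Fin n → Polynomial F) (b : Fin n → F)
    (hd : ∀ i ∈ J, i ∈ f.toPoly.vars →
      eval (ptA α b J 0) (pderiv i f.toPoly) ≠ 0 ∧ (Polynomial.derivative (α i)).eval 0 ≠ 0) :
    ∃ (d : Bool) (γ : ℕ → MvPolynomial (Fin 2) F) (c : F),
      (∀ ξ : ℕ → F, eval (ptA α b J ξ) f.toPoly = ch γ ξ c (W d 0 J.length)) ∧
      ND γ c (W d 0 J.length) := by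
  classical
  by_cases hind : ∀ i ∈ J, i ∉ f.toPoly.vars
  · refine ⟨true, fun _ => X 1, eval (ptA α b J 0) f.toPoly, fun ξ => ?_, ?_⟩
    · have hch : ∀ w : List ℕ, ch (fun _ => (X 1 : MvPolynomial (Fin 2) F)) ξ
          (eval (ptA α b J 0) f.toPoly) w = eval (ptA α b J 0) f.toPoly := by
        intro w
        induction w with
        | nil => rfl
        | cons r w ih =>
          rw [ch, ih]
          simp [ev]
      rw [hch]
      apply eval_congr_vars
      intro i hi
      unfold ptA
      rw [if_neg (fun h => hind i h hi), if_neg (fun h => hind i h hi)]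
    · intro w1 r w2 _ _
      rw [pderiv_X_self]
      simp [ev]
  · obtain ⟨hcat, hv⟩ : (Cat f.toPoly J ∨ Cat f.toPoly J.reverse) ∧
        ∀ i ∈ J, i ∈ f.toPoly.vars := by
      rcases hf with h | h
      · exact h
      · exact absurd h hind
    set s := J.length with hs
    let e : ℕ → Fin n := fun r => J.getD r (J.get ⟨0, hJ⟩)
    have he : ∀ r, r < s → J.idxOf (e r) = r ∧ e r ∈ J := by
      intro r hr
      simp only [e]
      rw [List.getD_eq_getElem _ _ hr]
      exact ⟨hn.idxOf_getElem r hr, List.getElem_mem hr⟩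
    have hJe : J = (D 0 s).map e := by
      apply List.ext_getElem
      · unfold D
        rw [List.length_map, List.length_range']
      · intro i h1 h2
        simp only [D, List.getElem_map, List.getElem_range', e]
        rw [List.getD_eq_getElem _ _ (by omega)]
        congr 1
        omega
    obtain ⟨d, hcat⟩ : ∃ d : Bool, Cat f.toPoly ((W d 0 s).map e) := by
      rcases hcat with h | h
      · refine ⟨false, ?_⟩
        rw [W_false, ← hJe]
        exact h
      · refine ⟨true, ?_⟩
        rw [W_true, U, List.map_reverse]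
        have : List.map e (List.range' 0 s) = J := hJe.symm
        rw [this]
        exact h
    have hmemJ : ∀ i, i ∈ (W d 0 s).map e ↔ i ∈ J := by
      intro i
      rw [List.mem_map]
      constructor
      · rintro ⟨r, hr, rfl⟩
        rw [mem_W] at hr
        exact (he r (by omega)).2
      · intro hi
        refine ⟨J.idxOf i, ?_, ?_⟩
        · rw [mem_W]
          have := List.idxOf_lt_length_of_mem hi
          omega
        · simp only [e]
          rw [List.getD_eq_getElem _ _ (List.idxOf_lt_length_of_mem hi)]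
          exact List.getElem_idxOf _
    obtain ⟨L, c, hL, hval⟩ := hcat (fun i => (α i).eval (b i))
    obtain ⟨γ0, rfl⟩ := exists_steps e (W d 0 s) L (W_nodup d 0 s) hL
    let γ : ℕ → MvPolynomial (Fin 2) F := fun r => sub2 (α (e r)) (γ0 r)
    have hmain : ∀ ξ : ℕ → F, eval (ptA α b J ξ) f.toPoly = ch γ ξ c (W d 0 s) := by
      intro ξ
      rw [hval (ptA α b J ξ) (fun i hi => by
        rw [hmemJ] at hi
        unfold ptA
        rw [if_neg hi]), lch_map]
      simp only [γ]
      rw [ch_sub2 γ0 (fun r => α (e r))]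
      apply ch_congr
      intro r hr
      rw [mem_W] at hr
      unfold ptA
      rw [if_pos (he r (by omega)).2, (he r (by omega)).1]
    refine ⟨d, γ, c, hmain, ?_⟩
    obtain ⟨r0, w', hr0, hw'⟩ := W_last d hJ
    apply nd_of_dch γ c r0 _ (W_nodup d 0 s) ⟨w', hw'⟩
    let θ : Fin n → MvPolynomial ℕ F := fun i =>
      if i ∈ J then Polynomial.aeval (X (J.idxOf i) : MvPolynomial ℕ F) (α i)
        else C ((α i).eval (b i))
    have hθ : ∀ ξ : ℕ → F, (fun i => eval ξ (θ i)) = ptA α b J ξ := by
      intro ξ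
      funext i
      simp only [θ, ptA]
      split_ifs
      · rw [eval_aeval_X]
      · rw [eval_C]
    have hid : bind₁ θ f.toPoly = ch γ X (C c) (W d 0 s) := by
      apply MvPolynomial.funext
      intro ξ
      rw [eval_bind, hθ, hmain, eval_ch, eval_C]
    have h1 : eval 0 (pderiv r0 (bind₁ θ f.toPoly)) = dch γ r0 (0 : ℕ → F) c (W d 0 s) := by
      rw [hid, pderiv_ch, pderiv_C, mul_zero, add_zero, eval_dch, eval_C]
    rw [← h1, pderiv_bind, map_sum, Finset.sum_eq_single (e r0)]
    · rw [map_mul, eval_bind, hθ]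
      have h2 : eval 0 (pderiv r0 (θ (e r0))) = (Polynomial.derivative (α (e r0))).eval 0 := by
        simp only [θ]
        rw [if_pos (he r0 hr0).2, (he r0 hr0).1, pderiv_aeval_X, eval_aeval_X]
        rfl
      rw [h2]
      have h3 := hd (e r0) (he r0 hr0).2 (hv _ (he r0 hr0).2)
      exact mul_ne_zero h3.1 h3.2
    · intro i _ hi
      have h2 : pderiv r0 (θ i) = 0 := by
        simp only [θ]
        by_cases hiJ : i ∈ J
        · rw [if_pos hiJ]
          apply pderiv_eq_zero_of_notMem_vars
          intro h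
          have h4 : (Polynomial.aeval (X (J.idxOf i) : MvPolynomial ℕ F) (α i)).vars ⊆
              {J.idxOf i} := by
            have h5 : Polynomial.aeval (X (J.idxOf i) : MvPolynomial ℕ F) (α i) ∈
                Algebra.adjoin F {(X (J.idxOf i) : MvPolynomial ℕ F)} := by
              rw [Algebra.adjoin_singleton_eq_range_aeval]
              exact ⟨α i, rfl⟩
            have h6 : Algebra.adjoin F {(X (J.idxOf i) : MvPolynomial ℕ F)} ≤
                MvPolynomial.supported F {J.idxOf i} := by
              rw [Algebra.adjoin_le_iff]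
              intro q hq
              rw [Set.mem_singleton_iff] at hq
              rw [hq]
              exact X_mem_supported.mpr rfl
            have h7 := mem_supported.mp (h6 h5)
            intro j hj
            have := h7 hj
            rw [Finset.mem_singleton]
            exact this
          have h5 := Finset.mem_singleton.mp (h4 h)
          apply hi
          have h3 : J.idxOf i < J.length := List.idxOf_lt_length_of_mem hiJ
          simp only [e]
          rw [h5, List.getD_eq_getElem _ _ h3]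
          exact (List.getElem_idxOf _).symm
        · rw [if_neg hiJ, pderiv_C]
      rw [h2, mul_zero, map_zero]
    · intro h
      exact absurd (Finset.mem_univ _) h

theorem core2 [CharZero F] {k : ℕ} (hk : 1 ≤ k) (T : ℕ) (f : Fin T → RFormula F n)
    (hro : ∀ t, (f t).ReadOnce) (har : ∀ t, Arity k (f t)) (Ψ : MvPolynomial (Fin T) F)
    (α : Fin n → Polynomial F)
    (hα : ∀ t, ∀ i ∈ (f t).toPoly.vars, (Polynomial.derivative (α i)).eval 0 ≠ 0)
    (hgrad : ∀ t, ∀ i ∈ (f t).toPoly.vars,
      eval (fun j => (α j).eval 0) (pderiv i (f t).toPoly) ≠ 0)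
    (hx : ∃ x : Fin n → F,
      eval (fun j => (α j).eval (x j)) (bind₁ (fun t => (f t).toPoly) Ψ) ≠ 0) :
    ∃ (I : Finset (Fin n)) (x : Fin n → F), I.card ≤ big k T ((T + 1) * (T + 1)) ∧
      (∀ i, i ∉ I → x i = 0) ∧
      eval (fun j => (α j).eval (x j)) (bind₁ (fun t => (f t).toPoly) Ψ) ≠ 0 := by
  classical
  set P := bind₁ (fun t => (f t).toPoly) Ψ with hPdef
  have hPe : ∀ x, eval x P = eval (fun t => eval x (f t).toPoly) Ψ := fun x => by
    rw [hPdef, eval_bind]
  obtain ⟨x0, hx0⟩ := hx
  let S : Finset (Finset (Fin n)) := Finset.univ.filter fun I =>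
    ∃ x : Fin n → F, (∀ i, i ∉ I → x i = 0) ∧ eval (fun j => (α j).eval (x j)) P ≠ 0
  have hSne : S.Nonempty := by
    refine ⟨Finset.univ, ?_⟩
    rw [Finset.mem_filter]
    exact ⟨Finset.mem_univ _, x0, fun i hi => absurd (Finset.mem_univ i) hi, hx0⟩
  obtain ⟨I, hIS, hImin⟩ := Finset.exists_min_image S Finset.card hSne
  rw [Finset.mem_filter] at hIS
  obtain ⟨xI, hxI, hxIP⟩ := hIS.2
  refine ⟨I, xI, ?_, hxI, hxIP⟩
  by_contra hlt
  push Not at hlt
  obtain ⟨J, hJs, hJl, hfits⟩ := all_steps hk T f hro har ((T + 1) * (T + 1)) I.toList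
    I.nodup_toList (by rw [Finset.length_toList]; omega)
  have hJn : J.Nodup := I.nodup_toList.sublist hJs
  have hJI : ∀ i ∈ J, i ∈ I := fun i hi => Finset.mem_toList.mp (hJs.subset hi)
  have hJpos : 0 < J.length := by rw [hJl]; positivity
  let θ1 : Fin n → MvPolynomial (Fin n) F := fun i =>
    if i ∈ I then Polynomial.aeval (X i : MvPolynomial (Fin n) F) (α i) else C ((α i).eval 0)
  let θ2 : Fin n → MvPolynomial (Fin n) F := fun i =>
    if i ∈ I ∧ i ∉ J then Polynomial.aeval (X i : MvPolynomial (Fin n) F) (α i)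
      else C ((α i).eval 0)
  have h1e : ∀ x, (fun i => eval x (θ1 i)) = fun i => (α i).eval (if i ∈ I then x i else 0) := by
    intro x
    funext i
    simp only [θ1]
    split_ifs
    · rw [eval_aeval_X]
    · rw [eval_C]
  have h2e : ∀ x, (fun i => eval x (θ2 i)) =
      fun i => (α i).eval (if i ∈ I ∧ i ∉ J then x i else 0) := by
    intro x
    funext i
    simp only [θ2]
    split_ifs
    · rw [eval_aeval_X]
    · rw [eval_C]
  have hP1 : bind₁ θ1 P ≠ 0 := by
    intro h0
    apply hxIP
    have h3 : eval xI (bind₁ θ1 P) = 0 := by rw [h0, map_zero]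
    rw [eval_bind, h1e] at h3
    refine Eq.trans ?_ h3
    congr 2
    funext i
    by_cases hi : i ∈ I
    · rw [if_pos hi]
    · rw [if_neg hi, hxI i hi]
  have hR : ∀ t i, i ∈ (f t).toPoly.vars → bind₁ θ2 (pderiv i (f t).toPoly) ≠ 0 := by
    intro t i hi h0
    apply hgrad t i hi
    have h3 : eval 0 (bind₁ θ2 (pderiv i (f t).toPoly)) = 0 := by rw [h0, map_zero]
    rw [eval_bind, h2e] at h3
    refine Eq.trans ?_ h3
    congr 2
    funext i
    simp
  have hprod : bind₁ θ1 P * ∏ t, ∏ i ∈ (f t).toPoly.vars,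
      bind₁ θ2 (pderiv i (f t).toPoly) ≠ 0 := by
    refine mul_ne_zero hP1 ?_
    rw [Finset.prod_ne_zero_iff]
    intro t _
    rw [Finset.prod_ne_zero_iff]
    intro i hi
    exact hR t i hi
  obtain ⟨x, hx⟩ : ∃ x, eval x (bind₁ θ1 P * ∏ t, ∏ i ∈ (f t).toPoly.vars,
      bind₁ θ2 (pderiv i (f t).toPoly)) ≠ 0 := by
    by_contra hcon
    push Not at hcon
    exact hprod (MvPolynomial.funext fun x => by rw [hcon x, map_zero])
  rw [map_mul] at hx
  have hxP := left_ne_zero_of_mul hx
  have hxR : ∀ t i, i ∈ (f t).toPoly.vars →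
      eval x (bind₁ θ2 (pderiv i (f t).toPoly)) ≠ 0 := by
    intro t i hi
    have h3 := right_ne_zero_of_mul hx
    rw [map_prod, Finset.prod_ne_zero_iff] at h3
    have h4 := h3 t (Finset.mem_univ t)
    rw [map_prod, Finset.prod_ne_zero_iff] at h4
    exact h4 i hi
  let b : Fin n → F := fun i => if i ∈ I ∧ i ∉ J then x i else 0
  have hpt0 : ptA α b J 0 = fun i => eval x (θ2 i) := by
    rw [h2e]
    funext i
    unfold ptA
    simp only [b]
    by_cases hi : i ∈ J
    · rw [if_pos hi, if_neg (fun h => h.2 hi), Pi.zero_apply]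
    · rw [if_neg hi]
  have hdata : ∀ t, ∃ (d : Bool) (γ : ℕ → MvPolynomial (Fin 2) F) (c : F),
      (∀ ξ : ℕ → F, eval (ptA α b J ξ) (f t).toPoly = ch γ ξ c (W d 0 J.length)) ∧
      ND γ c (W d 0 J.length) := by
    intro t
    apply chain_data2 (f t) J hJn hJpos (hfits t) α b
    intro i _ hi
    refine ⟨?_, hα t i hi⟩
    rw [hpt0, ← eval_bind]
    exact hxR t i hi
  choose d γ c hval hnd using hdata
  let ξs : ℕ → F := fun r => x (J.getD r (J.get ⟨0, hJpos⟩))
  have hpts : ptA α b J ξs = fun i => eval x (θ1 i) := by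
    rw [h1e]
    funext i
    unfold ptA
    simp only [b, ξs]
    by_cases hi : i ∈ J
    · have h3 : J.idxOf i < J.length := List.idxOf_lt_length_of_mem hi
      rw [if_pos hi, if_pos (hJI i hi), List.getD_eq_getElem _ _ h3, List.getElem_idxOf]
    · rw [if_neg hi]
      by_cases hI : i ∈ I
      · rw [if_pos ⟨hI, hi⟩, if_pos hI]
      · rw [if_neg (fun h => hI h.1), if_neg hI]
  have hfin := chains_vanish γ d J.length c Ψ (by rw [Fintype.card_fin, hJl]) hnd (by
    intro ξ r hr hξ
    have h3 : eval (fun t => ch (γ t) ξ (c t) (W (d t) 0 J.length)) Ψ =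
        eval (ptA α b J ξ) P := by
      rw [hPe]
      congr 2
      funext t
      rw [hval]
    rw [h3]
    by_contra hne
    have hmem : I.erase (J.get ⟨r, hr⟩) ∈ S := by
      rw [Finset.mem_filter]
      refine ⟨Finset.mem_univ _, fun i => if i ∈ J then ξ (J.idxOf i) else b i, ?_, ?_⟩
      · intro i hi
        change (if i ∈ J then ξ (J.idxOf i) else b i) = 0
        by_cases hiJ : i ∈ J
        · rw [if_pos hiJ]
          have h4 : i = J.get ⟨r, hr⟩ := by
            by_contra h5
            exact hi (Finset.mem_erase.mpr ⟨h5, hJI i hiJ⟩)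
          rw [h4]
          have h5 : J.idxOf (J.get ⟨r, hr⟩) = r := hJn.idxOf_getElem r hr
          rw [h5]
          exact hξ
        · rw [if_neg hiJ]
          simp only [b]
          rw [if_neg]
          rintro ⟨h4, _⟩
          apply hi
          refine Finset.mem_erase.mpr ⟨?_, h4⟩
          rintro rfl
          exact hiJ (List.get_mem _ _)
      · exact hne
    have h4 := hImin _ hmem
    have h5 : (I.erase (J.get ⟨r, hr⟩)).card < I.card :=
      Finset.card_erase_lt_of_mem (hJI _ (List.get_mem _ _))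
    omega) ξs
  apply hxP
  rw [eval_bind, ← hpts, hPe, ← hfin]
  congr 2
  funext t
  rw [hval]

end

end Pool.Agent.W2helper21.ROT
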