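import Pool.Agent.W2helper21.ROT.Cat

/-!
# From caterpillars to chains with nondegenerate steps
-/

namespace Pool.Agent.W2helper21.ROT

open MvPolynomial
open Pool.Agent.W2helper21.ROG (RFormula eval_congr_vars)

section

variable {F : Type*} [Field F]

theorem nd_of_dch (γ : ℕ → MvPolynomial (Fin 2) F) (c : F) (r0 : ℕ) : ∀ w : List ℕ, w.Nodup →
    (∃ w', w = w' ++ [r0]) → dch γ r0 (0 : ℕ → F) c w ≠ 0 → ND γ c w
  | [], _, _, _ => by
    intro w1 r w2 h _
    exact absurd h.symm (by simp)
  | s :: w, hn, ⟨w', hw'⟩, h => by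
    rw [List.nodup_cons] at hn
    cases w' with
    | nil =>
      rw [List.nil_append, List.cons.injEq] at hw'
      obtain ⟨rfl, rfl⟩ := hw'
      intro w1 r w2 h' hne
      exfalso
      cases w1 with
      | nil =>
        rw [List.nil_append, List.cons.injEq] at h'
        exact hne h'.2.symm
      | cons a w1 =>
        rw [List.cons_append, List.cons.injEq] at h'
        exact absurd h'.2.symm (by simp)
    | cons a w' =>
      rw [List.cons_append, List.cons.injEq] at hw'
      obtain ⟨rfl, hw⟩ := hw'
      have hr : r0 ∈ w := by rw [hw]; simp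
      have hs : s ≠ r0 := fun h' => hn.1 (h' ▸ hr)
      rw [dch, if_neg hs, add_zero] at h
      have h1 := left_ne_zero_of_mul h
      have h2 := right_ne_zero_of_mul h
      have ih := nd_of_dch γ c r0 w hn.2 ⟨w', hw⟩ h2
      intro w1 r w2 h' hne
      cases w1 with
      | nil =>
        rw [List.nil_append, List.cons.injEq] at h'
        obtain ⟨rfl, rfl⟩ := h'
        exact h1
      | cons a w1 =>
        rw [List.cons_append, List.cons.injEq] at h'
        exact ih w1 r w2 h'.2 hne

/-- the shift of the first argument -/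
noncomputable def shift2 (α : F) (g : MvPolynomial (Fin 2) F) : MvPolynomial (Fin 2) F :=
  aeval ![C α + X 0, X 1] g

theorem ev_shift2 (α : F) (g : MvPolynomial (Fin 2) F) (x y : F) :
    ev (shift2 α g) x y = ev g (α + x) y := by
  unfold shift2 ev
  rw [← AlgHom.comp_apply, comp_aeval]
  congr 2
  funext i
  fin_cases i
  · simp
  · simp

theorem ch_shift2 (γ : ℕ → MvPolynomial (Fin 2) F) (α ξ : ℕ → F) (c : F) : ∀ w : List ℕ,
    ch (fun r => shift2 (α r) (γ r)) ξ c w = ch γ (fun r => α r + ξ r) c w
  | [] => rfl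
  | r :: w => by rw [ch, ch, ev_shift2, ch_shift2 γ α ξ c w]

theorem lch_map {ι : Type*} (e : ℕ → ι) (γ : ℕ → MvPolynomial (Fin 2) F) (x : ι → F) (c : F) :
    ∀ w : List ℕ, lch x c (w.map fun r => (e r, γ r)) = ch γ (fun r => x (e r)) c w
  | [] => rfl
  | r :: w => by rw [List.map_cons, lch, ch, lch_map e γ x c w]

theorem exists_steps {ι : Type*} (e : ℕ → ι) : ∀ (w : List ℕ)
    (L : List (ι × MvPolynomial (Fin 2) F)), w.Nodup → L.map Prod.fst = w.map e →
    ∃ γ : ℕ → MvPolynomial (Fin 2) F, L = w.map fun r => (e r, γ r)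
  | [], L, _, h => by
    rw [List.map_nil, List.map_eq_nil_iff] at h
    exact ⟨fun _ => 0, h⟩
  | r :: w, [], _, h => by
    exact absurd h.symm (by simp)
  | r :: w, p :: L, hn, h => by
    rw [List.nodup_cons] at hn
    rw [List.map_cons, List.map_cons, List.cons.injEq] at h
    obtain ⟨γ, hγ⟩ := exists_steps e w L hn.2 h.2
    refine ⟨Function.update γ r p.2, ?_⟩
    rw [List.map_cons, Function.update_self, hγ, ← h.1]
    congr 1
    apply List.map_congr_left
    intro r' hr'
    rw [Function.update_of_ne]
    rintro rfl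
    exact hn.1 hr'

end

section

variable {F : Type*} [Field F] {n : ℕ}

/-- the point with the coordinates `ξ` in the list `J` and `b` elsewhere, translated by `a` -/
def ptJ (a b : Fin n → F) (J : List (Fin n)) (ξ : ℕ → F) (i : Fin n) : F :=
  a i + (if i ∈ J then ξ (J.idxOf i) else b i)

theorem W_nodup (d : Bool) (l k : ℕ) : (W d l k).Nodup := by
  cases d
  · rw [W_false]
    exact List.nodup_range'
  · rw [W_true, U, List.nodup_reverse]
    exact List.nodup_range'

theorem W_last (d : Bool) {k : ℕ} (hk : 0 < k) : ∃ r0 w', r0 < k ∧ W d 0 k = w' ++ [r0] := by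
  obtain ⟨k, rfl⟩ := Nat.exists_eq_succ_of_ne_zero hk.ne'
  cases d
  · refine ⟨k, D 0 k, by omega, ?_⟩
    rw [W_false]
    unfold D
    rw [Nat.succ_eq_add_one, List.range'_concat]
    simp
  · refine ⟨0, U 1 k, by omega, ?_⟩
    rw [W_true, Nat.succ_eq_add_one, add_comm k 1, U_add]
    rfl

theorem chain_data [Infinite F] (f : RFormula F n) (J : List (Fin n)) (hn : J.Nodup)
    (hJ : 0 < J.length)
    (hf : Fits f J) (a b : Fin n → F)
    (hd : ∀ i ∈ J, i ∈ f.toPoly.vars →
      eval (ptJ a b J 0) (pderiv i f.toPoly) ≠ 0) :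
    ∃ (d : Bool) (γ : ℕ → MvPolynomial (Fin 2) F) (c : F),
      (∀ ξ : ℕ → F, eval (ptJ a b J ξ) f.toPoly = ch γ ξ c (W d 0 J.length)) ∧
      ND γ c (W d 0 J.length) := by
  classical
  by_cases hind : ∀ i ∈ J, i ∉ f.toPoly.vars
  · refine ⟨true, fun _ => X 1, eval (ptJ a b J 0) f.toPoly, fun ξ => ?_, ?_⟩
    · have hch : ∀ w : List ℕ, ch (fun _ => (X 1 : MvPolynomial (Fin 2) F)) ξ
          (eval (ptJ a b J 0) f.toPoly) w = eval (ptJ a b J 0) f.toPoly := by
        intro w
        induction w with
        | nil => rfl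
        | cons r w ih =>
          rw [ch, ih]
          simp [ev]
      rw [hch]
      apply eval_congr_vars
      intro i hi
      unfold ptJ
      rw [if_neg (fun h => hind i h hi), if_neg (fun h => hind i h hi)]
    · intro w1 r w2 _ _
      rw [pderiv_X_self]
      simp [ev]
  · obtain ⟨hcat, hv⟩ : (Cat f.toPoly J ∨ Cat f.toPoly J.reverse) ∧
        ∀ i ∈ J, i ∈ f.toPoly.vars := by
      rcases hf with h | h
      · exact h
      · exact absurd h hind
    set s := J.length with hs
    let e : ℕ → Fin n := fun r => J.getD r (J.get ⟨0, hJ⟩)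
    have he : ∀ r, r < s → J.idxOf (e r) = r ∧ e r ∈ J := by
      intro r hr
      simp only [e]
      rw [List.getD_eq_getElem _ _ hr]
      exact ⟨hn.idxOf_getElem r hr, List.getElem_mem hr⟩
    have hJe : J = (D 0 s).map e := by
      apply List.ext_getElem
      · unfold D
        rw [List.length_map, List.length_range']
      · intro i h1 h2
        simp only [D, List.getElem_map, List.getElem_range', e]
        rw [List.getD_eq_getElem _ _ (by omega)]
        congr 1
        omega
    obtain ⟨d, hcat⟩ : ∃ d : Bool, Cat f.toPoly ((W d 0 s).map e) := by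
      rcases hcat with h | h
      · refine ⟨false, ?_⟩
        rw [W_false, ← hJe]
        exact h
      · refine ⟨true, ?_⟩
        rw [W_true, U, List.map_reverse]
        have : List.map e (List.range' 0 s) = J := hJe.symm
        rw [this]
        exact h
    have hmemJ : ∀ i, i ∈ (W d 0 s).map e ↔ i ∈ J := by
      intro i
      rw [List.mem_map]
      constructor
      · rintro ⟨r, hr, rfl⟩
        rw [mem_W] at hr
        exact (he r (by omega)).2
      · intro hi
        refine ⟨J.idxOf i, ?_, ?_⟩
        · rw [mem_W]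
          have := List.idxOf_lt_length_of_mem hi
          omega
        · simp only [e]
          rw [List.getD_eq_getElem _ _ (List.idxOf_lt_length_of_mem hi)]
          exact List.getElem_idxOf _
    obtain ⟨L, c, hL, hval⟩ := hcat (fun i => a i + b i)
    obtain ⟨γ0, rfl⟩ := exists_steps e (W d 0 s) L (W_nodup d 0 s) hL
    let γ : ℕ → MvPolynomial (Fin 2) F := fun r => shift2 (a (e r)) (γ0 r)
    have hmain : ∀ ξ : ℕ → F, eval (ptJ a b J ξ) f.toPoly = ch γ ξ c (W d 0 s) := by
      intro ξ
      rw [hval (ptJ a b J ξ) (fun i hi => by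
        rw [hmemJ] at hi
        unfold ptJ
        rw [if_neg hi]), lch_map]
      simp only [γ]
      rw [ch_shift2]
      apply ch_congr
      intro r hr
      rw [mem_W] at hr
      unfold ptJ
      rw [if_pos (he r (by omega)).2, (he r (by omega)).1]
    refine ⟨d, γ, c, hmain, ?_⟩
    obtain ⟨r0, w', hr0, hw'⟩ := W_last d hJ
    apply nd_of_dch γ c r0 _ (W_nodup d 0 s) ⟨w', hw'⟩
    let θ : Fin n → MvPolynomial ℕ F := fun i =>
      C (a i) + (if i ∈ J then X (J.idxOf i) else C (b i))
    have hθ : ∀ ξ : ℕ → F, (fun i => eval ξ (θ i)) = ptJ a b J ξ := by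
      intro ξ
      funext i
      simp only [θ, ptJ]
      split_ifs <;> simp
    have hid : bind₁ θ f.toPoly = ch γ X (C c) (W d 0 s) := by
      apply MvPolynomial.funext
      intro ξ
      rw [eval_bind, hθ, hmain, eval_ch, eval_C]
    have h1 : eval 0 (pderiv r0 (bind₁ θ f.toPoly)) = dch γ r0 (0 : ℕ → F) c (W d 0 s) := by
      rw [hid, pderiv_ch, pderiv_C, mul_zero, add_zero, eval_dch, eval_C]
    rw [← h1, pderiv_bind, map_sum, Finset.sum_eq_single (e r0)]
    · rw [map_mul, eval_bind, hθ]
      have h2 : pderiv r0 (θ (e r0)) = 1 := by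
        simp only [θ]
        rw [if_pos (he r0 hr0).2, (he r0 hr0).1, map_add, pderiv_C, pderiv_X_self, zero_add]
      rw [h2, map_one, mul_one]
      exact hd (e r0) (he r0 hr0).2 (hv _ (he r0 hr0).2)
    · intro i _ hi
      have h2 : pderiv r0 (θ i) = 0 := by
        simp only [θ]
        rw [map_add, pderiv_C, zero_add]
        by_cases hiJ : i ∈ J
        · rw [if_pos hiJ, pderiv_X_of_ne]
          intro h
          apply hi
          have h3 : J.idxOf i < J.length := List.idxOf_lt_length_of_mem hiJ
          simp only [e]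
          rw [← h, List.getD_eq_getElem _ _ h3]
          exact (List.getElem_idxOf _).symm
        · rw [if_neg hiJ, pderiv_C]
      rw [h2, mul_zero, map_zero]
    · intro h
      exact absurd (Finset.mem_univ _) h

end

end Pool.Agent.W2helper21.ROT
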