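import Pool.Agent.W2helper21.ROT.Chain

/-!
# The vector field lemma

If all `(r+1)`-minors of the Jacobian of `f` vanish and some `r`-minor without the column `i` is not
divisible by `X i`, then a polynomial in `f` which is divisible by `X i` is zero (characteristic 0).
-/

namespace Pool.Agent.W2helper21.ROT

open MvPolynomial

section

variable {F : Type*} [Field F] {σ : Type*} {T : Type*} [Fintype T]

theorem pderiv_bind (f : T → MvPolynomial σ F) (j : σ) (Ψ : MvPolynomial T F) :
    pderiv j (bind₁ f Ψ) = ∑ t, bind₁ f (pderiv t Ψ) * pderiv j (f t) := by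
  classical
  induction Ψ using MvPolynomial.induction_on with
  | C a => simp
  | add p q hp hq =>
    simp only [map_add, hp, hq, add_mul, Finset.sum_add_distrib]
  | mul_X p i hp =>
    simp only [map_mul, bind₁_X_right, Derivation.leibniz, smul_eq_mul, hp, map_add, pderiv_X,
      add_mul, Finset.sum_add_distrib, Finset.mul_sum]
    congr 1
    · rw [Finset.sum_eq_single i]
      · simp
      · intro t _ ht
        rw [Pi.single_eq_of_ne (Ne.symm ht)]
        simp
      · intro h
        exact absurd (Finset.mem_univ i) h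
    · apply Finset.sum_congr rfl
      intro t _
      ring

/-- the minor of the Jacobian matrix -/
noncomputable def minor (f : T → MvPolynomial σ F) {r : ℕ} (row : Fin r → T) (col : Fin r → σ) :
    MvPolynomial σ F :=
  Matrix.det (Matrix.of fun a b => pderiv (col b) (f (row a)))

/-- the vector field, as a determinant -/
noncomputable def vf (f : T → MvPolynomial σ F) {r : ℕ} (row : Fin r → T) (col : Fin (r + 1) → σ)
    (g : MvPolynomial σ F) : MvPolynomial σ F :=
  Matrix.det (Matrix.of (Fin.cons (fun b => pderiv (col b) g)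
    (fun a b => pderiv (col b) (f (row a)))) : Matrix (Fin (r + 1)) (Fin (r + 1)) _)

omit [Fintype T] in
theorem vf_eq (f : T → MvPolynomial σ F) {r : ℕ} (row : Fin r → T) (col : Fin (r + 1) → σ)
    (g : MvPolynomial σ F) : vf f row col g =
    ∑ b : Fin (r + 1), (-1) ^ (b : ℕ) * pderiv (col b) g *
      minor f row (fun b' => col (b.succAbove b')) := by
  rw [vf, Matrix.det_succ_row_zero]
  apply Finset.sum_congr rfl
  intro b _
  rfl

omit [Fintype T] in
theorem vf_self (f : T → MvPolynomial σ F) {r : ℕ} (row : Fin r → T) (col : Fin (r + 1) → σ)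
    (t : T) : vf f row col (f t) = minor f (Fin.cons t row : Fin (r + 1) → T) col := by
  unfold vf minor
  congr 1
  ext a b
  refine Fin.cases ?_ (fun a => ?_) a
  · rfl
  · rfl

theorem vf_bind (f : T → MvPolynomial σ F) {r : ℕ} (row : Fin r → T) (col : Fin (r + 1) → σ)
    (Ψ : MvPolynomial T F) : vf f row col (bind₁ f Ψ) =
    ∑ t, bind₁ f (pderiv t Ψ) * vf f row col (f t) := by
  simp only [vf_eq, pderiv_bind, Finset.mul_sum, Finset.sum_mul]
  rw [Finset.sum_comm]
  apply Finset.sum_congr rfl
  intro t _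
  apply Finset.sum_congr rfl
  intro b _
  ring

/-- **The vector field lemma.** -/
theorem field_lemma [CharZero F] (f : T → MvPolynomial σ F) (i : σ) {r : ℕ}
    (row : Fin r → T) (col : Fin r → σ) (hci : ∀ b, col b ≠ i)
    (hmin : ∀ (row' : Fin (r + 1) → T) (col' : Fin (r + 1) → σ), minor f row' col' = 0)
    (hM : ¬ X i ∣ minor f row col) (Ψ : MvPolynomial T F) (hQ : X i ∣ bind₁ f Ψ) :
    bind₁ f Ψ = 0 := by
  classical
  by_contra hne
  obtain ⟨Q', hQ', hndvd⟩ := FiniteMultiplicity.exists_eq_pow_mul_and_not_dvd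
    (FiniteMultiplicity.of_prime_left (X_prime (i := i)) hne)
  set e := multiplicity (X i) (bind₁ f Ψ) with he
  have he0 : e ≠ 0 := by
    intro h0
    rw [h0, pow_zero, one_mul] at hQ'
    rw [← hQ'] at hndvd
    exact hndvd hQ
  obtain ⟨e', hee⟩ := Nat.exists_eq_succ_of_ne_zero he0
  rw [hee] at hQ'
  set Q := bind₁ f Ψ with hQdef
  have hvf : vf f row (Fin.cons i col : Fin (r + 1) → σ) Q = 0 := by
    rw [hQdef, vf_bind]
    apply Finset.sum_eq_zero
    intro t _
    rw [vf_self, hmin, mul_zero]
  rw [vf_eq, Fin.sum_univ_succ] at hvf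
  simp only [Fin.val_zero, pow_zero, one_mul, Fin.cons_zero, Fin.cons_succ,
    Fin.succAbove_zero] at hvf
  have hi : pderiv i Q = X i ^ e' * (C ((e' + 1 : ℕ) : F) * Q' + X i * pderiv i Q') := by
    rw [hQ', Derivation.leibniz, smul_eq_mul, smul_eq_mul, Derivation.leibniz_pow, pderiv_X_self,
      Nat.succ_eq_add_one, Nat.add_sub_cancel, smul_eq_mul, nsmul_eq_mul]
    simp only [map_natCast, Nat.cast_add, Nat.cast_one, map_add, map_one, mul_one]
    ring
  have hj : ∀ j, j ≠ i → pderiv j Q = X i ^ e' * (X i * pderiv j Q') := by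
    intro j hji
    rw [hQ', Derivation.leibniz, smul_eq_mul, smul_eq_mul, Derivation.leibniz_pow,
      pderiv_X_of_ne (Ne.symm hji)]
    simp only [smul_zero, mul_zero, add_zero, Nat.succ_eq_add_one]
    ring
  have hsum : ∃ R, ∑ b : Fin r, (-1) ^ ((Fin.succ b : Fin (r + 1)) : ℕ) * pderiv (col b) Q *
      minor f row (fun b' => (Fin.cons i col : Fin (r + 1) → σ) (b.succ.succAbove b')) =
      X i ^ e' * (X i * R) := by
    refine ⟨∑ b : Fin r, (-1) ^ ((Fin.succ b : Fin (r + 1)) : ℕ) * pderiv (col b) Q' *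
      minor f row (fun b' => (Fin.cons i col : Fin (r + 1) → σ) (b.succ.succAbove b')), ?_⟩
    rw [Finset.mul_sum, Finset.mul_sum]
    apply Finset.sum_congr rfl
    intro b _
    rw [hj _ (hci b)]
    ring
  obtain ⟨R, hR⟩ := hsum
  rw [hR, hi] at hvf
  have hXe : (X i ^ e' : MvPolynomial σ F) ≠ 0 := pow_ne_zero _ (X_ne_zero i)
  have h1 : X i ^ e' * ((C ((e' + 1 : ℕ) : F) * Q' + X i * pderiv i Q') * minor f row col +
      X i * R) = 0 := by
    rw [← hvf]; ring
  have h2 := (mul_eq_zero.mp h1).resolve_left hXe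
  have h3 : X i ∣ C ((e' + 1 : ℕ) : F) * (Q' * minor f row col) := by
    refine ⟨-(pderiv i Q' * minor f row col + R), ?_⟩
    linear_combination h2
  have h4 : X i ∣ Q' * minor f row col := by
    have hu : IsUnit (C ((e' + 1 : ℕ) : F) : MvPolynomial σ F) := by
      apply IsUnit.map
      exact IsUnit.mk0 _ (Nat.cast_ne_zero.mpr (Nat.succ_ne_zero _))
    exact (hu.dvd_mul_left).mp h3
  rcases (X_prime (i := i)).dvd_or_dvd h4 with h | h
  · exact hndvd h
  · exact hM h

end

end Pool.Agent.W2helper21.ROT
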