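import Pool.Agent.W2helper21.ROT.Data
import Pool.Agent.W2helper21.ROG.Grid

/-!
# Functions of boundedly many read-once formulas do not vanish on the image of the generator
-/

namespace Pool.Agent.W2helper21.ROT

open MvPolynomial
open Pool.Agent.W2helper21.ROG (RFormula eval_congr_vars Im Im_irred Im_single Im_mono zero_mem_Im
  good_hit SmallGate)

section

variable {F : Type*} [Field F] [CharZero F] {σ : Type*}

theorem pderiv_ne_zero {p : MvPolynomial σ F} {i : σ} (hi : i ∈ p.vars) : pderiv i p ≠ 0 := by
  classical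
  rw [mem_vars_iff_mem_support] at hi
  obtain ⟨m, hm, him⟩ := hi
  intro h0
  have h1 : coeff (m - Finsupp.single i 1) (pderiv i p) = 0 := by rw [h0, coeff_zero]
  rw [coeff_pderiv] at h1
  have h2 : m - Finsupp.single i 1 + Finsupp.single i 1 = m := by
    apply tsub_add_cancel_of_le
    rw [Finsupp.single_le_iff]
    exact Nat.one_le_iff_ne_zero.mpr (Finsupp.mem_support_iff.mp him)
  rw [h2] at h1
  rcases mul_eq_zero.mp h1 with h | h
  · exact (mem_support_iff.mp hm) h
  · exact Nat.cast_add_one_ne_zero _ h

omit [CharZero F] in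
theorem vars_pderiv (p : MvPolynomial σ F) (j : σ) : (pderiv j p).vars ⊆ p.vars := by
  classical
  intro i hi
  rw [mem_vars_iff_mem_support] at hi ⊢
  obtain ⟨m, hm, him⟩ := hi
  rw [mem_support_iff, coeff_pderiv] at hm
  refine ⟨m + Finsupp.single j 1, mem_support_iff.mpr (left_ne_zero_of_mul hm), ?_⟩
  rw [Finsupp.mem_support_iff] at him ⊢
  rw [Finsupp.add_apply]
  omega

end

section

variable {F : Type*} [Field F] [CharZero F] {n : ℕ}

omit [CharZero F] in
theorem admissible_of_arity {k : ℕ} (hk : 1 ≤ k) : ∀ f : RFormula F n, Arity k f →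
    f.Admissible k 0
  | .leaf p, h => by
    classical
    rw [RFormula.Admissible]
    have h1 : 1 < 2 ^ k := Nat.one_lt_two_pow (by omega)
    rcases h with ⟨i, rfl⟩ | ⟨c, rfl⟩
    · rw [support_X, Finset.card_singleton]
      exact h1
    · refine lt_of_le_of_lt ?_ h1
      by_cases hc : c = 0
      · rw [hc, map_zero, support_zero, Finset.card_empty]
        omega
      · rw [← monomial_zero', support_monomial, if_neg hc, Finset.card_singleton]
  | .gate Φ A, h => by
    rw [RFormula.Admissible]
    exact ⟨Or.inl (Or.inr (Or.inl h.1)), fun j => admissible_of_arity hk (A j) (h.2 j)⟩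

theorem nz_formula {k : ℕ} (hk : 1 ≤ k) (f : RFormula F n) (hro : f.ReadOnce) (har : Arity k f)
    (hne : f.toPoly ≠ 0) : ∃ a ∈ Im F n k, eval a f.toPoly ≠ 0 := by
  by_cases hv : f.toPoly.vars.Nonempty
  · have := RFormula.good_depth (k := k) (c := 0) (by omega) f hro (admissible_of_arity hk f har) hv
    rw [Nat.zero_mul, Nat.add_zero] at this
    exact good_hit this
  · rw [Finset.not_nonempty_iff_eq_empty, vars_eq_empty_iff_eq_C] at hv
    refine ⟨0, zero_mem_Im n k, ?_⟩
    rw [hv, eval_C]
    intro h
    rw [h, map_zero] at hv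
    exact hne hv

theorem deriv_hit {k : ℕ} (hk : 1 ≤ k) : ∀ f : RFormula F n, f.ReadOnce → Arity k f →
    ∀ i ∈ f.toPoly.vars, ∃ a ∈ Im F n k, eval a (pderiv i f.toPoly) ≠ 0
  | .leaf p => by
    intro _ har i hi
    rcases har with ⟨s, rfl⟩ | ⟨c, rfl⟩
    · rw [RFormula.toPoly] at hi ⊢
      rw [vars_X, Finset.mem_singleton] at hi
      subst hi
      refine ⟨0, zero_mem_Im n k, ?_⟩
      rw [pderiv_X_self, map_one]
      exact one_ne_zero
    · rw [RFormula.toPoly, vars_C] at hi
      exact absurd hi (Finset.notMem_empty i)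
  | .gate (m := M) Φ A => by
    classical
    intro hro har i hi
    have hdisj := RFormula.disjoint_toPoly hro.2
    have hne := pderiv_ne_zero hi
    rw [RFormula.toPoly] at hne ⊢
    rw [pderiv_bind] at hne ⊢
    obtain ⟨j, _, hj⟩ := Finset.exists_ne_zero_of_sum_ne_zero hne
    have hij : i ∈ (A j).toPoly.vars := by
      by_contra h
      apply hj
      rw [pderiv_eq_zero_of_notMem_vars h, mul_zero]
    rw [Finset.sum_eq_single j]
    · have hg : (RFormula.gate (pderiv j Φ) A).toPoly =
          bind₁ (fun j => (A j).toPoly) (pderiv j Φ) := by rw [RFormula.toPoly]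
      have h1 : ∃ a ∈ Im F n k, eval a (bind₁ (fun j => (A j).toPoly) (pderiv j Φ)) ≠ 0 := by
        rw [← hg]
        apply nz_formula hk
        · exact hro
        · exact ⟨(Finset.card_le_card (vars_pderiv Φ j)).trans har.1, har.2⟩
        · rw [hg]
          exact left_ne_zero_of_mul hj
      have h2 := deriv_hit hk (A j) (hro.1 j) (har.2 j) i hij
      obtain ⟨a, ha, hboth⟩ := Im_irred (Finset.univ : Finset Bool)
        (fun b => if b then bind₁ (fun j => (A j).toPoly) (pderiv j Φ) else
          pderiv i (A j).toPoly) (by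
          intro b _
          cases b
          · exact h2
          · exact h1)
      refine ⟨a, ha, ?_⟩
      rw [map_mul]
      exact mul_ne_zero (hboth true (Finset.mem_univ _)) (hboth false (Finset.mem_univ _))
    · intro j' _ hj'
      rw [pderiv_eq_zero_of_notMem_vars (f := (A j').toPoly)
        (fun h => Finset.disjoint_left.mp (hdisj hj') h hij), mul_zero]
    · intro h
      exact absurd (Finset.mem_univ _) h

theorem im_support {k : ℕ} {a : Fin n → F} (ha : a ∈ Im F n k) (I : Finset (Fin n))
    (x : Fin n → F) (hx : ∀ i, i ∉ I → x i = 0) : a + x ∈ Im F n (k + I.card) := by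
  classical
  induction I using Finset.induction_on generalizing x with
  | empty =>
    have : x = 0 := by
      funext i
      exact hx i (Finset.notMem_empty i)
    rw [this, add_zero, Finset.card_empty, add_zero]
    exact ha
  | insert i I hi ih =>
    have h1 := ih (Function.update x i 0) (fun j hj => by
      by_cases hji : j = i
      · rw [hji, Function.update_self]
      · rw [Function.update_of_ne hji]
        apply hx
        rw [Finset.mem_insert, not_or]
        exact ⟨hji, hj⟩)
    have h2 := Im_single h1 i (x i)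
    rw [Finset.card_insert_of_notMem hi, ← add_assoc]
    convert h2 using 1
    rw [add_assoc]
    congr 1
    funext j
    by_cases hji : j = i
    · subst hji
      simp
    · simp [Function.update_of_ne hji, Pi.single_eq_of_ne hji]

theorem hit_core {k : ℕ} (hk : 1 ≤ k) (T : ℕ) (f : Fin T → RFormula F n)
    (hro : ∀ t, (f t).ReadOnce) (har : ∀ t, Arity k (f t)) (Ψ : MvPolynomial (Fin T) F)
    (hP : bind₁ (fun t => (f t).toPoly) Ψ ≠ 0) :
    ∃ a ∈ Im F n (k + big k T ((T + 1) * (T + 1))),
      eval a (bind₁ (fun t => (f t).toPoly) Ψ) ≠ 0 := by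
  classical
  set P := bind₁ (fun t => (f t).toPoly) Ψ with hPdef
  have hPe : ∀ x, eval x P = eval (fun t => eval x (f t).toPoly) Ψ := fun x => by
    rw [hPdef, eval_bind]
  obtain ⟨a, ha, hgrad⟩ := Im_irred (n := n) (k := k)
    ((Finset.univ : Finset (Fin T × Fin n)).filter fun q => q.2 ∈ (f q.1).toPoly.vars)
    (fun q => pderiv q.2 (f q.1).toPoly) (by
      rintro ⟨t, i⟩ hq
      rw [Finset.mem_filter] at hq
      exact deriv_hit hk (f t) (hro t) (har t) i hq.2)
  have hgrad' : ∀ t i, i ∈ (f t).toPoly.vars → eval a (pderiv i (f t).toPoly) ≠ 0 :=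
    fun t i hi => hgrad (t, i) (by rw [Finset.mem_filter]; exact ⟨Finset.mem_univ _, hi⟩)
  obtain ⟨x0, hx0⟩ : ∃ x, eval x P ≠ 0 := by
    by_contra hcon
    push Not at hcon
    exact hP (MvPolynomial.funext fun x => by rw [hcon x, map_zero])
  let S : Finset (Finset (Fin n)) := Finset.univ.filter fun I =>
    ∃ x : Fin n → F, (∀ i, i ∉ I → x i = 0) ∧ eval (a + x) P ≠ 0
  have hSne : S.Nonempty := by
    refine ⟨Finset.univ, ?_⟩
    rw [Finset.mem_filter]
    refine ⟨Finset.mem_univ _, x0 - a, fun i hi => absurd (Finset.mem_univ i) hi, ?_⟩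
    rw [add_sub_cancel]
    exact hx0
  obtain ⟨I, hIS, hImin⟩ := Finset.exists_min_image S Finset.card hSne
  rw [Finset.mem_filter] at hIS
  obtain ⟨xI, hxI, hxIP⟩ := hIS.2
  have hcard : I.card ≤ big k T ((T + 1) * (T + 1)) := by
    by_contra hlt
    push Not at hlt
    obtain ⟨J, hJs, hJl, hfits⟩ := all_steps hk T f hro har ((T + 1) * (T + 1)) I.toList
      I.nodup_toList (by rw [Finset.length_toList]; omega)
    have hJn : J.Nodup := I.nodup_toList.sublist hJs
    have hJI : ∀ i ∈ J, i ∈ I := fun i hi => Finset.mem_toList.mp (hJs.subset hi)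
    have hJpos : 0 < J.length := by rw [hJl]; positivity
    let θ1 : Fin n → MvPolynomial (Fin n) F := fun i => C (a i) + (if i ∈ I then X i else 0)
    let θ2 : Fin n → MvPolynomial (Fin n) F := fun i =>
      C (a i) + (if i ∈ I ∧ i ∉ J then X i else 0)
    have h1e : ∀ x, (fun i => eval x (θ1 i)) = fun i => a i + (if i ∈ I then x i else 0) := by
      intro x
      funext i
      simp only [θ1]
      split_ifs <;> simp
    have h2e : ∀ x, (fun i => eval x (θ2 i)) =
        fun i => a i + (if i ∈ I ∧ i ∉ J then x i else 0) := by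
      intro x
      funext i
      simp only [θ2]
      split_ifs <;> simp
    have hP1 : bind₁ θ1 P ≠ 0 := by
      intro h0
      apply hxIP
      have h3 : eval xI (bind₁ θ1 P) = 0 := by rw [h0, map_zero]
      rw [eval_bind, h1e] at h3
      rw [← h3]
      congr 2
      funext i
      rw [Pi.add_apply]
      by_cases hi : i ∈ I
      · rw [if_pos hi]
      · rw [if_neg hi, hxI i hi]
    have hR : ∀ t i, i ∈ (f t).toPoly.vars → bind₁ θ2 (pderiv i (f t).toPoly) ≠ 0 := by
      intro t i hi h0
      apply hgrad' t i hi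
      have h3 : eval 0 (bind₁ θ2 (pderiv i (f t).toPoly)) = 0 := by rw [h0, map_zero]
      rw [eval_bind, h2e] at h3
      rw [← h3]
      congr 2
      funext i
      simp
    have hprod : bind₁ θ1 P * ∏ t, ∏ i ∈ (f t).toPoly.vars,
        bind₁ θ2 (pderiv i (f t).toPoly) ≠ 0 := by
      refine mul_ne_zero hP1 ?_
      rw [Finset.prod_ne_zero_iff]
      intro t _
      rw [Finset.prod_ne_zero_iff]
      intro i hi
      exact hR t i hi
    obtain ⟨x, hx⟩ : ∃ x, eval x (bind₁ θ1 P * ∏ t, ∏ i ∈ (f t).toPoly.vars,
        bind₁ θ2 (pderiv i (f t).toPoly)) ≠ 0 := by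
      by_contra hcon
      push Not at hcon
      exact hprod (MvPolynomial.funext fun x => by rw [hcon x, map_zero])
    rw [map_mul] at hx
    have hxP := left_ne_zero_of_mul hx
    have hxR : ∀ t i, i ∈ (f t).toPoly.vars →
        eval x (bind₁ θ2 (pderiv i (f t).toPoly)) ≠ 0 := by
      intro t i hi
      have h3 := right_ne_zero_of_mul hx
      rw [map_prod, Finset.prod_ne_zero_iff] at h3
      have h4 := h3 t (Finset.mem_univ t)
      rw [map_prod, Finset.prod_ne_zero_iff] at h4
      exact h4 i hi
    let b : Fin n → F := fun i => if i ∈ I ∧ i ∉ J then x i else 0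
    have hpt0 : ptJ a b J 0 = fun i => eval x (θ2 i) := by
      rw [h2e]
      funext i
      unfold ptJ
      simp only [b]
      by_cases hi : i ∈ J
      · rw [if_pos hi, if_neg (fun h => h.2 hi), Pi.zero_apply]
      · rw [if_neg hi]
    have hdata : ∀ t, ∃ (d : Bool) (γ : ℕ → MvPolynomial (Fin 2) F) (c : F),
        (∀ ξ : ℕ → F, eval (ptJ a b J ξ) (f t).toPoly = ch γ ξ c (W d 0 J.length)) ∧
        ND γ c (W d 0 J.length) := by
      intro t
      apply chain_data (f t) J hJn hJpos (hfits t) a b
      intro i _ hi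
      rw [hpt0, ← eval_bind]
      exact hxR t i hi
    choose d γ c hval hnd using hdata
    let ξs : ℕ → F := fun r => x (J.getD r (J.get ⟨0, hJpos⟩))
    have hpts : ptJ a b J ξs = fun i => eval x (θ1 i) := by
      rw [h1e]
      funext i
      unfold ptJ
      simp only [b, ξs]
      by_cases hi : i ∈ J
      · have h3 : J.idxOf i < J.length := List.idxOf_lt_length_of_mem hi
        rw [if_pos hi, if_pos (hJI i hi), List.getD_eq_getElem _ _ h3, List.getElem_idxOf]
      · rw [if_neg hi]
        by_cases hI : i ∈ I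
        · rw [if_pos ⟨hI, hi⟩, if_pos hI]
        · rw [if_neg (fun h => hI h.1), if_neg hI]
    have hfin := chains_vanish γ d J.length c Ψ (by rw [Fintype.card_fin, hJl]) hnd (by
      intro ξ r hr hξ
      have h3 : eval (fun t => ch (γ t) ξ (c t) (W (d t) 0 J.length)) Ψ =
          eval (ptJ a b J ξ) P := by
        rw [hPe]
        congr 2
        funext t
        rw [hval]
      rw [h3]
      by_contra hne
      have hmem : I.erase (J.get ⟨r, hr⟩) ∈ S := by
        rw [Finset.mem_filter]
        refine ⟨Finset.mem_univ _, fun i => if i ∈ J then ξ (J.idxOf i) else b i, ?_, ?_⟩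
        · intro i hi
          change (if i ∈ J then ξ (J.idxOf i) else b i) = 0
          by_cases hiJ : i ∈ J
          · rw [if_pos hiJ]
            have h4 : i = J.get ⟨r, hr⟩ := by
              by_contra h5
              exact hi (Finset.mem_erase.mpr ⟨h5, hJI i hiJ⟩)
            rw [h4]
            have h5 : J.idxOf (J.get ⟨r, hr⟩) = r := hJn.idxOf_getElem r hr
            rw [h5]
            exact hξ
          · rw [if_neg hiJ]
            simp only [b]
            rw [if_neg]
            rintro ⟨h4, _⟩
            apply hi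
            refine Finset.mem_erase.mpr ⟨?_, h4⟩
            rintro rfl
            exact hiJ (List.get_mem _ _)
        · exact hne
      have h4 := hImin _ hmem
      have h5 : (I.erase (J.get ⟨r, hr⟩)).card < I.card :=
        Finset.card_erase_lt_of_mem (hJI _ (List.get_mem _ _))
      omega) ξs
    apply hxP
    rw [eval_bind, ← hpts, hPe, ← hfin]
    congr 2
    funext t
    rw [hval]
  exact ⟨a + xI, Im_mono (by omega) (im_support ha I xI hxI), hxIP⟩

end

end Pool.Agent.W2helper21.ROT
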