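import Pool.Agent.W2helper21.ROT.Stable

/-!
# Functions of chains in both directions

A polynomial in boundedly many chains, increasing or decreasing, which vanishes when any one of
the variables is zero, vanishes identically, if there are many variables.
-/

namespace Pool.Agent.W2helper21.ROT

open MvPolynomial

/-- increasing (`true`) or decreasing -/
def W (d : Bool) (l k : ℕ) : List ℕ := if d then U l k else D l k

theorem W_true (l k : ℕ) : W true l k = U l k := rfl

theorem W_false (l k : ℕ) : W false l k = D l k := rfl

theorem mem_W {d : Bool} {l k r : ℕ} : r ∈ W d l k ↔ l ≤ r ∧ r < l + k := by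
  cases d
  · rw [W_false, mem_D]
  · rw [W_true, mem_U]

theorem split_U {l k : ℕ} {w1 : List ℕ} {r : ℕ} {w2 : List ℕ} (h : U l k = w1 ++ r :: w2) :
    ∃ j, j < k ∧ r = l + j ∧ w2 = U l j := by
  induction k generalizing w1 with
  | zero =>
    rw [U_zero] at h
    exact absurd h.symm (by simp)
  | succ k ih =>
    rw [U_succ] at h
    cases w1 with
    | nil =>
      rw [List.nil_append, List.cons.injEq] at h
      exact ⟨k, by omega, h.1.symm, h.2.symm⟩
    | cons a w1 =>
      rw [List.cons_append, List.cons.injEq] at h
      obtain ⟨j, hj, h1, h2⟩ := ih h.2
      exact ⟨j, by omega, h1, h2⟩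

theorem U_split (l k j : ℕ) (hj : j < k) : ∃ w1, U l k = w1 ++ (l + j) :: U l j := by
  refine ⟨U (l + (j + 1)) (k - (j + 1)), ?_⟩
  rw [← U_succ, ← U_add]
  congr 1
  omega

theorem U_ne_nil {l j : ℕ} (hj : 0 < j) : U l j ≠ [] := by
  intro h
  have : l ∈ U l j := mem_U.mpr ⟨le_rfl, by omega⟩
  rw [h] at this
  exact absurd this (by simp)

theorem D_ne_nil {l j : ℕ} (hj : 0 < j) : D l j ≠ [] := by
  intro h
  have : l ∈ D l j := mem_D.mpr ⟨le_rfl, by omega⟩
  rw [h] at this
  exact absurd this (by simp)

section

variable {F : Type*} [Field F]

theorem dy_ne_zero (γ : ℕ → MvPolynomial (Fin 2) F) (x : ℕ → F) (y : F) : ∀ w : List ℕ,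
    (∀ w1 r w2, w = w1 ++ r :: w2 → ev (pderiv 1 (γ r)) (x r) (ch γ x y w2) ≠ 0) →
    dy γ x y w ≠ 0
  | [], _ => one_ne_zero
  | r :: w, h => by
    rw [dy]
    refine mul_ne_zero (h [] r w rfl) (dy_ne_zero γ x y w ?_)
    intro w1 r' w2 h'
    exact h (r :: w1) r' w2 (by rw [h']; rfl)

/-- nondegeneracy at the origin -/
def ND (γ : ℕ → MvPolynomial (Fin 2) F) (c : F) (w : List ℕ) : Prop :=
  ∀ w1 r w2, w = w1 ++ r :: w2 → w2 ≠ [] →
    ev (pderiv 1 (γ r)) (0 : F) (ch γ 0 c w2) ≠ 0

variable {T : Type*} [Fintype T]

theorem main_D [CharZero F] (γ : T → ℕ → MvPolynomial (Fin 2) F) (d : T → Bool) : ∀ (r l k : ℕ)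
    (c : T → F) (Ψ : MvPolynomial T F), (Fintype.card T + 1) * r ≤ k →
    (∀ t, ND (γ t) (c t) (W (d t) l k)) →
    (∀ (row : Fin r → T) (col : Fin r → ℕ),
      minor (fun t => ch (γ t) X (C (c t)) (W (d t) l k)) row col = 0) →
    (∀ (x : ℕ → F) i, l ≤ i → i < l + k → x i = 0 →
      eval (fun t => ch (γ t) x (c t) (W (d t) l k)) Ψ = 0) →
    ∀ x : ℕ → F, eval (fun t => ch (γ t) x (c t) (W (d t) l k)) Ψ = 0 := by
  classical
  intro r
  induction r with
  | zero =>
    intro l k c Ψ _ _ hmin _
    exfalso
    have := hmin Fin.elim0 Fin.elim0
    unfold minor at this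
    rw [Matrix.det_fin_zero] at this
    exact one_ne_zero this
  | succ r ih =>
    intro l k c Ψ hk hnd hmin hvan
    set N := Fintype.card T with hN
    obtain ⟨k', rfl⟩ : ∃ k', k = (N + 1) + k' := by
      refine ⟨k - (N + 1), ?_⟩
      rw [mul_add, mul_one] at hk
      omega
    have hk' : (N + 1) * r ≤ k' := by
      rw [mul_add, mul_one] at hk
      omega
    set m := N + 1 with hm
    let bot : T → (ℕ → F) → F := fun t x => if d t then ch (γ t) x (c t) (U l m) else c t
    let Bot : T → MvPolynomial ℕ F := fun t =>
      if d t then ch (γ t) X (C (c t)) (U l m) else C (c t)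
    have hBot : ∀ t x, eval x (Bot t) = bot t x := by
      intro t x
      simp only [Bot, bot]
      split_ifs
      · rw [eval_ch, eval_C]
      · rw [eval_C]
    let WI : T → List ℕ := fun t => W (d t) (l + m) k'
    have hWI : ∀ t s, s ∈ WI t ↔ l + m ≤ s ∧ s < l + m + k' := fun t s => mem_W
    let V : T → MvPolynomial ℕ F := fun t => ch (γ t) X (C (c t)) (W (d t) l (m + k'))
    let E : T → MvPolynomial ℕ F := fun t => ch (γ t) X (Bot t) (WI t)
    let κ : T → MvPolynomial ℕ F := fun t => if d t then 1 else dy (γ t) X (E t) (D l m)
    have hBotd : ∀ t j, l + m ≤ j → pderiv j (Bot t) = 0 := by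
      intro t j hj
      simp only [Bot]
      split_ifs
      · rw [pderiv_ch, pderiv_C, mul_zero, add_zero]
        apply dch_not_mem
        rw [mem_U]
        omega
      · rw [pderiv_C]
    have hV : ∀ t j, l + m ≤ j → pderiv j (V t) = κ t * dch (γ t) j X (Bot t) (WI t) := by
      intro t j hj
      simp only [V, κ]
      by_cases hd : d t = true
      · rw [if_pos hd, one_mul, hd, W_true, U_add, ch_append]
        have h1 : ch (γ t) X (C (c t)) (U l m) = Bot t := by simp only [Bot]; rw [if_pos hd]
        rw [h1, pderiv_ch, hBotd t j hj, mul_zero, add_zero]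
        simp only [WI]
        rw [hd, W_true]
      · rw [if_neg hd]
        rw [Bool.not_eq_true] at hd
        rw [hd, W_false, D_add, ch_append]
        have h1 : Bot t = C (c t) := by simp only [Bot]; rw [hd]; rfl
        have h2 : ch (γ t) X (C (c t)) (D (l + m) k') = E t := by
          simp only [E, WI]; rw [h1, hd, W_false]
        rw [h2, pderiv_ch, dch_not_mem _ _ _ _ _ (by rw [mem_D]; omega), zero_add]
        simp only [E, WI]
        rw [hd, W_false, h1, pderiv_ch, pderiv_C, mul_zero, add_zero]
    by_cases hcase : ∃ (row : Fin r → T) (col : Fin r → ℕ) (ξ : ℕ → F), (∀ b, l + m ≤ col b) ∧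
        Matrix.det (Matrix.of fun a b => dch (γ (row a)) (col b) ξ (bot (row a) ξ) (WI (row a)))
          ≠ 0
    · obtain ⟨row, col, ξ, hcol, hdet⟩ := hcase
      let M : MvPolynomial T F := Matrix.det (Matrix.of fun a b =>
        dch (γ (row a)) (col b) (fun s => C (ξ s)) (if d (row a) then X (row a) else
          C (c (row a))) (WI (row a)))
      have hM : ∀ y : T → F, eval y M = Matrix.det (Matrix.of fun a b =>
          dch (γ (row a)) (col b) ξ (if d (row a) then y (row a) else c (row a))
            (WI (row a))) := by
        intro y
        simp only [M]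
        rw [RingHom.map_det]
        congr 1
        ext a b : 2
        simp only [RingHom.mapMatrix_apply, Matrix.map_apply, Matrix.of_apply]
        have := dch_hom (γ (row a)) (aeval y : MvPolynomial T F →ₐ[F] F) (col b)
          (fun s => C (ξ s)) (if d (row a) then X (row a) else C (c (row a))) (WI (row a))
        rw [← aeval_eq_eval]
        refine this.trans ?_
        have h1 : (fun s => (aeval y : MvPolynomial T F →ₐ[F] F) (C (ξ s))) = ξ := by
          funext s
          rw [aeval_eq_eval, eval_C]
        have h2 : (aeval y : MvPolynomial T F →ₐ[F] F)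
            (if d (row a) then X (row a) else C (c (row a))) =
            if d (row a) then y (row a) else c (row a) := by
          split_ifs
          · rw [aeval_X]
          · rw [aeval_eq_eval, eval_C]
        rw [h1, h2]
      let γ' : T → ℕ → MvPolynomial (Fin 2) F := fun t => if d t then γ t else fun _ => X 1
      let c' : T → F := fun t => if d t then c t else 0
      have hγd : ∀ t, d t = true → γ' t = γ t ∧ c' t = c t := by
        intro t hd
        simp only [γ', c']
        rw [if_pos hd, if_pos hd]
        exact ⟨rfl, rfl⟩
      obtain ⟨i, hi1, hi2, hi⟩ := gstab γ' c' l (by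
        intro t j hj0 hjN
        by_cases hd : d t = true
        · rw [(hγd t hd).1, (hγd t hd).2]
          obtain ⟨w1, hw1⟩ := U_split l (m + k') j (by omega)
          have := hnd t w1 (l + j) (U l j) (by rw [hd, W_true, hw1]) (U_ne_nil hj0)
          exact this
        · simp only [γ', if_neg hd]
          rw [pderiv_X_self]
          simp [ev])
      have hex : ∃ x1 : ℕ → F, x1 i = 0 ∧
          eval (fun t => ch (γ' t) x1 (c' t) (U l (Fintype.card T + 1))) M ≠ 0 := by
        by_contra hcon
        push Not at hcon
        have := hi M hcon ξ
        apply hdet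
        rw [hM] at this
        rw [← this]
        congr 1
        ext a b : 2
        simp only [Matrix.of_apply]
        congr 1
        simp only [bot]
        by_cases hd : d (row a) = true
        · rw [if_pos hd, if_pos hd, (hγd _ hd).1, (hγd _ hd).2]
        · rw [if_neg hd, if_neg hd]
      obtain ⟨x1, hx1, hMx⟩ := hex
      let x2 : ℕ → F := fun s => if s < l + m then x1 s else ξ s
      have hx2 : x2 i = 0 := by
        simp only [x2]
        rw [if_pos (by omega), hx1]
      let minX : MvPolynomial ℕ F := Matrix.det (Matrix.of fun a b =>
        dch (γ (row a)) (col b) X (Bot (row a)) (WI (row a)))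
      have hminX : eval x2 minX ≠ 0 := by
        rw [hM] at hMx
        intro h0
        apply hMx
        rw [← h0]
        simp only [minX]
        rw [RingHom.map_det]
        congr 1
        ext a b : 2
        simp only [RingHom.mapMatrix_apply, Matrix.map_apply, Matrix.of_apply]
        rw [eval_dch, hBot]
        have e1 : dch (γ (row a)) (col b) x2 (bot (row a) x2) (WI (row a)) =
            dch (γ (row a)) (col b) ξ (bot (row a) x2) (WI (row a)) := by
          apply dch_congr
          intro s hs
          rw [hWI] at hs
          simp only [x2]
          rw [if_neg (by omega)]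
        rw [e1]
        congr 1
        simp only [bot]
        by_cases hd : d (row a) = true
        · rw [if_pos hd, if_pos hd, (hγd _ hd).1, (hγd _ hd).2]
          apply ch_congr
          intro s hs
          rw [mem_U] at hs
          simp only [x2]
          rw [if_pos (by omega)]
        · rw [if_neg hd, if_neg hd]
      have hminV : minor V row col = (∏ a, κ (row a)) * minX := by
        unfold minor
        simp only [minX]
        rw [← Matrix.det_mul_column]
        congr 1
        ext a b : 2
        simp only [Matrix.of_apply]
        rw [hV _ _ (hcol b)]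
      have hnotdvd : ¬ X i ∣ minor V row col := by
        rw [hminV]
        intro h
        rcases (X_prime (i := i)).dvd_or_dvd h with h | h
        · rw [(X_prime (i := i)).dvd_finsetProd_iff] at h
          obtain ⟨a, _, ha⟩ := h
          have hr : 0 < r := lt_of_le_of_lt (Nat.zero_le _) a.2
          have hk0 : 0 < k' := by
            have : 1 * 1 ≤ m * r := Nat.mul_le_mul (by omega) hr
            omega
          refine not_X_dvd i _ 0 rfl ?_ ha
          simp only [κ]
          by_cases hd : d (row a) = true
          · rw [if_pos hd, map_one]
            exact one_ne_zero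
          · rw [if_neg hd]
            rw [Bool.not_eq_true] at hd
            rw [eval_dy]
            apply dy_ne_zero
            intro w1 s w2 hw
            have hE : eval 0 (E (row a)) = ch (γ (row a)) 0 (c (row a)) (D (l + m) k') := by
              simp only [E, WI]
              rw [eval_ch, hBot]
              simp only [bot, hd, W_false]
              rfl
            rw [hE, ← ch_append]
            apply hnd (row a) w1 s
            · rw [hd, W_false, D_add, hw, List.append_assoc, List.cons_append]
            · intro h0
              rw [List.append_eq_nil_iff] at h0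
              exact D_ne_nil hk0 h0.2
        · exact not_X_dvd i _ x2 hx2 hminX h
      have hQ : X i ∣ bind₁ V Ψ := by
        apply X_dvd_of_eval
        intro x hx
        rw [eval_bind]
        have := hvan x i (by omega) (by omega) hx
        rw [← this]
        congr 2
        funext t
        simp only [V]
        rw [eval_ch, eval_C]
      have hzero := field_lemma V i row col (fun b => by have := hcol b; omega) hmin hnotdvd Ψ hQ
      intro x
      have h2 : eval x (bind₁ V Ψ) = 0 := by rw [hzero, map_zero]
      rw [eval_bind] at h2
      rw [← h2]
      congr 2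
      funext t
      simp only [V]
      rw [eval_ch, eval_C]
    · push Not at hcase
      by_contra hgoal
      push Not at hgoal
      obtain ⟨xg, hxg⟩ := hgoal
      have hQ : bind₁ V Ψ ≠ 0 := by
        intro h0
        apply hxg
        have h2 : eval xg (bind₁ V Ψ) = 0 := by rw [h0, map_zero]
        rw [eval_bind] at h2
        rw [← h2]
        congr 2
        funext t
        simp only [V]
        rw [eval_ch, eval_C]
      let ν : T → ℕ → MvPolynomial ℕ F := fun t j => if d t = true ∧ j < k' then
        ev (pderiv 1 (γ t (l + m + j))) 0 (ch (γ t) 0 (Bot t) (U (l + m) j)) else 1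
      have hνe : ∀ t j x, eval x (ν t j) = if d t = true ∧ j < k' then
          ev (pderiv 1 (γ t (l + m + j))) 0 (ch (γ t) 0 (bot t x) (U (l + m) j)) else 1 := by
        intro t j x
        simp only [ν]
        split_ifs
        · rw [eval_ev, map_zero]
          congr 1
          have := ch_hom (γ t) (aeval x : MvPolynomial ℕ F →ₐ[F] F) 0 (Bot t) (U (l + m) j)
          rw [aeval_eq_eval] at this
          refine this.trans ?_
          have h1 : (fun r => (eval x) ((0 : ℕ → MvPolynomial ℕ F) r)) = 0 := by
            funext r
            rw [Pi.zero_apply, map_zero, Pi.zero_apply]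
          change ch (γ t) (fun r => (eval x) ((0 : ℕ → MvPolynomial ℕ F) r))
            (eval x (Bot t)) (U (l + m) j) = _
          rw [h1, hBot]
        · rw [map_one]
      have hν : ∀ t j, ν t j ≠ 0 := by
        intro t j h0
        have h1 : eval 0 (ν t j) = 0 := by rw [h0, map_zero]
        rw [hνe] at h1
        split_ifs at h1 with hcond
        · obtain ⟨hd, hj⟩ := hcond
          have h2 : bot t 0 = ch (γ t) 0 (c t) (U l m) := by
            simp only [bot]
            rw [if_pos hd]
          rw [h2, ← ch_append, ← U_add] at h1
          obtain ⟨w1, hw1⟩ := U_split l (m + k') (m + j) (by omega)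
          refine hnd t w1 (l + (m + j)) (U l (m + j)) (by rw [hd, W_true, hw1])
            (U_ne_nil (by omega)) ?_
          rw [← add_assoc]
          exact h1
        · exact one_ne_zero h1
      have hprod : bind₁ V Ψ * ∏ t, ∏ j ∈ Finset.range k', ν t j ≠ 0 := by
        refine mul_ne_zero hQ ?_
        rw [Finset.prod_ne_zero_iff]
        intro t _
        rw [Finset.prod_ne_zero_iff]
        intro j _
        exact hν t j
      obtain ⟨xs, hxs⟩ : ∃ x, eval x (bind₁ V Ψ * ∏ t, ∏ j ∈ Finset.range k', ν t j) ≠ 0 := by
        by_contra hcon
        push Not at hcon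
        exact hprod (MvPolynomial.funext fun x => by rw [hcon x, map_zero])
      rw [map_mul] at hxs
      have hxQ := left_ne_zero_of_mul hxs
      have hxν : ∀ t j, j < k' → eval xs (ν t j) ≠ 0 := by
        intro t j hj
        have h1 := right_ne_zero_of_mul hxs
        rw [map_prod, Finset.prod_ne_zero_iff] at h1
        have h2 := h1 t (Finset.mem_univ t)
        rw [map_prod, Finset.prod_ne_zero_iff] at h2
        exact h2 j (Finset.mem_range.mpr hj)
      let Ψ'' : MvPolynomial T F := bind₁ (fun t => if d t then X t else
        ch (γ t) (fun s => C (xs s)) (X t) (D l m)) Ψ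
      have hΨ'' : ∀ y : T → F, eval y Ψ'' = eval (fun t => if d t then y t else
          ch (γ t) xs (y t) (D l m)) Ψ := by
        intro y
        simp only [Ψ'']
        rw [eval_bind]
        congr 2
        funext t
        split_ifs
        · rw [eval_X]
        · have := ch_hom (γ t) (aeval y : MvPolynomial T F →ₐ[F] F) (fun r => C (xs r)) (X t)
            (D l m)
          simpa [aeval_eq_eval] using this
      have hK : ∀ x : ℕ → F, eval (fun t => ch (γ t) x (bot t xs) (WI t)) Ψ'' =
          eval (fun t => ch (γ t) (fun s => if s < l + m then xs s else x s) (c t)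
            (W (d t) l (m + k'))) Ψ := by
        intro x
        rw [hΨ'']
        congr 2
        funext t
        by_cases hd : d t = true
        · rw [if_pos hd]
          simp only [WI, bot]
          rw [if_pos hd, hd, W_true, W_true, U_add l m k', ch_append]
          have e1 : ch (γ t) (fun s => if s < l + m then xs s else x s) (c t) (U l m) =
              ch (γ t) xs (c t) (U l m) := by
            apply ch_congr
            intro s hs
            rw [mem_U] at hs
            simp only [if_pos hs.2]
          rw [e1]
          apply ch_congr
          intro s hs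
          rw [mem_U] at hs
          simp only [if_neg (show ¬ s < l + m by omega)]
        · rw [if_neg hd]
          simp only [WI, bot]
          rw [if_neg hd]
          rw [Bool.not_eq_true] at hd
          rw [hd, W_false, W_false, D_add l m k', ch_append]
          have e1 : ch (γ t) (fun s => if s < l + m then xs s else x s) (c t) (D (l + m) k') =
              ch (γ t) x (c t) (D (l + m) k') := by
            apply ch_congr
            intro s hs
            rw [mem_D] at hs
            simp only [if_neg (show ¬ s < l + m by omega)]
          rw [e1]
          apply ch_congr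
          intro s hs
          rw [mem_D] at hs
          simp only [if_pos hs.2]
      have hfin := ih (l + m) k' (fun t => bot t xs) Ψ'' hk' (by
        intro t w1 s w2 hw hw2
        by_cases hd : d t = true
        · rw [hd, W_true] at hw
          obtain ⟨j, hj, rfl, rfl⟩ := split_U hw
          have := hxν t j hj
          rw [hνe, if_pos ⟨hd, hj⟩] at this
          exact this
        · have h1 : bot t xs = c t := by simp only [bot]; rw [if_neg hd]
          rw [Bool.not_eq_true] at hd
          rw [hd, W_false] at hw
          rw [h1]
          apply hnd t (D l m ++ w1) s w2 _ hw2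
          rw [hd, W_false, D_add, hw, List.append_assoc]) (by
        intro row col
        apply MvPolynomial.funext
        intro x
        rw [map_zero]
        unfold minor
        rw [RingHom.map_det]
        by_cases hcol : ∀ b, l + m ≤ col b
        · have := hcase row col (fun s => if s < l + m then xs s else x s) hcol
          rw [← this]
          congr 1
          ext a b : 2
          simp only [RingHom.mapMatrix_apply, Matrix.map_apply, Matrix.of_apply]
          rw [pderiv_ch, pderiv_C, mul_zero, add_zero, eval_dch, eval_C]
          have e0 : bot (row a) (fun s => if s < l + m then xs s else x s) = bot (row a) xs := by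
            simp only [bot]
            split_ifs
            · apply ch_congr
              intro s hs
              rw [mem_U] at hs
              simp only [if_pos hs.2]
            · rfl
          rw [e0]
          apply dch_congr
          intro s hs
          have hs' := (hWI (row a) s).mp hs
          simp only [if_neg (show ¬ s < l + m by omega)]
        · push Not at hcol
          obtain ⟨b, hb⟩ := hcol
          apply Matrix.det_eq_zero_of_column_eq_zero b
          intro a
          simp only [RingHom.mapMatrix_apply, Matrix.map_apply, Matrix.of_apply]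
          rw [pderiv_ch, pderiv_C, mul_zero, add_zero, dch_not_mem, map_zero]
          intro hmem
          have := (hWI (row a) (col b)).mp hmem
          omega) (by
        intro x i hi1 hi2 hxi
        have h1 := hvan (fun s => if s < l + m then xs s else x s) i (by omega) (by omega)
          (by simp only [if_neg (show ¬ i < l + m by omega)]; exact hxi)
        exact (hK x).trans h1) xs
      apply hxQ
      rw [eval_bind]
      have h3 := (hK xs).symm.trans hfin
      rw [← h3]
      congr 2
      funext t
      simp only [V]
      rw [eval_ch, eval_C]
      apply ch_congr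
      intro s _
      simp only [ite_self]

/-- **Polynomials in chains**: no nonzero polynomial in `card T` chains over at least
`(card T + 1) ^ 2` variables is divisible by all variables. -/
theorem chains_vanish [CharZero F] (γ : T → ℕ → MvPolynomial (Fin 2) F) (d : T → Bool) (k : ℕ)
    (c : T → F) (Ψ : MvPolynomial T F) (hk : (Fintype.card T + 1) * (Fintype.card T + 1) ≤ k)
    (hnd : ∀ t, ND (γ t) (c t) (W (d t) 0 k))
    (hvan : ∀ (x : ℕ → F) i, i < k → x i = 0 →
      eval (fun t => ch (γ t) x (c t) (W (d t) 0 k)) Ψ = 0) (x : ℕ → F) :
    eval (fun t => ch (γ t) x (c t) (W (d t) 0 k)) Ψ = 0 := by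
  classical
  refine main_D γ d (Fintype.card T + 1) 0 k c Ψ hk hnd ?_ ?_ x
  · intro row col
    by_contra h
    have h1 := Fintype.card_le_of_injective row (minor_rows _ _ _ h)
    rw [Fintype.card_fin] at h1
    omega
  · intro x i _ hi hx
    exact hvan x i (by omega) hx

end

end Pool.Agent.W2helper21.ROT
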