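import Pool.Agent.W2helper21.ROT.NC

/-!
# Overlap gates
-/

namespace Pool.Agent.W2helper21.ROT

open MvPolynomial
open Pool.Agent.W2helper21.ROG (RFormula eval_congr_vars Im Im_irred Im_single Im_mono zero_mem_Im
  NZ NZ_mono eval_dir chain dir spec vars_spec aeval_spec range_infinite)

section

variable {F : Type*} [Field F] [CharZero F] {n m : ℕ}

omit [CharZero F] in
theorem vars_bind_subset (p : MvPolynomial (Fin m) F) (A : Fin m → MvPolynomial (Fin n) F)
    {i : Fin n} (hi : i ∈ (bind₁ A p).vars) : ∃ j ∈ p.vars, i ∈ (A j).vars := by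
  classical
  have h2 := vars_bind₁ _ _ hi
  rw [Finset.mem_biUnion] at h2
  exact h2

omit [CharZero F] in
theorem disjoint_bind (A : Fin m → MvPolynomial (Fin n) F)
    (hdisj : Pairwise fun j j' => Disjoint (A j).vars (A j').vars)
    {M : ℕ} (B : Fin M → MvPolynomial (Fin m) F)
    (hB : Pairwise fun j j' => Disjoint (B j).vars (B j').vars) :
    Pairwise fun j j' => Disjoint (bind₁ A (B j)).vars (bind₁ A (B j')).vars := by
  intro j j' hjj
  rw [Finset.disjoint_left]
  intro i hi hi'
  obtain ⟨l, hl, hil⟩ := vars_bind_subset _ _ hi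
  obtain ⟨l', hl', hil'⟩ := vars_bind_subset _ _ hi'
  by_cases h : l = l'
  · subst h
    exact Finset.disjoint_left.mp (hB hjj) hl hl'
  · exact Finset.disjoint_left.mp (hdisj h) hil hil'

/-- read-once formulas of polynomials in disjoint sets of variables -/
theorem nc_ro {k K : ℕ} (hk : 1 ≤ k) (hkK : k ≤ K) (A : Fin m → MvPolynomial (Fin n) F)
    (hdisj : Pairwise fun j j' => Disjoint (A j).vars (A j').vars) : ∀ f : RFormula F m,
    f.ReadOnce → Arity k f → (∀ j ∈ f.vars, NC K (A j)) → f.toPoly.vars.Nonempty →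
    NC K (bind₁ A f.toPoly)
  | .leaf p => by
    intro _ har hA hne
    rcases har with ⟨s, rfl⟩ | ⟨c, rfl⟩
    · rw [RFormula.toPoly, bind₁_X_right]
      apply hA
      rw [RFormula.vars, vars_X, Finset.mem_singleton]
    · rw [RFormula.toPoly, vars_C] at hne
      exact absurd hne Finset.not_nonempty_empty
  | .gate (m := M) Φ B => by
    classical
    intro hro har hA hne
    have hB := RFormula.disjoint_toPoly hro.2
    rw [RFormula.toPoly] at hne ⊢
    obtain ⟨Φ', h1, h2, h3, h4, _⟩ := reduce2 Φ _ hne
    rw [h4, bind₁_bind₁]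
    apply NC.gate (by omega) Φ' _ (disjoint_bind A hdisj _ hB) h1
    · intro l hl
      apply nc_ro hk hkK A hdisj (B l) (hro.1 l) (har.2 l) _ (h3 l hl)
      intro j hj
      apply hA
      rw [RFormula.vars, Finset.mem_biUnion]
      exact ⟨l, Finset.mem_univ _, hj⟩
    · right
      have := Finset.card_le_card h2
      have := har.1
      omega

theorem nz_ro {k K : ℕ} (hk : 1 ≤ k) (hkK : k ≤ K) (A : Fin m → MvPolynomial (Fin n) F)
    (hdisj : Pairwise fun j j' => Disjoint (A j).vars (A j').vars) (f : RFormula F m)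
    (hro : f.ReadOnce) (har : Arity k f) (hA : ∀ j ∈ f.vars, NC K (A j)) (hne : f.toPoly ≠ 0) :
    NZ K (bind₁ A f.toPoly) := by
  by_cases hv : f.toPoly.vars.Nonempty
  · exact (nc_ro hk hkK A hdisj f hro har hA hv).nz
  · rw [Finset.not_nonempty_iff_eq_empty, vars_eq_empty_iff_eq_C] at hv
    refine ⟨0, zero_mem_Im n K, ?_⟩
    rw [hv, bind₁_C_right, eval_C]
    intro h
    rw [h, map_zero] at hv
    exact hne hv

theorem deriv_hit2 {k K : ℕ} (hk : 1 ≤ k) (hkK : k ≤ K) (A : Fin m → MvPolynomial (Fin n) F)
    (hdisj : Pairwise fun j j' => Disjoint (A j).vars (A j').vars) : ∀ f : RFormula F m,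
    f.ReadOnce → Arity k f → (∀ j ∈ f.vars, NC K (A j)) →
    ∀ i ∈ f.toPoly.vars, NZ K (bind₁ A (pderiv i f.toPoly))
  | .leaf p => by
    intro _ har _ i hi
    rcases har with ⟨s, rfl⟩ | ⟨c, rfl⟩
    · rw [RFormula.toPoly] at hi ⊢
      rw [vars_X, Finset.mem_singleton] at hi
      subst hi
      refine ⟨0, zero_mem_Im n K, ?_⟩
      rw [pderiv_X_self, map_one, map_one]
      exact one_ne_zero
    · rw [RFormula.toPoly, vars_C] at hi
      exact absurd hi (Finset.notMem_empty i)
  | .gate (m := M) Φ B => by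
    classical
    intro hro har hA i hi
    have hB := RFormula.disjoint_toPoly hro.2
    have hne := pderiv_ne_zero hi
    rw [RFormula.toPoly] at hne ⊢
    rw [pderiv_bind] at hne ⊢
    obtain ⟨j, _, hj⟩ := Finset.exists_ne_zero_of_sum_ne_zero hne
    have hij : i ∈ (B j).toPoly.vars := by
      by_contra h
      apply hj
      rw [pderiv_eq_zero_of_notMem_vars h, mul_zero]
    rw [Finset.sum_eq_single j]
    · have hg : (RFormula.gate (pderiv j Φ) B).toPoly =
          bind₁ (fun j => (B j).toPoly) (pderiv j Φ) := by rw [RFormula.toPoly]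
      have h1 : NZ K (bind₁ A (bind₁ (fun j => (B j).toPoly) (pderiv j Φ))) := by
        rw [← hg]
        apply nz_ro hk hkK A hdisj
        · exact hro
        · exact ⟨(Finset.card_le_card (vars_pderiv Φ j)).trans har.1, har.2⟩
        · intro l hl
          apply hA
          rw [RFormula.vars] at hl ⊢
          exact hl
        · rw [hg]
          exact left_ne_zero_of_mul hj
      have h2 := deriv_hit2 hk hkK A hdisj (B j) (hro.1 j) (har.2 j) (fun l hl => by
        apply hA
        rw [RFormula.vars, Finset.mem_biUnion]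
        exact ⟨j, Finset.mem_univ _, hl⟩) i hij
      rw [map_mul]
      exact NZ.mul h1 h2
    · intro j' _ hj'
      rw [pderiv_eq_zero_of_notMem_vars (f := (B j').toPoly)
        (fun h => Finset.disjoint_left.mp (hB hj') h hij), mul_zero]
    · intro h
      exact absurd (Finset.mem_univ _) h

theorem derivative_dir (a : Fin n → F) (i : Fin n) (P : MvPolynomial (Fin n) F) :
    (Polynomial.derivative (dir a (Pi.single i 1) P)).eval 0 = eval a (pderiv i P) := by
  have h1 := chain (fun l => Polynomial.C (a l) +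
    Polynomial.C ((Pi.single i 1 : Fin n → F) l) * Polynomial.X) P
  change Polynomial.derivative (dir a (Pi.single i 1) P) = _ at h1
  rw [h1, Polynomial.eval_finsetSum, Finset.sum_eq_single i]
  · rw [Polynomial.eval_mul]
    have h2 : Polynomial.eval 0 ((aeval fun l => Polynomial.C (a l) +
        Polynomial.C ((Pi.single i 1 : Fin n → F) l) * Polynomial.X) (pderiv i P)) =
        eval (a + (0 : F) • (Pi.single i 1 : Fin n → F)) (pderiv i P) :=
      eval_dir a (Pi.single i 1) (pderiv i P) 0
    rw [h2, zero_smul, add_zero]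
    simp
  · intro j _ hj
    rw [Pi.single_eq_of_ne hj]
    simp
  · intro h
    exact absurd (Finset.mem_univ _) h

/-- overlap gates, nonvanishing -/
theorem nz_mix {k K : ℕ} (hk : 1 ≤ k) (hkK : k ≤ K) (A : Fin m → MvPolynomial (Fin n) F)
    (hdisj : Pairwise fun j j' => Disjoint (A j).vars (A j').vars) (T : ℕ)
    (f : Fin T → RFormula F m) (hro : ∀ t, (f t).ReadOnce) (har : ∀ t, Arity k (f t))
    (hA : ∀ t, ∀ j ∈ (f t).vars, NC K (A j)) (Ψ : MvPolynomial (Fin T) F)
    (hP : bind₁ (fun t => (f t).toPoly) Ψ ≠ 0) :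
    NZ (K + big k T ((T + 1) * (T + 1))) (bind₁ A (bind₁ (fun t => (f t).toPoly) Ψ)) := by
  classical
  set P := bind₁ (fun t => (f t).toPoly) Ψ with hPdef
  by_cases hPv : P.vars.Nonempty
  swap
  · rw [Finset.not_nonempty_iff_eq_empty, vars_eq_empty_iff_eq_C] at hPv
    refine ⟨0, zero_mem_Im n _, ?_⟩
    rw [hPv, bind₁_C_right, eval_C]
    intro h
    rw [h, map_zero] at hPv
    exact hP hPv
  let rel : Finset (Fin m) := Finset.univ.biUnion fun t => (f t).toPoly.vars
  have hrelmem : ∀ t, ∀ j ∈ (f t).toPoly.vars, j ∈ rel := fun t j hj =>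
    Finset.mem_biUnion.mpr ⟨t, Finset.mem_univ _, hj⟩
  have hPrel : ∀ j ∈ P.vars, j ∈ rel := by
    intro j hj
    have h2 := vars_bind₁ _ _ hj
    rw [Finset.mem_biUnion] at h2
    obtain ⟨t, _, ht⟩ := h2
    exact hrelmem t j ht
  have hrelA : ∀ j ∈ rel, NC K (A j) := by
    intro j hj
    obtain ⟨t, _, ht⟩ := Finset.mem_biUnion.mp hj
    exact hA t j (RFormula.vars_toPoly _ ht)
  obtain ⟨j0, hj0⟩ := hPv
  have hn : Nonempty (Fin n) := by
    obtain ⟨i, _⟩ := (hrelA j0 (hPrel j0 hj0)).vars
    exact ⟨i⟩
  have hrep : ∀ j, ∃ i : Fin n, j ∈ rel → i ∈ (A j).vars ∧ NZ K (pderiv i (A j)) := by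
    intro j
    by_cases hj : j ∈ rel
    · obtain ⟨i, h1, h2⟩ := (hrelA j hj).exists_pderiv
      exact ⟨i, fun _ => ⟨h1, h2⟩⟩
    · exact ⟨Classical.arbitrary _, fun h => absurd h hj⟩
  choose e he using hrep
  -- the base point
  obtain ⟨a, ha, hbase⟩ := Im_irred (n := n) (k := K)
    (Finset.univ : Finset ((Fin T × Fin m) ⊕ Fin m))
    (Sum.elim (fun q => if q.2 ∈ (f q.1).toPoly.vars then
        bind₁ A (pderiv q.2 (f q.1).toPoly) else 1)
      (fun j => if j ∈ rel then pderiv (e j) (A j) else 1)) (by
      intro q _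
      rcases q with q | j
      · simp only [Sum.elim_inl]
        split_ifs with h
        · exact deriv_hit2 hk hkK A hdisj (f q.1) (hro q.1) (har q.1) (hA q.1) q.2 h
        · exact ⟨0, zero_mem_Im n K, by rw [map_one]; exact one_ne_zero⟩
      · simp only [Sum.elim_inr]
        split_ifs with h
        · exact (he j h).2
        · exact ⟨0, zero_mem_Im n K, by rw [map_one]; exact one_ne_zero⟩)
  have hb1 : ∀ t, ∀ j ∈ (f t).toPoly.vars, eval a (bind₁ A (pderiv j (f t).toPoly)) ≠ 0 := by
    intro t j hj
    have := hbase (Sum.inl (t, j)) (Finset.mem_univ _)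
    simp only [Sum.elim_inl] at this
    rwa [if_pos hj] at this
  have hb2 : ∀ j ∈ rel, eval a (pderiv (e j) (A j)) ≠ 0 := by
    intro j hj
    have := hbase (Sum.inr j) (Finset.mem_univ _)
    simp only [Sum.elim_inr] at this
    rwa [if_pos hj] at this
  let α : Fin m → Polynomial F := fun j => dir a (Pi.single (e j) 1) (A j)
  have hα0 : (fun j => (α j).eval 0) = fun j => eval a (A j) := by
    funext j
    simp only [α]
    rw [eval_dir, zero_smul, add_zero]
  have hαd : ∀ j ∈ rel, (Polynomial.derivative (α j)).eval 0 ≠ 0 := by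
    intro j hj
    simp only [α]
    rw [derivative_dir]
    exact hb2 j hj
  have hx : ∃ x : Fin m → F, eval (fun j => (α j).eval (x j)) P ≠ 0 := by
    by_contra hcon
    push Not at hcon
    apply hP
    apply MvPolynomial.funext_set (fun j => if j ∈ rel then Set.range fun y => (α j).eval y else
      Set.univ)
    · intro j
      by_cases hj : j ∈ rel
      · rw [if_pos hj]
        obtain ⟨t, ht⟩ : ∃ t, (α j).eval t ≠ (α j).eval 0 := by
          by_contra hc
          push Not at hc
          apply hαd j hj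
          have h1 : α j = Polynomial.C ((α j).eval 0) := by
            apply Polynomial.funext
            intro y
            rw [hc y, Polynomial.eval_C]
          rw [h1, Polynomial.derivative_C, Polynomial.eval_zero]
        exact range_infinite _ ht
      · rw [if_neg hj]
        exact Set.infinite_univ
    · intro z hz
      have h1 : ∀ j, ∃ x : F, j ∈ rel → (α j).eval x = z j := by
        intro j
        by_cases hj : j ∈ rel
        · have h2 := hz j (Set.mem_univ _)
          simp only [if_pos hj] at h2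
          obtain ⟨x, hx⟩ := h2
          exact ⟨x, fun _ => hx⟩
        · exact ⟨0, fun h => absurd h hj⟩
      choose x hx using h1
      rw [map_zero, ← hcon x]
      apply eval_congr_vars
      intro j hj
      exact (hx j (hPrel j hj)).symm
  obtain ⟨I, x, hIcard, hxI, hxne⟩ := core2 hk T f hro har Ψ α
    (fun t j hj => hαd j (hrelmem t j hj)) (by
      intro t j hj
      rw [hα0, ← eval_bind]
      exact hb1 t j hj) hx
  -- the point
  let y : Fin n → F := ∑ j ∈ I ∩ rel, Pi.single (e j) (x j)
  have hy : ∀ i, i ∉ (I ∩ rel).image e → y i = 0 := by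
    intro i hi
    simp only [y]
    rw [Finset.sum_apply]
    apply Finset.sum_eq_zero
    intro j hj
    rw [Pi.single_eq_of_ne]
    rintro rfl
    exact hi (Finset.mem_image_of_mem _ hj)
  have hu := im_support ha _ y hy
  have hcard : ((I ∩ rel).image e).card ≤ big k T ((T + 1) * (T + 1)) :=
    (Finset.card_image_le.trans (Finset.card_le_card Finset.inter_subset_left)).trans hIcard
  refine ⟨a + y, Im_mono (by omega) hu, ?_⟩
  rw [eval_bind]
  have hval : ∀ j ∈ rel, eval (a + y) (A j) = (α j).eval (x j) := by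
    intro j hj
    simp only [α]
    rw [eval_dir]
    apply eval_congr_vars
    intro i hi
    rw [Pi.add_apply, Pi.add_apply]
    congr 1
    simp only [y]
    rw [Finset.sum_apply, Finset.sum_eq_single j]
    · rw [Pi.smul_apply, smul_eq_mul]
      by_cases hie : i = e j
      · rw [← hie, Pi.single_eq_same, Pi.single_eq_same, mul_one]
      · rw [Pi.single_eq_of_ne hie, Pi.single_eq_of_ne hie, mul_zero]
    · intro l hl hlj
      rw [Pi.single_eq_of_ne]
      rintro rfl
      exact Finset.disjoint_left.mp (hdisj hlj)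
        (he l (Finset.mem_inter.mp hl).2).1 hi
    · intro hjI
      have : j ∉ I := fun h => hjI (Finset.mem_inter.mpr ⟨h, hj⟩)
      rw [hxI j this, Pi.single_zero, Pi.zero_apply]
  have : eval (fun j => eval (a + y) (A j)) P = eval (fun j => (α j).eval (x j)) P := by
    apply eval_congr_vars
    intro j hj
    exact hval j (hPrel j hj)
  rw [this]
  exact hxne

end

end Pool.Agent.W2helper21.ROT
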