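import Pool.Agent.W2helper21.ROT.Core2

/-!
# Polynomials which are not constant on the image of the generator
-/

namespace Pool.Agent.W2helper21.ROT

open MvPolynomial
open Pool.Agent.W2helper21.ROG (RFormula eval_congr_vars Im Im_irred Im_single Im_mono zero_mem_Im
  NZ NZ_mono Hom ray eval_ray Good Im_smul part coeff_part mem_support_part vars_part eval_part wt
  coeff_init close_small spec vars_spec totalDegree_spec aeval_spec vars_subset_of_dep ray_bind
  dir_congr_vars aeval_poly chain dir gen lag)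

section

variable {F : Type*} [Field F] [CharZero F] {n : ℕ}

/-- `P` is not constant on the image of the generator with `k` pairs of seeds. -/
def NC (k : ℕ) (P : MvPolynomial (Fin n) F) : Prop := ∃ u ∈ Im F n k, eval u P ≠ eval 0 P

omit [CharZero F] in
theorem NC.mono {k l : ℕ} (hkl : k ≤ l) {P : MvPolynomial (Fin n) F} (h : NC k P) : NC l P := by
  obtain ⟨u, hu, hne⟩ := h
  exact ⟨u, Im_mono hkl hu, hne⟩

omit [CharZero F] in
theorem NC.nz {k : ℕ} {P : MvPolynomial (Fin n) F} (h : NC k P) : NZ k P := by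
  obtain ⟨u, hu, hne⟩ := h
  by_cases h0 : eval u P = 0
  · exact ⟨0, zero_mem_Im n k, fun h1 => hne (h0.trans h1.symm)⟩
  · exact ⟨u, hu, h0⟩

omit [CharZero F] in
theorem NC.of_nz {k : ℕ} {P : MvPolynomial (Fin n) F} (h : NZ k (P - C (eval 0 P))) : NC k P := by
  obtain ⟨u, hu, hne⟩ := h
  refine ⟨u, hu, fun h => hne ?_⟩
  rw [map_sub, eval_C, h, sub_self]

omit [CharZero F] in
theorem NC.vars {k : ℕ} {P : MvPolynomial (Fin n) F} (h : NC k P) : P.vars.Nonempty := by
  obtain ⟨u, _, hne⟩ := h
  by_contra hcon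
  rw [Finset.not_nonempty_iff_eq_empty, vars_eq_empty_iff_eq_C] at hcon
  apply hne
  rw [hcon, eval_C, eval_C]

omit [CharZero F] in
theorem NC.of_ray {k : ℕ} {P : MvPolynomial (Fin n) F} {a : Fin n → F} (ha : a ∈ Im F n k)
    {i : ℕ} (hi : i ≠ 0) [Infinite F] (h : (ray P a).coeff i ≠ 0) : NC k P := by
  by_contra hcon
  unfold NC at hcon
  push Not at hcon
  have : ray P a = Polynomial.C (eval 0 P) := by
    apply Polynomial.funext
    intro y
    rw [eval_ray, Polynomial.eval_C, hcon _ (Im_smul ha y)]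
  apply h
  rw [this, Polynomial.coeff_C, if_neg hi]

theorem NC.of_good {k : ℕ} {P : MvPolynomial (Fin n) F} (h : Good k P) : NC k P := by
  obtain ⟨N, T, hN, ⟨a, ha, hne⟩, h3⟩ := h
  apply NC.of_ray ha hN
  rw [(h3 a).2]
  exact hne

theorem NC.exists_pderiv {k : ℕ} {P : MvPolynomial (Fin n) F} (h : NC k P) :
    ∃ i ∈ P.vars, NZ k (pderiv i P) := by
  obtain ⟨u, hu, hne⟩ := h
  have hd : Polynomial.derivative (ray P u) ≠ 0 := by
    intro h0
    apply hne
    have h1 := Polynomial.derivative_eq_zero.mp h0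
    obtain ⟨c, hc⟩ := Polynomial.natDegree_eq_zero.mp h1
    have h2 : eval ((1 : F) • u) P = c := by rw [← eval_ray, ← hc, Polynomial.eval_C]
    have h3 : eval ((0 : F) • u) P = c := by rw [← eval_ray, ← hc, Polynomial.eval_C]
    rw [one_smul] at h2
    rw [zero_smul] at h3
    rw [h2, h3]
  obtain ⟨y, hy⟩ : ∃ y, (Polynomial.derivative (ray P u)).eval y ≠ 0 := by
    by_contra hcon
    push Not at hcon
    apply hd
    apply Polynomial.funext
    intro y
    rw [hcon y, Polynomial.eval_zero]
  have h1 := chain (fun l => Polynomial.C ((0 : Fin n → F) l) + Polynomial.C (u l) * Polynomial.X) P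
  change Polynomial.derivative (ray P u) = _ at h1
  rw [h1, Polynomial.eval_finsetSum] at hy
  obtain ⟨i, _, hi⟩ := Finset.exists_ne_zero_of_sum_ne_zero hy
  rw [Polynomial.eval_mul] at hi
  have h2 := left_ne_zero_of_mul hi
  have h3 : Polynomial.eval y ((aeval fun l => Polynomial.C ((0 : Fin n → F) l) +
      Polynomial.C (u l) * Polynomial.X) (pderiv i P)) = eval (y • u) (pderiv i P) :=
    eval_ray (pderiv i P) u y
  rw [h3] at h2
  refine ⟨i, ?_, y • u, Im_smul hu y, h2⟩
  by_contra hi'
  apply h2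
  rw [pderiv_eq_zero_of_notMem_vars hi', map_zero]

omit [CharZero F] in
theorem coeff_ray (P : MvPolynomial (Fin n) F) (a : Fin n → F) (i : ℕ) :
    (ray P a).coeff i = eval a (part (fun _ => 1) i P) := by
  classical
  have h : ray P a = ∑ α ∈ P.support, Polynomial.C (coeff α P * ∏ m, a m ^ α m) *
      Polynomial.X ^ (wt (fun _ => 1) α) := by
    change aeval (fun l => Polynomial.C ((0 : Fin n → F) l) + Polynomial.C (a l) * Polynomial.X) P
      = _
    rw [aeval_poly]
    apply Finset.sum_congr rfl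
    intro α _
    have h1 : ∀ m, (Polynomial.C ((0 : Fin n → F) m) + Polynomial.C (a m) * Polynomial.X) ^ α m =
        Polynomial.C (a m ^ α m) * Polynomial.X ^ α m := by
      intro m
      rw [Pi.zero_apply, map_zero, zero_add, mul_pow, Polynomial.C_pow]
    rw [Finset.prod_congr rfl (fun m _ => h1 m), Finset.prod_mul_distrib,
      Finset.prod_pow_eq_pow_sum, ← map_prod, ← mul_assoc, ← map_mul]
    congr 2
    unfold wt
    simp
  rw [h, Polynomial.finsetSum_coeff, eval_part, Finset.sum_filter]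
  apply Finset.sum_congr rfl
  intro α _
  rw [Polynomial.coeff_C_mul, Polynomial.coeff_X_pow]
  by_cases hw : wt (fun _ => 1) α = i
  · rw [if_pos hw, if_pos hw.symm, mul_one]
  · rw [if_neg hw, if_neg (fun h => hw h.symm), mul_zero]

theorem NC.lowest {k : ℕ} {P : MvPolynomial (Fin n) F} (h : NC k P) :
    ∃ (w : ℕ) (T : MvPolynomial (Fin n) F), w ≠ 0 ∧ NZ k T ∧ T.vars ⊆ P.vars ∧ Hom w T ∧
      (∀ a, (ray P a).coeff w = eval a T) ∧
      ∀ a ∈ Im F n k, ∀ i < w, i ≠ 0 → (ray P a).coeff i = 0 := by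
  classical
  have hex : ∃ i, i ≠ 0 ∧ NZ k (part (fun _ => 1) i P) := by
    by_contra hcon
    push Not at hcon
    obtain ⟨u, hu, hne⟩ := h
    have hc : ∀ i ≠ 0, (ray P u).coeff i = 0 := by
      intro i hi
      rw [coeff_ray]
      by_contra h1
      exact hcon i hi ⟨u, hu, h1⟩
    have h1 : ray P u = Polynomial.C ((ray P u).coeff 0) := by
      ext i
      rw [Polynomial.coeff_C]
      by_cases hi : i = 0
      · rw [if_pos hi, hi]
      · rw [if_neg hi, hc i hi]
    apply hne
    have h2 : eval ((1 : F) • u) P = (ray P u).coeff 0 := by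
      rw [← eval_ray]
      conv_lhs => rw [h1]
      rw [Polynomial.eval_C]
    have h3 : eval ((0 : F) • u) P = (ray P u).coeff 0 := by
      rw [← eval_ray]
      conv_lhs => rw [h1]
      rw [Polynomial.eval_C]
    rw [one_smul] at h2
    rw [zero_smul] at h3
    rw [h2, h3]
  refine ⟨Nat.find hex, part (fun _ => 1) (Nat.find hex) P, (Nat.find_spec hex).1,
    (Nat.find_spec hex).2, vars_part, ?_, fun a => coeff_ray P a _, ?_⟩
  · intro c _ a
    rw [← coeff_ray, ← coeff_ray]
    have h1 : ray P (c • a) = (ray P a).comp (Polynomial.C c * Polynomial.X) := by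
      apply Polynomial.funext
      intro y
      rw [eval_ray, Polynomial.eval_comp, eval_ray]
      simp only [Polynomial.eval_mul, Polynomial.eval_C, Polynomial.eval_X]
      rw [smul_smul, mul_comm]
    rw [h1, Polynomial.comp_C_mul_X_coeff, mul_comm]
  · intro a ha i hi hi0
    rw [coeff_ray]
    by_contra h1
    exact Nat.find_min hex hi ⟨hi0, a, ha, h1⟩

/-! ### Gates -/

omit [CharZero F] in
/-- constant arguments can be substituted -/
theorem reduce2 {M : ℕ} (Φ : MvPolynomial (Fin M) F) (A : Fin M → MvPolynomial (Fin n) F)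
    (hne : (bind₁ A Φ).vars.Nonempty) : ∃ Φ' : MvPolynomial (Fin M) F,
      Φ'.vars.Nonempty ∧ Φ'.vars ⊆ Φ.vars ∧ (∀ m ∈ Φ'.vars, (A m).vars.Nonempty) ∧
      bind₁ A Φ = bind₁ A Φ' ∧ Φ'.totalDegree ≤ Φ.totalDegree := by
  classical
  let S : Finset (Fin M) := Finset.univ.filter fun j => (A j).vars.Nonempty
  let z : Fin M → F := fun j => coeff 0 (A j)
  have hz : ∀ j ∉ S, A j = C (z j) := by
    intro j hj
    have : (A j).vars = ∅ := by
      rw [← Finset.not_nonempty_iff_eq_empty]
      intro h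
      exact hj (Finset.mem_filter.mpr ⟨Finset.mem_univ _, h⟩)
    rw [vars_eq_empty_iff_eq_C] at this
    exact this
  have hspec : bind₁ A Φ = bind₁ A (spec S z Φ) := (aeval_spec S z Φ A hz).symm
  refine ⟨spec S z Φ, ?_, fun m hm => (vars_spec S z Φ hm).1, ?_, hspec,
    totalDegree_spec S z Φ⟩
  · by_contra hcon
    rw [Finset.not_nonempty_iff_eq_empty, vars_eq_empty_iff_eq_C] at hcon
    rw [hspec, hcon, bind₁_C_right, vars_C] at hne
    exact Finset.not_nonempty_empty hne
  · intro m hm
    exact (Finset.mem_filter.mp (vars_spec S z Φ hm).2).2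

omit [CharZero F] in
theorem totalDegree_bind_one {M : ℕ} (Φ : MvPolynomial (Fin M) F)
    (B : Fin M → MvPolynomial (Fin M) F) (hB : ∀ m, (B m).totalDegree ≤ 1) :
    (bind₁ B Φ).totalDegree ≤ Φ.totalDegree := by
  classical
  conv_lhs => rw [Φ.as_sum, map_sum]
  refine (totalDegree_finsetSum _ _).trans ?_
  apply Finset.sup_le
  intro α hα
  rw [bind₁_monomial]
  refine (totalDegree_mul _ _).trans ?_
  rw [totalDegree_C, zero_add]
  refine (totalDegree_finsetProd _ _).trans ?_
  refine le_trans ?_ (le_totalDegree hα)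
  rw [Finsupp.sum]
  apply Finset.sum_le_sum
  intro i _
  refine (totalDegree_pow _ _).trans ?_
  calc α i * (B i).totalDegree ≤ α i * 1 := Nat.mul_le_mul_left _ (hB i)
    _ = α i := mul_one _

theorem NC.gate {M K : ℕ} (hK : K ≠ 0) (Φ : MvPolynomial (Fin M) F)
    (A : Fin M → MvPolynomial (Fin n) F)
    (hdisj : Pairwise fun j j' => Disjoint (A j).vars (A j').vars)
    (hv : Φ.vars.Nonempty) (hA : ∀ m ∈ Φ.vars, NC K (A m))
    (hΦ : Φ.totalDegree ≤ 1 ∨ Φ.vars.card ≤ K + 1) : NC K (bind₁ A Φ) := by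
  classical
  have hall : ∀ m, ∃ (w : ℕ) (T : MvPolynomial (Fin n) F), T.vars ⊆ (A m).vars ∧
      (m ∈ Φ.vars → w ≠ 0 ∧ NZ K T ∧ Hom w T ∧ (∀ a, (ray (A m) a).coeff w = eval a T) ∧
        ∀ a ∈ Im F n K, ∀ i < w, i ≠ 0 → (ray (A m) a).coeff i = 0) := by
    intro m
    by_cases hm : m ∈ Φ.vars
    · obtain ⟨w, T, h1, h2, h3, h4, h5, h6⟩ := (hA m hm).lowest
      exact ⟨w, T, h3, fun _ => ⟨h1, h2, h4, h5, h6⟩⟩
    · exact ⟨0, 0, by simp, fun h => (hm h).elim⟩
  choose w T hTv hT using hall
  let c : Fin M → F := fun m => eval 0 (A m)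
  let B : Fin M → MvPolynomial (Fin M) F := fun m => X m + C (c m)
  let B' : Fin M → MvPolynomial (Fin M) F := fun m => X m - C (c m)
  let h : Fin M → MvPolynomial (Fin n) F := fun m => A m - C (c m)
  let Φ1 : MvPolynomial (Fin M) F := bind₁ B Φ - C (eval c Φ)
  have hhΦ : bind₁ h Φ1 = bind₁ A Φ - C (eval c Φ) := by
    simp only [Φ1]
    rw [map_sub, bind₁_C_right, bind₁_bind₁]
    congr 3
    funext m
    simp [B, h]
  have hΦ1 : Φ1 ≠ 0 := by
    intro h0
    have h1 : bind₁ B Φ = C (eval c Φ) := sub_eq_zero.mp h0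
    have h2 : bind₁ B' (bind₁ B Φ) = Φ := by
      rw [bind₁_bind₁]
      have : (fun i => bind₁ B' (B i)) = X := by
        funext m
        simp [B, B']
      rw [this]
      simp
    rw [h1, bind₁_C_right] at h2
    rw [← h2, vars_C] at hv
    exact Finset.not_nonempty_empty hv
  have hΦ1v : Φ1.vars ⊆ Φ.vars := by
    intro i hi
    have h1 := vars_sub_subset _ hi
    rw [vars_C, Finset.union_empty] at h1
    have h2 := vars_bind₁ _ _ h1
    rw [Finset.mem_biUnion] at h2
    obtain ⟨j, hj, hij⟩ := h2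
    have h3 := vars_add_subset _ _ hij
    rw [vars_X, vars_C, Finset.union_empty, Finset.mem_singleton] at h3
    rw [h3]
    exact hj
  have hc0 : coeff 0 Φ1 = 0 := by
    have h1 : eval 0 Φ1 = 0 := by
      simp only [Φ1]
      rw [map_sub, eval_C, eval_bind]
      have : (fun i => eval 0 (B i)) = c := by
        funext m
        simp [B]
      rw [this, sub_self]
    rw [MvPolynomial.eval_zero, constantCoeff_eq] at h1
    exact h1
  obtain ⟨d, hd, hmin⟩ := Finset.exists_min_image Φ1.support (wt w) (support_nonempty.mpr hΦ1)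
  set N := wt w d with hN
  have hN0 : N ≠ 0 := by
    have hd0 : d ≠ 0 := by
      rintro rfl
      exact (mem_support_iff.mp hd) hc0
    obtain ⟨m, hm⟩ : ∃ m, d m ≠ 0 := by
      by_contra hcon
      push Not at hcon
      exact hd0 (Finsupp.ext hcon)
    have hmv : m ∈ Φ1.vars := (mem_vars_iff_mem_support _).mpr ⟨d, hd, Finsupp.mem_support_iff.mpr hm⟩
    have hwm := (hT m (hΦ1v hmv)).1
    have h2 : w m * d m ≤ wt w d := by
      rw [wt]
      exact Finset.single_le_sum (f := fun m => w m * d m) (fun _ _ => Nat.zero_le _)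
        (Finset.mem_univ m)
    have h4 := Nat.mul_ne_zero hwm hm
    omega
  have hne : part w N Φ1 ≠ 0 := by
    intro h
    have : d ∈ (part w N Φ1).support := mem_support_part.mpr ⟨hd, rfl⟩
    rw [h] at this
    simp at this
  obtain ⟨a, ha, hane⟩ := close_small (k := K) hK Φ1 (by
      rcases hΦ with h1 | h1
      · left
        refine (totalDegree_sub _ _).trans (max_le ?_ ?_)
        · refine (totalDegree_bind_one Φ B ?_).trans h1
          intro m
          refine (totalDegree_add _ _).trans (max_le ?_ ?_)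
          · rw [totalDegree_X]
          · rw [totalDegree_C]
            exact Nat.zero_le _
        · rw [totalDegree_C]
          exact Nat.zero_le _
      · right; left
        exact (Finset.card_le_card hΦ1v).trans h1) w N T hne hN0 (by
      intro j j' hjj
      exact Finset.disjoint_of_subset_left (hTv j)
        (Finset.disjoint_of_subset_right (hTv j') (hdisj hjj))) (by
      intro m hm
      have h1 := hT m (hΦ1v hm)
      exact ⟨h1.2.2.1, h1.1, h1.2.1⟩)
  have hray : ray (bind₁ h Φ1) a = aeval (fun m => ray (h m) a) Φ1 := ray_bind h Φ1 a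
  have hraym : ∀ m, ray (h m) a = ray (A m) a - Polynomial.C (c m) := by
    intro m
    apply Polynomial.funext
    intro y
    rw [eval_ray, Polynomial.eval_sub, eval_ray, Polynomial.eval_C]
    simp [h]
  have hcoef : (ray (bind₁ h Φ1) a).coeff N = eval a (bind₁ T (part w N Φ1)) := by
    rw [hray, coeff_init (o := w) (N := N) (Φ := Φ1) (p := fun m => ray (h m) a) ?_ hmin,
      eval_bind]
    · apply eval_congr_vars
      intro m hm
      have hm' := hΦ1v (vars_part hm)
      have h1 := hT m hm'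
      rw [hraym, Polynomial.coeff_sub, Polynomial.coeff_C, if_neg h1.1, sub_zero, h1.2.2.2.1]
    · intro m hm i hi
      have h1 := hT m (hΦ1v hm)
      rw [hraym, Polynomial.coeff_sub, Polynomial.coeff_C]
      by_cases hi0 : i = 0
      · rw [if_pos hi0, hi0]
        have h2 : (ray (A m) a).coeff 0 = c m := by
          rw [Polynomial.coeff_zero_eq_eval_zero, eval_ray, zero_smul]
        rw [h2, sub_self]
      · rw [if_neg hi0, sub_zero]
        exact h1.2.2.2.2 a ha i hi hi0
  have hNC : NC K (bind₁ h Φ1) := by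
    apply NC.of_ray ha hN0
    rw [hcoef]
    exact hane
  obtain ⟨u, hu, hune⟩ := hNC
  refine ⟨u, hu, fun heq => hune ?_⟩
  rw [hhΦ, map_sub, map_sub, heq, eval_C, eval_C]

theorem NC.gate' {M K : ℕ} (hK : K ≠ 0) (Φ : MvPolynomial (Fin M) F)
    (A : Fin M → MvPolynomial (Fin n) F)
    (hdisj : Pairwise fun j j' => Disjoint (A j).vars (A j').vars)
    (hA : ∀ m, (A m).vars.Nonempty → NC K (A m))
    (hΦ : Φ.totalDegree ≤ 1 ∨ Φ.vars.card ≤ K + 1) (hne : (bind₁ A Φ).vars.Nonempty) :
    NC K (bind₁ A Φ) := by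
  obtain ⟨Φ', h1, h2, h3, h4, h5⟩ := reduce2 Φ A hne
  rw [h4]
  apply NC.gate hK Φ' A hdisj h1 (fun m hm => hA m (h3 m hm))
  rcases hΦ with h | h
  · exact Or.inl (h5.trans h)
  · exact Or.inr ((Finset.card_le_card h2).trans h)

/-! ### Products -/

/-- the generator as a family of polynomials in the seeds -/
noncomputable def seeds (F : Type*) [Field F] (n k : ℕ) (i : Fin n) :
    MvPolynomial (Fin k ⊕ Fin k) F :=
  ∑ l, X (Sum.inr l) * ∏ j ∈ Finset.univ.erase i,
      (X (Sum.inl l) - C ((j : ℕ) : F)) * C ((((i : ℕ) : F) - ((j : ℕ) : F))⁻¹)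

omit [CharZero F] in
theorem eval_seeds {k : ℕ} (z : Fin k ⊕ Fin k → F) : (fun i => eval z (seeds F n k i)) =
    gen n (fun l => z (Sum.inl l)) (fun l => z (Sum.inr l)) := by
  funext i
  simp only [seeds, gen, lag, map_sum, map_mul, map_prod, map_sub, eval_X, eval_C, div_eq_mul_inv]

theorem nc_iff {k : ℕ} {P : MvPolynomial (Fin n) F} :
    NC k P ↔ (bind₁ (seeds F n k) P).totalDegree ≠ 0 := by
  constructor
  · rintro ⟨_, ⟨u, y, rfl⟩, hne⟩ h0
    apply hne
    rw [totalDegree_eq_zero_iff_eq_C] at h0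
    have h1 := eval_seeds (F := F) (n := n) (Sum.elim u y)
    have h2 := eval_seeds (F := F) (n := n) (0 : Fin k ⊕ Fin k → F)
    have h3 : gen n (fun l : Fin k => (0 : Fin k ⊕ Fin k → F) (Sum.inl l))
        (fun l => (0 : Fin k ⊕ Fin k → F) (Sum.inr l)) = 0 := by
      funext i
      simp [gen]
    rw [h3] at h2
    simp only [Sum.elim_inl, Sum.elim_inr] at h1
    rw [← h1, ← h2, ← eval_bind, ← eval_bind, h0, eval_C, eval_C]
  · intro h0
    by_contra hcon
    unfold NC at hcon
    push Not at hcon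
    apply h0
    have : bind₁ (seeds F n k) P = C (eval 0 P) := by
      apply MvPolynomial.funext
      intro z
      rw [eval_bind, eval_seeds, eval_C]
      exact hcon _ ⟨_, _, rfl⟩
    rw [this, totalDegree_C]

omit [CharZero F] in
theorem nz_iff [Infinite F] {k : ℕ} {P : MvPolynomial (Fin n) F} :
    NZ k P ↔ bind₁ (seeds F n k) P ≠ 0 := by
  constructor
  · rintro ⟨_, ⟨u, y, rfl⟩, hne⟩ h0
    apply hne
    have h1 := eval_seeds (F := F) (n := n) (Sum.elim u y)
    simp only [Sum.elim_inl, Sum.elim_inr] at h1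
    rw [← h1, ← eval_bind, h0, map_zero]
  · intro h0
    by_contra hcon
    unfold NZ at hcon
    push Not at hcon
    apply h0
    apply MvPolynomial.funext
    intro z
    rw [eval_bind, eval_seeds, map_zero]
    exact hcon _ ⟨_, _, rfl⟩

theorem NC.mul {k : ℕ} {P Q : MvPolynomial (Fin n) F} (hP : NZ k P) (hQ : NZ k Q)
    (h : NC k P ∨ NC k Q) : NC k (P * Q) := by
  rw [nc_iff, map_mul, totalDegree_mul_of_isDomain (nz_iff.mp hP) (nz_iff.mp hQ)]
  rcases h with h | h
  · have := nc_iff.mp h
    omega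
  · have := nc_iff.mp h
    omega

omit [CharZero F] in
theorem NZ.mul [Infinite F] {k : ℕ} {P Q : MvPolynomial (Fin n) F} (hP : NZ k P) (hQ : NZ k Q) :
    NZ k (P * Q) := by
  rw [nz_iff, map_mul]
  exact mul_ne_zero (nz_iff.mp hP) (nz_iff.mp hQ)

theorem NC.prod {ι : Type*} {K : ℕ} (s : Finset ι) (A : ι → MvPolynomial (Fin n) F)
    (hA : ∀ m ∈ s, (A m).vars.Nonempty → NC K (A m)) (hne : (∏ m ∈ s, A m).vars.Nonempty) :
    NC K (∏ m ∈ s, A m) := by
  classical
  have hne0 : ∏ m ∈ s, A m ≠ 0 := by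
    intro h0
    rw [h0, vars_0] at hne
    exact Finset.not_nonempty_empty hne
  induction s using Finset.induction_on with
  | empty =>
    rw [Finset.prod_empty] at hne
    have : (1 : MvPolynomial (Fin n) F).vars = ∅ := vars_one
    rw [this] at hne
    exact absurd hne Finset.not_nonempty_empty
  | insert m s hms ih =>
    rw [Finset.prod_insert hms] at hne hne0 ⊢
    have h1 := left_ne_zero_of_mul hne0
    have h2 := right_ne_zero_of_mul hne0
    have key : ∀ P : MvPolynomial (Fin n) F, P ≠ 0 → (P.vars.Nonempty → NC K P) → NZ K P := by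
      intro P hP h
      by_cases hv : P.vars.Nonempty
      · exact (h hv).nz
      · rw [Finset.not_nonempty_iff_eq_empty, vars_eq_empty_iff_eq_C] at hv
        refine ⟨0, zero_mem_Im n K, ?_⟩
        rw [hv, eval_C]
        intro h0
        rw [h0, map_zero] at hv
        exact hP hv
    have ih' : (∏ m ∈ s, A m).vars.Nonempty → NC K (∏ m ∈ s, A m) := fun h =>
      ih (fun l hl => hA l (Finset.mem_insert_of_mem hl)) h h2
    apply NC.mul (key _ h1 (hA m (Finset.mem_insert_self m s))) (key _ h2 ih')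
    by_cases hv : (A m).vars.Nonempty
    · exact Or.inl (hA m (Finset.mem_insert_self m s) hv)
    · right
      apply ih'
      by_contra hv2
      rw [Finset.not_nonempty_iff_eq_empty, vars_eq_empty_iff_eq_C] at hv hv2
      rw [hv, hv2, ← map_mul, vars_C] at hne
      exact Finset.not_nonempty_empty hne

end

end Pool.Agent.W2helper21.ROT
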